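import Pool.Agent.H.MP_b48dd4_gt.C

set_option autoImplicit false

/-! Braids: families of strands swept in time, hybrid estimates, persistence of gaps. -/

namespace Pool.Agent.H.MP_c30897_gt

open Finset Classical

variable {ι : Type}

noncomputable def cut (E : Finset ι) (σ τ : ι → ℝ) (r : ℝ) : Finset ι :=
  E.filter fun e => σ e ≤ r ∧ r < τ e

noncomputable def ends (E : Finset ι) (σ : ι → ℝ) (r : ℝ) : Finset ι := E.filter fun e => σ e = r

def At (E : Finset ι) (σ τ : ι → ℝ) (v : ℝ) (e : ι) : Prop := e ∈ E ∧ (σ e = v ∨ τ e = v)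

structure Br (E : Finset ι) (σ τ : ι → ℝ) (A : Finset ℝ) (s t : ℝ) : Prop where
  win : ∀ v ∈ A, s < v ∧ v ≤ t
  lt : ∀ e ∈ E, σ e < τ e
  lo : ∀ e ∈ E, σ e ∈ A ∨ σ e ≤ s
  hi : ∀ e ∈ E, τ e ∈ A ∨ t < τ e

def Free (A : Finset ℝ) (a b : ℝ) : Prop := ∀ v ∈ A, ¬ (a < v ∧ v < b)

lemma mem_cut {E : Finset ι} {σ τ : ι → ℝ} {r : ℝ} {e : ι} :
    e ∈ cut E σ τ r ↔ e ∈ E ∧ σ e ≤ r ∧ r < τ e := mem_filter

lemma mem_ends {E : Finset ι} {σ : ι → ℝ} {r : ℝ} {e : ι} : e ∈ ends E σ r ↔ e ∈ E ∧ σ e = r :=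
  mem_filter

lemma At.o {E : Finset ι} {σ τ : ι → ℝ} {v : ℝ} {e : ι} (h : e ∈ ends E σ v) : At E σ τ v e :=
  ⟨(mem_ends.1 h).1, Or.inl (mem_ends.1 h).2⟩

lemma At.i {E : Finset ι} {σ τ : ι → ℝ} {v : ℝ} {e : ι} (h : e ∈ ends E τ v) : At E σ τ v e :=
  ⟨(mem_ends.1 h).1, Or.inr (mem_ends.1 h).2⟩

section
variable {E : Finset ι} {σ τ : ι → ℝ} {A : Finset ℝ} {s t a b : ℝ}

lemma Br.life (h : Br E σ τ A s t) {v : ℝ} {e : ι} (he : At E σ τ v e) : σ e ≤ v ∧ v ≤ τ e := by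
  have := h.lt e he.1
  rcases he.2 with q | q <;> constructor <;> linarith

lemma Br.out_sub (h : Br E σ τ A s t) (v : ℝ) : ends E σ v ⊆ cut E σ τ v := fun e he => by
  obtain ⟨h1, rfl⟩ := mem_ends.1 he
  exact mem_cut.2 ⟨h1, le_rfl, h.lt e h1⟩

lemma Br.dich (h : Br E σ τ A s t) (h1 : s ≤ a) (h3 : b ≤ t) (hf : Free A a b) {e : ι}
    (he : e ∈ E) : (σ e ≤ a ∨ b ≤ σ e) ∧ (τ e ≤ a ∨ b ≤ τ e) := by
  have q1 := hf (σ e)
  have q2 := hf (τ e)
  have q3 := h.lo e he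
  have q4 := h.hi e he
  grind

lemma Br.alive (h : Br E σ τ A s t) (h1 : s ≤ a) (h3 : b ≤ t) (hf : Free A a b) {e : ι}
    (he : e ∈ cut E σ τ a) : e ∈ E ∧ σ e ≤ a ∧ b ≤ τ e := by
  obtain ⟨q1, q2, q3⟩ := mem_cut.1 he
  exact ⟨q1, q2, (h.dich h1 h3 hf q1).2.resolve_left (not_le.2 q3)⟩

lemma Br.step {G : Type} [AddCommGroup G] (h : Br E σ τ A s t) (h1 : s ≤ a) (h2 : a < b)
    (h3 : b ≤ t) (hf : Free A a b) (g : ι → G) : ∑ e ∈ cut E σ τ b, g e =
      ∑ e ∈ cut E σ τ a, g e + (∑ e ∈ ends E σ b, g e - ∑ e ∈ ends E τ b, g e) := by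
  unfold cut ends
  simp only [sum_filter]
  rw [← sum_sub_distrib, ← sum_add_distrib]
  refine sum_congr rfl fun e he => ?_
  have q1 := h.dich h1 h3 hf he
  have q2 := h.lt e he
  split_ifs <;> first | (simp; done) | (exfalso; grind)

lemma Br.notA (h : Br E σ τ A s t) (h1 : s < b) (h3 : b ≤ t) (hb : b ∉ A) :
    ends E σ b = ∅ ∧ ends E τ b = ∅ := by
  constructor <;> refine filter_eq_empty_iff.2 fun e he q => ?_
  · rcases h.lo e he with w | w
    · exact hb (q ▸ w)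
    · linarith
  · rcases h.hi e he with w | w
    · exact hb (q ▸ w)
    · linarith

lemma Br.step1 {G : Type} [AddCommGroup G] (h : Br E σ τ A s t) (h1 : s ≤ a) (h2 : a < b)
    (h3 : b ≤ t) (hf : Free A a b) (g : ι → G)
    (hg : b ∈ A → ∑ e ∈ ends E σ b, g e = ∑ e ∈ ends E τ b, g e) :
    ∑ e ∈ cut E σ τ b, g e = ∑ e ∈ cut E σ τ a, g e := by
  rw [h.step h1 h2 h3 hf]
  by_cases q : b ∈ A
  · rw [hg q, sub_self, add_zero]
  · obtain ⟨w1, w2⟩ := h.notA (h1.trans_lt h2) h3 q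
    simp [w1, w2]

lemma Br.step2 (h : Br E σ τ A s t) (h1 : s ≤ a) (h2 : a < b)
    (h3 : b ≤ t) (hf : Free A a b) (g : ι → ι → ℝ) (hs : ∀ e f, g e f = g f e)
    (hg : b ∈ A → ∀ f, ∑ e ∈ ends E σ b, g e f = ∑ e ∈ ends E τ b, g e f) :
    ∑ e ∈ cut E σ τ b, ∑ f ∈ cut E σ τ b, g e f = ∑ e ∈ cut E σ τ a, ∑ f ∈ cut E σ τ a, g e f := by
  have k : ∀ f, ∑ e ∈ cut E σ τ b, g e f = ∑ e ∈ cut E σ τ a, g e f := fun f =>
    h.step1 h1 h2 h3 hf _ fun q => hg q f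
  rw [sum_comm]
  simp only [k]
  rw [sum_comm]
  refine sum_congr rfl fun e _ => ?_
  simp only [hs e, k]

end

lemma hyb (A : Finset ℝ) (Φ J : ℝ → ℝ) (Λ s t : ℝ)
    (h : ∀ a b, s ≤ a → a < b → b ≤ t → Free A a b →
      Φ b - Φ a ≤ Λ * (b - a) + if b ∈ A then J b else 0) :
    ∀ a b, s ≤ a → a ≤ b → b ≤ t →
      Φ b - Φ a ≤ Λ * (b - a) + ∑ v ∈ A.filter (fun v => a < v ∧ v ≤ b), J v := by
  have key : ∀ n a b, (A.filter fun v => a < v ∧ v < b).card ≤ n → s ≤ a → a ≤ b → b ≤ t →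
      Φ b - Φ a ≤ Λ * (b - a) + ∑ v ∈ A.filter (fun v => a < v ∧ v ≤ b), J v := by
    intro n
    induction n with
    | zero =>
      intro a b h0 h1 h2 h3
      rw [Nat.le_zero, card_eq_zero, filter_eq_empty_iff] at h0
      rcases h2.eq_or_lt with rfl | h2
      · rw [filter_false_of_mem fun v _ q => absurd q.1 (not_lt.2 q.2)]; simp
      refine (h a b h1 h2 h3 fun v hv => h0 hv).trans (le_of_eq ?_)
      rw [← sum_ite_eq A b J, sum_filter]
      congr 1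
      refine sum_congr rfl fun v hv => ?_
      have := h0 hv
      grind
    | succ n ih =>
      intro a b h0 h1 h2 h3
      rcases Nat.lt_or_ge n (A.filter fun v => a < v ∧ v < b).card with q | q
      swap
      · exact ih a b q h1 h2 h3
      obtain ⟨c, hc⟩ := card_pos.1 (Nat.zero_lt_of_lt q)
      obtain ⟨c0, c1, c2⟩ := mem_filter.1 hc
      have k1 := ih a c (Nat.lt_succ_iff.1 (lt_of_lt_of_le (card_lt_card ⟨fun v hv => by
        rw [mem_filter] at hv ⊢; exact ⟨hv.1, hv.2.1, hv.2.2.trans c2⟩,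
        fun hh => lt_irrefl _ (mem_filter.1 (hh hc)).2.2⟩) h0)) h1 c1.le (c2.le.trans h3)
      have k2 := ih c b (Nat.lt_succ_iff.1 (lt_of_lt_of_le (card_lt_card ⟨fun v hv => by
        rw [mem_filter] at hv ⊢; exact ⟨hv.1, c1.trans hv.2.1, hv.2.2⟩,
        fun hh => lt_irrefl _ (mem_filter.1 (hh hc)).2.1⟩) h0)) (h1.trans c1.le) c2.le h3
      have k3 : ∑ v ∈ A.filter (fun v => a < v ∧ v ≤ b), J v =
          ∑ v ∈ A.filter (fun v => a < v ∧ v ≤ c), J v +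
            ∑ v ∈ A.filter (fun v => c < v ∧ v ≤ b), J v := by
        simp only [sum_filter]
        rw [← sum_add_distrib]
        refine sum_congr rfl fun v _ => ?_
        rcases le_or_gt v c with w | w
        · rw [if_neg (c := c < v ∧ v ≤ b) fun z => not_lt.2 w z.1, add_zero]
          exact if_congr ⟨fun z => ⟨z.1, w⟩, fun z => ⟨z.1, w.trans c2.le⟩⟩ rfl rfl
        · rw [if_neg (c := a < v ∧ v ≤ c) fun z => not_lt.2 z.2 w, zero_add]
          exact if_congr ⟨fun z => ⟨w, z.2⟩, fun z => ⟨c1.trans w, z.2⟩⟩ rfl rfl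
      linarith
  exact fun a b => key _ a b le_rfl

lemma hyb2 (A : Finset ℝ) (Φ : ℝ → ℝ) (Λ s t : ℝ)
    (h : ∀ a b, s ≤ a → a < b → b ≤ t → Free A a b → |Φ b - Φ a| ≤ Λ * (b - a)) :
    ∀ a b, s ≤ a → a ≤ b → b ≤ t → |Φ b - Φ a| ≤ Λ * (b - a) := by
  intro a b h1 h2 h3
  have k1 := hyb A Φ (fun _ => 0) Λ s t (fun a b q1 q2 q3 q4 => by
    simpa using (abs_le.1 (h a b q1 q2 q3 q4)).2) a b h1 h2 h3
  have k2 := hyb A (fun r => -Φ r) (fun _ => 0) Λ s t (fun a b q1 q2 q3 q4 => by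
    have := (abs_le.1 (h a b q1 q2 q3 q4)).1
    simp only [ite_self]; linarith) a b h1 h2 h3
  simp only [sum_const_zero] at k1 k2
  rw [abs_le]; constructor <;> linarith

lemma epoch (A : Finset ℝ) (bad P : ℝ → Prop) [DecidablePred bad] [DecidablePred P] (s t : ℝ) (M : ℕ)
    (hw : ∀ a b, s ≤ a → a ≤ b → b ≤ t → (∀ v ∈ A, a < v → v ≤ b → ¬ bad v) →
      (A.filter fun v => P v ∧ a < v ∧ v ≤ b).card ≤ M) (hst : s ≤ t) :
    (A.filter fun v => P v ∧ s < v ∧ v ≤ t).card ≤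
      (A.filter bad).card + ((A.filter bad).card + 1) * M := by
  have key : ∀ n b, s ≤ b → b ≤ t → (A.filter fun v => bad v ∧ s < v ∧ v ≤ b).card ≤ n →
      (A.filter fun v => P v ∧ s < v ∧ v ≤ b).card ≤ n + (n + 1) * M := by
    intro n
    induction n with
    | zero =>
      intro b h1 h2 ht
      rw [Nat.le_zero, card_eq_zero, filter_eq_empty_iff] at ht
      exact (hw s b le_rfl h1 h2 fun v hv q1 q2 q3 => ht hv ⟨q3, q1, q2⟩).trans (by omega)
    | succ n ih =>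
      intro b h1 h2 ht
      rcases Nat.lt_or_ge n (A.filter fun v => bad v ∧ s < v ∧ v ≤ b).card with h | h
      swap
      · exact (ih b h1 h2 h).trans (by nlinarith)
      obtain ⟨c, hc, hm⟩ := exists_max_image (A.filter fun v => bad v ∧ s < v ∧ v ≤ b) id
        (card_pos.1 (by omega))
      have hc' := mem_filter.1 hc
      obtain ⟨y, y0, y1, y2⟩ : ∃ y, s ≤ y ∧ y < c ∧ ∀ v ∈ A, v < c → v ≤ y := by
        obtain ⟨y, hy, hm⟩ := exists_max_image (insert s (A.filter fun v => v < c)) id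
          (insert_nonempty _ _)
        refine ⟨y, hm _ (mem_insert_self _ _), ?_,
          fun v hv h => hm _ (mem_insert_of_mem (mem_filter.2 ⟨hv, h⟩))⟩
        rcases mem_insert.1 hy with rfl | hy
        · exact hc'.2.2.1
        · exact (mem_filter.1 hy).2
      have c1 := ih y y0 (by linarith [hc'.2.2.2])
        (Nat.lt_succ_iff.1 (lt_of_lt_of_le (card_lt_card ⟨fun v hv => ?_, fun hh => ?_⟩) ht))
      · have c2 := hw c b hc'.2.2.1.le hc'.2.2.2 h2 fun v hv h3 h4 h5 =>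
          absurd (hm v (mem_filter.2 ⟨hv, h5, hc'.2.2.1.trans h3, h4⟩)) (not_le.2 h3)
        have c3 : (A.filter fun v => P v ∧ s < v ∧ v ≤ b) ⊆
            insert c ((A.filter fun v => P v ∧ s < v ∧ v ≤ y) ∪
            A.filter fun v => P v ∧ c < v ∧ v ≤ b) := by
          intro v hv
          rw [mem_filter] at hv
          rw [mem_insert, mem_union, mem_filter, mem_filter]
          rcases lt_trichotomy v c with h | h | h
          · exact Or.inr (Or.inl ⟨hv.1, hv.2.1, hv.2.2.1, y2 v hv.1 h⟩)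
          · exact Or.inl h
          · exact Or.inr (Or.inr ⟨hv.1, hv.2.1, h, hv.2.2.2⟩)
        have c4 := (card_le_card c3).trans ((card_insert_le _ _).trans
          (Nat.add_le_add_right (card_union_le _ _) 1))
        nlinarith
      · rw [mem_filter] at hv ⊢
        exact ⟨hv.1, hv.2.1, hv.2.2.1, by linarith [hv.2.2.2, hc'.2.2.2]⟩
      · exact absurd (mem_filter.1 (hh hc)).2.2.2 (not_le.2 y1)
  refine key _ t hst le_rfl (card_le_card fun v hv => ?_)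
  rw [mem_filter] at hv ⊢
  exact ⟨hv.1, hv.2.1⟩

lemma pieces (A : Finset ℝ) (P : ℝ → Prop) [DecidablePred P] (s δ : ℝ) (M : ℕ) (h0 : 0 ≤ δ) (n : ℕ) :
    ∀ t, s ≤ t → t - s ≤ n * δ → (∀ a b, s ≤ a → a ≤ b → b ≤ t → b - a ≤ δ →
      (A.filter fun v => P v ∧ a < v ∧ v ≤ b).card ≤ M) →
    (A.filter fun v => P v ∧ s < v ∧ v ≤ t).card ≤ n * M := by
  induction n with
  | zero =>
    intro t h1 h2 _
    rw [filter_false_of_mem fun v _ q => by simp at h2; linarith [q.2.1, q.2.2]]; simp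
  | succ n ih =>
    intro t h1 h2 hw
    push_cast at h2
    have q0 : max s (t - δ) ≤ t := max_le h1 (by linarith)
    have c1 := ih (max s (t - δ)) (le_max_left _ _)
      (by rw [sub_le_iff_le_add, max_le_iff]; constructor <;> nlinarith [Nat.cast_nonneg (α := ℝ) n])
      fun a b q1 q2 q3 q4 => hw a b q1 q2 (q3.trans q0) q4
    have c2 := hw (max s (t - δ)) t (le_max_left _ _) q0 le_rfl
      (by linarith [le_max_right s (t - δ)])
    refine le_trans (card_le_card fun v hv => ?_)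
      ((card_union_le _ _).trans ((add_le_add c1 c2).trans (by rw [Nat.succ_mul])))
    rw [mem_filter] at hv
    rw [mem_union, mem_filter, mem_filter]
    rcases le_or_gt v (max s (t - δ)) with h | h
    · exact Or.inl ⟨hv.1, hv.2.1, hv.2.2.1, h⟩
    · exact Or.inr ⟨hv.1, hv.2.1, h, hv.2.2.2⟩

lemma spline (a : ℝ) {h : ℝ} (h0 : 0 < h) : ∃ ψ : ℝ → ℝ, (∀ p, 0 ≤ ψ p) ∧
    (∀ p, p ≤ a ∨ a + 3 * h ≤ p → ψ p = 0) ∧ (∀ p, a + h ≤ p → p ≤ a + 2 * h → h ^ 2 ≤ ψ p) ∧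
    (∀ p0, ∃ l, ∀ p, |ψ p - ψ p0 - l * (p - p0)| ≤ 4 * (p - p0) ^ 2) ∧
    ∀ p q, |p - q| ≤ h → ψ p - ψ q ≤ 28 * h * |p - q| := by
  obtain ⟨ψ, p1, p2, p3, p4⟩ := MP_b48dd4_gt.spline a h0
  refine ⟨ψ, p1, p2, p3, p4, fun p q hpq => ?_⟩
  obtain ⟨l, hl⟩ := p4 q
  have l1 : |l| ≤ 24 * h := by
    rcases le_or_gt q (a - 3 * h) with w | w
    · have := abs_le.1 (hl (q + 3 * h))
      have := abs_le.1 (hl (q - 3 * h))
      have z1 := p2 q (Or.inl (by linarith))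
      have z2 := p2 (q + 3 * h) (Or.inl (by linarith))
      have z3 := p2 (q - 3 * h) (Or.inl (by linarith))
      rw [abs_le]; constructor <;> nlinarith
    rcases le_or_gt (a + 6 * h) q with w' | w'
    · have := abs_le.1 (hl (q + 3 * h))
      have := abs_le.1 (hl (q - 3 * h))
      have z1 := p2 q (Or.inr (by linarith))
      have z2 := p2 (q + 3 * h) (Or.inr (by linarith))
      have z3 := p2 (q - 3 * h) (Or.inr (by linarith))
      rw [abs_le]; constructor <;> nlinarith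
    rcases le_or_gt q a with u | u
    · have := abs_le.1 (hl (q + 6 * h))
      have := abs_le.1 (hl (q - 6 * h))
      have z1 := p2 q (Or.inl u)
      have z2 := p2 (q + 6 * h) (Or.inr (by linarith))
      have z3 := p2 (q - 6 * h) (Or.inl (by linarith))
      rw [abs_le]; constructor <;> nlinarith
    rcases le_or_gt (a + 3 * h) q with u' | u'
    · have := abs_le.1 (hl (q + 6 * h))
      have := abs_le.1 (hl (q - 6 * h))
      have z1 := p2 q (Or.inr u')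
      have z2 := p2 (q + 6 * h) (Or.inr (by linarith))
      have z3 := p2 (q - 6 * h) (Or.inl (by linarith))
      rw [abs_le]; constructor <;> nlinarith
    · have := abs_le.1 (hl (q + 3 * h))
      have := abs_le.1 (hl (q - 3 * h))
      have z2 := p2 (q + 3 * h) (Or.inr (by linarith))
      have z3 := p2 (q - 3 * h) (Or.inl (by linarith))
      rw [abs_le]; constructor <;> nlinarith
  have e1 := (abs_le.1 (hl p)).2
  have e2 := le_abs_self (l * (p - q))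
  rw [abs_mul] at e2
  rw [← sq_abs] at e1
  nlinarith [abs_nonneg (p - q)]

lemma gap {E : Finset ι} {σ τ : ι → ℝ} {A : Finset ℝ} {s t : ℝ} (h : Br E σ τ A s t)
    (P : ι → ℝ → ℝ) {s' t' a η Λ : ℝ} (M : ℕ) (R : ℝ → ℝ) (h1 : s ≤ s') (h3 : t' ≤ t)
    (η0 : 0 < η) (Λ0 : 0 ≤ Λ) (hM : ∀ r, s' ≤ r → r ≤ t' → (cut E σ τ r).card ≤ M)
    (dr : ∀ e ∈ E, ∀ x y, s' ≤ x → σ e ≤ x → x ≤ y → y ≤ τ e → y ≤ t' →
      |P e y - P e x| ≤ Λ * (y - x))
    (th : ∀ v ∈ A, s' < v → v ≤ t' → ∀ e, At E σ τ v e → a < P e v →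
      (ends E τ v).card = (ends E σ v).card ∧ ∑ f ∈ ends E σ v, P f v = ∑ f ∈ ends E τ v, P f v ∧
      4 * R v ≤ η ∧ ∀ f, At E σ τ v f → |P f v - P e v| ≤ R v)
    (k1 : 4 * (Λ * (t' - s')) ≤ η)
    (k2 : ∑ v ∈ A.filter (fun v => s' < v ∧ v ≤ t'), 8 * M * R v ^ 2 +
      28 * M * η * Λ * (t' - s') < η ^ 2)
    (hc : ∀ e ∈ cut E σ τ s', P e s' ≤ a ∨ a + 3 * η ≤ P e s') :
    ∃ Z : ι → Prop, (∀ v ∈ A, s' < v → v ≤ t' → ∀ e f, At E σ τ v e → At E σ τ v f → Z e → Z f) ∧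
      (∀ e ∈ cut E σ τ s', Z e ↔ a + 2 * η < P e s') ∧
      ∀ v ∈ A, s' < v → v ≤ t' → ∀ e, At E σ τ v e →
        (a + 3 * η ≤ P e v → Z e) ∧ (Z e → a < P e v) := by
  obtain ⟨ψ, p1, p2, p3, p4, p5⟩ := spline a η0
  have key := hyb A (fun r => ∑ e ∈ cut E σ τ r, ψ (P e r)) (fun v => 8 * M * R v ^ 2)
    (28 * M * η * Λ) s' t' (by
    intro x y q1 q2 q3 q4
    rw [h.step (h1.trans q1) q2 (q3.trans h3) q4]
    have c1 : ∑ e ∈ cut E σ τ x, (ψ (P e y) - ψ (P e x)) ≤ 28 * M * η * Λ * (y - x) := by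
      refine (sum_le_card_nsmul _ _ (28 * η * (Λ * (y - x))) fun e he => ?_).trans ?_
      · obtain ⟨w1, w2, w3⟩ := h.alive (h1.trans q1) (q3.trans h3) q4 he
        have w4 := dr e w1 x y q1 w2 q2.le w3 q3
        have w5 : Λ * (y - x) ≤ Λ * (t' - s') := mul_le_mul_of_nonneg_left (by linarith) Λ0
        exact (p5 _ _ (by nlinarith)).trans (mul_le_mul_of_nonneg_left w4 (by positivity))
      · have : ((cut E σ τ x).card : ℝ) ≤ M := by exact_mod_cast hM x q1 (q2.le.trans q3)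
        have w : 0 ≤ 28 * η * (Λ * (y - x)) := by have := sub_pos.2 q2; positivity
        rw [nsmul_eq_mul]
        nlinarith
    rw [sum_sub_distrib] at c1
    suffices ∑ e ∈ ends E σ y, ψ (P e y) - ∑ e ∈ ends E τ y, ψ (P e y) ≤
      if y ∈ A then 8 * M * R y ^ 2 else 0 by linarith
    split_ifs with hy
    swap
    · obtain ⟨w1, w2⟩ := h.notA ((h1.trans q1).trans_lt q2) (q3.trans h3) hy
      simp [w1, w2]
    by_cases hx : ∃ e, At E σ τ y e ∧ a < P e y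
    · obtain ⟨e0, x1, x2⟩ := hx
      obtain ⟨c1, b, -, c2⟩ := th y hy (q1.trans_lt q2) q3 e0 x1 x2
      obtain ⟨l, hl⟩ := p4 (P e0 y)
      have bd : ∀ f, At E σ τ y f → |ψ (P f y) - ψ (P e0 y) - l * (P f y - P e0 y)| ≤
          4 * R y ^ 2 := fun f hf => (hl _).trans (by
        have := sq_le_sq' (abs_le.1 (c2 f hf)).1 (abs_le.1 (c2 f hf)).2; linarith)
      have s1 := sum_le_card_nsmul (ends E σ y) _ _ fun f hf => (abs_le.1 (bd f (At.o hf))).2
      have s2 := card_nsmul_le_sum (ends E τ y) _ _ fun f hf => (abs_le.1 (bd f (At.i hf))).1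
      simp only [sum_sub_distrib, ← mul_sum, sum_const, nsmul_eq_mul] at s1 s2
      rw [c1] at s2
      rw [b] at s1
      have d2 : ((ends E σ y).card : ℝ) ≤ M := by
        exact_mod_cast (card_le_card (h.out_sub y)).trans (hM y (q1.trans q2.le) q3)
      nlinarith [sq_nonneg (R y)]
    · have z : ∀ f, At E σ τ y f → ψ (P f y) = 0 := fun f hf => p2 _ (Or.inl (by
        by_contra hn
        exact hx ⟨f, hf, not_le.1 hn⟩))
      rw [sum_eq_zero fun f hf => z f (At.o hf), sum_eq_zero fun f hf => z f (At.i hf), sub_zero]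
      positivity)
  have G : ∀ r, s' ≤ r → r ≤ t' → ∀ e ∈ cut E σ τ r, P e r < a + η ∨ a + 2 * η < P e r := by
    intro r q1 q2 e he
    by_contra hn
    push Not at hn
    have e1 := (p3 _ hn.1 hn.2).trans
      (single_le_sum (f := fun e => ψ (P e r)) (fun _ _ => p1 _) he)
    have e2 := key s' r le_rfl q1 q2
    rw [sum_eq_zero (s := cut E σ τ s') fun e he => p2 _ (hc e he)] at e2
    have e3 : ∑ v ∈ A.filter (fun v => s' < v ∧ v ≤ r), 8 * M * R v ^ 2 ≤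
        ∑ v ∈ A.filter (fun v => s' < v ∧ v ≤ t'), 8 * M * R v ^ 2 :=
      sum_le_sum_of_subset_of_nonneg (fun v hv => mem_filter.2 ⟨(mem_filter.1 hv).1,
        (mem_filter.1 hv).2.1, (mem_filter.1 hv).2.2.trans q2⟩) fun _ _ _ => by positivity
    have e4 : 28 * M * η * Λ * (r - s') ≤ 28 * M * η * Λ * (t' - s') :=
      mul_le_mul_of_nonneg_left (by linarith) (by positivity)
    linarith
  have cl : ∀ v, s' < v → v ≤ t' → ∀ e, At E σ τ v e → 4 * |P e v - P e (max (σ e) s')| ≤ η ∧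
      (P e (max (σ e) s') < a + η ∨ a + 2 * η < P e (max (σ e) s')) := by
    intro v q1 q2 e he
    obtain ⟨w1, w2⟩ := h.life he
    have w3 : max (σ e) s' ≤ v := max_le w1 q1.le
    have w4 := dr e he.1 _ v (le_max_right _ _) (le_max_left _ _) w3 w2 q2
    have w5 : Λ * (v - max (σ e) s') ≤ Λ * (t' - s') :=
      mul_le_mul_of_nonneg_left (by linarith [le_max_right (σ e) s']) Λ0
    exact ⟨by linarith, G _ (le_max_right _ _) (w3.trans q2) e
      (mem_cut.2 ⟨he.1, le_max_left _ _, max_lt (h.lt e he.1) (q1.trans_le w2)⟩)⟩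
  refine ⟨fun e => a + 2 * η < P e (max (σ e) s'), fun v hv q1 q2 e f he hf z => ?_,
    fun e he => by beta_reduce; rw [max_eq_right (mem_cut.1 he).2.1], fun v hv q1 q2 e he => ?_⟩
  · obtain ⟨w1, -⟩ := cl v q1 q2 e he
    obtain ⟨w2, w3⟩ := cl v q1 q2 f hf
    have w4 := le_abs_self (P f v - P f (max (σ f) s'))
    have w5 := neg_abs_le (P e v - P e (max (σ e) s'))
    obtain ⟨-, -, w6, w7⟩ := th v hv q1 q2 e he (by linarith)
    have w8 := (abs_le.1 (w7 f hf)).1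
    exact w3.resolve_left (by linarith)
  · obtain ⟨w1, -⟩ := cl v q1 q2 e he
    have w4 := le_abs_self (P e v - P e (max (σ e) s'))
    have w5 := neg_abs_le (P e v - P e (max (σ e) s'))
    exact ⟨fun z => by beta_reduce; linarith, fun z => by linarith⟩

lemma Br.sub {E : Finset ι} {σ τ : ι → ℝ} {A : Finset ℝ} {s t : ℝ} (h : Br E σ τ A s t)
    {s' t' : ℝ} (h1 : s ≤ s') (h2 : s' ≤ t') (h3 : t' ≤ t) (Z : ι → Prop)
    (hZ : ∀ v ∈ A, s' < v → v ≤ t' → ∀ e f, At E σ τ v e → At E σ τ v f → Z e → Z f) :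
    ∃ (E' : Finset ι) (A' : Finset ℝ), Br E' σ τ A' s' t' ∧ E' ⊆ E ∧
      (∀ v, v ∈ A' ↔ v ∈ A ∧ s' < v ∧ v ≤ t' ∧ ∃ e, At E σ τ v e ∧ Z e) ∧
      (∀ v ∈ A', ends E' σ v = ends E σ v ∧ ends E' τ v = ends E τ v) ∧
      ∀ e ∈ cut E' σ τ s', e ∈ cut E σ τ s' ∧ Z e := by
  refine ⟨E.filter fun e => σ e ≤ t' ∧ s' < τ e ∧ Z e,
    A.filter fun v => s' < v ∧ v ≤ t' ∧ ∃ e, At E σ τ v e ∧ Z e, ⟨fun v hv => ?_, fun e he => ?_,
    fun e he => ?_, fun e he => ?_⟩, filter_subset _ _, fun v => mem_filter, fun v hv => ?_,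
    fun e he => ?_⟩
  · exact ⟨(mem_filter.1 hv).2.1, (mem_filter.1 hv).2.2.1⟩
  · exact h.lt e (mem_filter.1 he).1
  · obtain ⟨q1, q2, -, q4⟩ := mem_filter.1 he
    rcases le_or_gt (σ e) s' with w | w
    · exact Or.inr w
    · exact Or.inl (mem_filter.2 ⟨(h.lo e q1).resolve_right (by linarith), w, q2, e,
        ⟨q1, Or.inl rfl⟩, q4⟩)
  · obtain ⟨q1, -, q3, q4⟩ := mem_filter.1 he
    rcases le_or_gt (τ e) t' with w | w
    · exact Or.inl (mem_filter.2 ⟨(h.hi e q1).resolve_right (by linarith), q3, w, e,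
        ⟨q1, Or.inr rfl⟩, q4⟩)
    · exact Or.inr w
  · obtain ⟨q1, q2, q3, e, q4, q5⟩ := mem_filter.1 hv
    have key : ∀ f, At E σ τ v f → σ f ≤ t' ∧ s' < τ f ∧ Z f := fun f hf =>
      ⟨(h.life hf).1.trans q3, q2.trans_le (h.life hf).2, hZ v q1 q2 q3 e f q4 hf q5⟩
    constructor <;> ext f <;> simp only [mem_ends, mem_filter]
    · exact ⟨fun z => ⟨z.1.1, z.2⟩, fun z => ⟨⟨z.1, key f ⟨z.1, Or.inl z.2⟩⟩, z.2⟩⟩
    · exact ⟨fun z => ⟨z.1.1, z.2⟩, fun z => ⟨⟨z.1, key f ⟨z.1, Or.inr z.2⟩⟩, z.2⟩⟩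
  · obtain ⟨q1, q2⟩ := mem_cut.1 he
    exact ⟨mem_cut.2 ⟨(mem_filter.1 q1).1, q2⟩, (mem_filter.1 q1).2.2.2⟩

end Pool.Agent.H.MP_c30897_gt
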