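import Pool.Agent.H.MP_c30897_gt.A

set_option autoImplicit false

/-! The area functional of a braid. -/

namespace Pool.Agent.H.MP_c30897_gt

open Finset Classical Filter Topology
open Pool.Agent.H.MP_b48dd4_gt (sgn sgn_neg sgn_abs)

variable {ι : Type}

lemma mvt {V : Type} [NormedAddCommGroup V] [NormedSpace ℝ V] {f f' : ℝ → V} {x y C : ℝ}
    (hxy : x ≤ y) (h : ∀ r, x ≤ r → r ≤ y → HasDerivAt f (f' r) r)
    (hb : ∀ r, x ≤ r → r < y → ‖f' r‖ ≤ C) : ‖f y - f x‖ ≤ C * (y - x) :=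
  norm_image_sub_le_of_norm_deriv_right_le_segment
    (fun r hr => (h r hr.1 hr.2).continuousAt.continuousWithinAt)
    (fun r hr => (h r hr.1 hr.2.le).hasDerivWithinAt) (fun r hr => hb r hr.1 hr.2) y ⟨hxy, le_rfl⟩

lemma mvt0 {f f' : ℝ → ℝ} {x y : ℝ} (hxy : x < y)
    (h : ∀ r, x ≤ r → r ≤ y → HasDerivAt f (f' r) r) :
    ∃ r, x < r ∧ r < y ∧ f y - f x = f' r * (y - x) := by
  obtain ⟨r, hr, e⟩ := exists_hasDerivAt_eq_slope f f' hxy
    (fun r hr => (h r hr.1 hr.2).continuousAt.continuousWithinAt) fun r hr => h r hr.1.le hr.2.le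
  exact ⟨r, hr.1, hr.2, by rw [e, div_mul_cancel₀ _ (sub_pos.2 hxy).ne']⟩

def Pr (g w c κ : ℝ → ℝ) (lam x y : ℝ) : Prop :=
  (∀ r, x ≤ r → r ≤ y → HasDerivAt g (c r * w r) r ∧ 0 < c r ∧ HasDerivAt w (κ r) r) ∧
    ∀ r, x < r → r < y → |κ r| ≤ lam

lemma at_lim (z : ℝ) :
    Tendsto (fun n : ℕ => Real.arctan (n * z)) atTop (𝓝 (Real.pi / 2 * sgn z)) := by
  have key : ∀ z : ℝ, 0 < z →
      Tendsto (fun n : ℕ => Real.arctan (n * z)) atTop (𝓝 (Real.pi / 2)) := fun z hz =>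
    (tendsto_nhds_of_tendsto_nhdsWithin Real.tendsto_arctan_atTop).comp
      (tendsto_natCast_atTop_atTop.atTop_mul_const hz)
  unfold sgn
  rcases lt_trichotomy z 0 with h | h | h
  · rw [if_neg (not_lt.2 h.le), if_pos h]
    simpa [Real.arctan_neg] using (key (-z) (neg_pos.2 h)).neg
  · simp [h]
  · rw [if_pos h, mul_one]; exact key z h

section
variable {g w c κ : ℝ → ℝ} {lam x y : ℝ}

lemma Pr.mono (h : Pr g w c κ lam x y) {p q : ℝ} (h1 : x ≤ p) (h2 : p ≤ q) (h3 : q ≤ y) :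
    sgn (g p) * w p - lam * (q - p) ≤ sgn (g q) * w q := by
  rcases h2.eq_or_lt with rfl | h2
  · simp
  have key : ∀ n : ℕ, Real.arctan (n * g p) * w p - Real.pi / 2 * (lam * (q - p)) ≤
      Real.arctan (n * g q) * w q := fun n => by
    obtain ⟨r, r1, r2, e⟩ := mvt0 (f := fun r => Real.arctan (n * g r) * w r) h2 fun r r1 r2 =>
      ((h.1 r (h1.trans r1) (r2.trans h3)).1.const_mul (n : ℝ)).arctan.mul
        (h.1 r (h1.trans r1) (r2.trans h3)).2.2
    have c0 := (h.1 r (h1.trans r1.le) (r2.le.trans h3)).2.1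
    have k0 := h.2 r (h1.trans_lt r1) (r2.trans_le h3)
    have e1 : 0 ≤ 1 / (1 + (n * g r) ^ 2) * (n * (c r * w r)) * w r := by
      rw [show 1 / (1 + (n * g r) ^ 2) * (n * (c r * w r)) * w r =
        1 / (1 + (n * g r) ^ 2) * (n * c r) * w r ^ 2 by ring]
      positivity
    have e2 : |Real.arctan (n * g r) * κ r| ≤ Real.pi / 2 * lam := by
      rw [abs_mul]
      exact mul_le_mul (abs_le.2 ⟨(Real.neg_pi_div_two_lt_arctan _).le,
        (Real.arctan_lt_pi_div_two _).le⟩) k0 (abs_nonneg _) (by positivity)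
    have e3 := (abs_le.1 e2).1
    beta_reduce at e
    nlinarith [sub_pos.2 h2]
  have := le_of_tendsto_of_tendsto' (((at_lim (g p)).mul_const (w p)).sub_const _)
    ((at_lim (g q)).mul_const (w q)) key
  nlinarith [Real.pi_pos]

lemma Pr.gain0 (h : Pr g w c κ lam x y) (l0 : 0 ≤ lam) (h0 : g x = 0) (hw : 0 < w x) {q : ℝ}
    (h2 : x < q) (h3 : q ≤ y) : w x - lam * (q - x) ≤ sgn (g q) * w q := by
  have lip : ∀ r, x < r → r ≤ y → w x - lam * (r - x) ≤ w r := fun r r1 r2 => by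
    obtain ⟨z, z1, z2, e⟩ := mvt0 r1 fun z z1 z2 => (h.1 z z1 (z2.trans r2)).2.2
    have := (abs_le.1 (h.2 z z1 (z2.trans_le r2))).1
    nlinarith
  obtain ⟨p, p1, p2, p3⟩ : ∃ p, x < p ∧ p ≤ q ∧ lam * (p - x) < w x := by
    refine ⟨min q (x + w x / (lam + 1)), lt_min h2 (lt_add_of_pos_right _ (by positivity)),
      min_le_left _ _, ?_⟩
    have e1 : w x / (lam + 1) * (lam + 1) = w x := div_mul_cancel₀ _ (by positivity)
    have e2 := min_le_right q (x + w x / (lam + 1))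
    have e3 : 0 < w x / (lam + 1) := by positivity
    nlinarith
  obtain ⟨z, z1, z2, e⟩ := mvt0 p1 fun z z1 z2 => (h.1 z z1 (z2.trans (p2.trans h3))).1
  have z3 := lip z z1 (by linarith)
  have z4 := (h.1 z z1.le (by linarith)).2.1
  have z5 : 0 < w z := by nlinarith
  have z6 : 0 < g p := by
    have := mul_pos (mul_pos z4 z5) (sub_pos.2 p1)
    linarith
  have m := h.mono p1.le p2 h3
  have := lip p p1 (p2.trans h3)
  rw [sgn, if_pos z6] at m
  linarith

lemma Pr.gainL (h : Pr g w c κ lam x y) (l0 : 0 ≤ lam) (h0 : g x = 0) {q : ℝ}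
    (h2 : x < q) (h3 : q ≤ y) : |w x| - lam * (q - x) ≤ sgn (g q) * w q := by
  rcases lt_trichotomy (w x) 0 with hw | hw | hw
  · have h' : Pr (fun r => -g r) (fun r => -w r) c (fun r => -κ r) lam x y :=
      ⟨fun r r1 r2 => ⟨(h.1 r r1 r2).1.neg.congr_deriv (by ring), (h.1 r r1 r2).2.1,
        (h.1 r r1 r2).2.2.neg⟩, fun r r1 r2 => by rw [abs_neg]; exact h.2 r r1 r2⟩
    have := h'.gain0 l0 (by simp [h0]) (neg_pos.2 hw) h2 h3
    rw [sgn_neg] at this
    rw [abs_of_neg hw]; linarith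
  · have := h.mono le_rfl h2.le h3
    rw [hw] at this ⊢
    simpa using this
  · rw [abs_of_pos hw]; exact h.gain0 l0 h0 hw h2 h3

lemma Pr.gainR (h : Pr g w c κ lam x y) (l0 : 0 ≤ lam) (h0 : g y = 0) {p : ℝ}
    (h2 : x ≤ p) (h3 : p < y) : sgn (g p) * w p ≤ -|w y| + lam * (y - p) := by
  have h' : Pr (fun r => g (-r)) (fun r => -w (-r)) (fun r => c (-r)) (fun r => κ (-r)) lam
      (-y) (-x) := ⟨fun r r1 r2 => by
    obtain ⟨q1, q2, q3⟩ := h.1 (-r) (by linarith) (by linarith)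
    exact ⟨(q1.comp r (hasDerivAt_neg r)).congr_deriv (by ring), q2,
      (q3.comp r (hasDerivAt_neg r)).neg.congr_deriv (by ring)⟩,
    fun r r1 r2 => h.2 (-r) (by linarith) (by linarith)⟩
  have := h'.gainL l0 (by simp [h0]) (q := -p) (by linarith) (by linarith)
  simp only [neg_neg, abs_neg] at this
  linarith

lemma Pr.pair (h : Pr g w c κ lam x y) (l0 : 0 ≤ lam) (hxy : x < y) (P Q : Prop) [Decidable P]
    [Decidable Q]    (hP : P → g x = 0) (hQ : Q → g y = 0) :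
    (if P then |w x| else 0) + (if Q then |w y| else 0) - lam * (y - x) ≤
      sgn (g y) * w y - sgn (g x) * w x := by
  have m1 : x < (x + y) / 2 := by linarith
  have m2 : (x + y) / 2 < y := by linarith
  have s0 : sgn 0 = 0 := by simp [sgn]
  have k1 : (if P then |w x| else 0) - lam * ((x + y) / 2 - x) ≤
      sgn (g ((x + y) / 2)) * w ((x + y) / 2) - sgn (g x) * w x := by
    split_ifs with q
    · have := h.gainL l0 (hP q) m1 m2.le
      rw [hP q, s0]; linarith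
    · linarith [h.mono le_rfl m1.le m2.le]
  have k2 : (if Q then |w y| else 0) - lam * (y - (x + y) / 2) ≤
      sgn (g y) * w y - sgn (g ((x + y) / 2)) * w ((x + y) / 2) := by
    split_ifs with q
    · have := h.gainR l0 (hQ q) m1.le m2
      rw [hQ q, s0]; linarith
    · linarith [h.mono m1.le m2.le le_rfl]
  linarith

end

noncomputable def GG (a b : ι → ℝ → ℝ) (I : Finset ι) (r : ℝ) : ℝ :=
  ∑ e ∈ I, ∑ f ∈ I, |b e r * a f r - a e r * b f r|

lemma GG_nonneg (a b : ι → ℝ → ℝ) (I : Finset ι) (r : ℝ) : 0 ≤ GG a b I r :=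
  sum_nonneg fun _ _ => sum_nonneg fun _ _ => abs_nonneg _

lemma dsum_le (C : Finset ι) (g : ι → ι → ℝ) {x : ℝ} {M : ℕ} (hx : 0 ≤ x)
    (hM : C.card ≤ M) (h : ∀ e ∈ C, ∀ f ∈ C, g e f ≤ x) : ∑ e ∈ C, ∑ f ∈ C, g e f ≤ M ^ 2 * x := by
  have c : (C.card : ℝ) ≤ M := by exact_mod_cast hM
  refine (sum_le_card_nsmul _ _ (M * x) fun e he => (sum_le_card_nsmul _ _ x (h e he)).trans ?_).trans ?_
  · rw [nsmul_eq_mul]; exact mul_le_mul_of_nonneg_right c hx
  · rw [nsmul_eq_mul, sq, mul_assoc]; exact mul_le_mul_of_nonneg_right c (by positivity)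

lemma dsum_sub {I C : Finset ι} (hI : I ⊆ C) (P : Prop) [Decidable P] (g : ι → ι → ℝ) :
    (if P then ∑ e ∈ I, ∑ f ∈ I, g e f else 0) =
      ∑ e ∈ C, ∑ f ∈ C, if P ∧ e ∈ I ∧ f ∈ I then g e f else 0 := by
  by_cases q : P
  · simp only [q, true_and, if_true, ite_and, sum_ite_irrel, sum_const_zero, sum_ite_mem,
      inter_eq_right.2 hI]
  · simp [q]

theorem area {E : Finset ι} {σ τ : ι → ℝ} {A : Finset ℝ} {s t : ℝ} (h : Br E σ τ A s t)
    (hst : s ≤ t) (y a b a' b' : ι → ℝ → ℝ) {lam : ℝ} (M : ℕ) (l0 : 0 ≤ lam)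
    (pos : ∀ v ∈ A, ∀ e f, At E σ τ v e → At E σ τ v f → y e v = y f v)
    (bal : ∀ v ∈ A, ∑ e ∈ ends E σ v, a e v = ∑ e ∈ ends E τ v, a e v ∧
      ∑ e ∈ ends E σ v, b e v = ∑ e ∈ ends E τ v, b e v)
    (der : ∀ e ∈ E, ∀ r, σ e ≤ r → r ≤ τ e → 0 < a e r ∧ HasDerivAt (y e) (b e r / a e r) r ∧
      HasDerivAt (a e) (a' e r) r ∧ HasDerivAt (b e) (b' e r) r)
    (lip : ∀ r, s ≤ r → r ≤ t → ∀ e ∈ cut E σ τ r, ∀ f ∈ cut E σ τ r,
      |b' e r * a f r + b e r * a' f r - (a' e r * b f r + a e r * b' f r)| ≤ lam)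
    (hM : ∀ r, s ≤ r → r ≤ t → (cut E σ τ r).card ≤ M) :
    ∑ v ∈ A, (GG a b (ends E σ v) v + GG a b (ends E τ v) v) ≤
      M ^ 2 * lam * (t - s) + GG a b (cut E σ τ s) s + 2 * GG a b (cut E σ τ t) t := by
  obtain ⟨H, hH⟩ : ∃ H : ι → ι → ℝ → ℝ, ∀ e f r,
    H e f r = sgn (y e r - y f r) * (b e r * a f r - a e r * b f r) := ⟨_, fun _ _ _ => rfl⟩
  have key := hyb A (fun r => -(∑ e ∈ cut E σ τ r, ∑ f ∈ cut E σ τ r, H e f r +
      if r ∈ A then GG a b (ends E σ r) r else 0))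
      (fun v => -(GG a b (ends E σ v) v + GG a b (ends E τ v) v)) (M ^ 2 * lam) s t (by
    intro p q q1 q2 q3 q4
    rw [h.step2 q1 q2 q3 q4 (fun e f => H e f q)
      (fun e f => by rw [hH, hH, ← neg_sub (y e q), sgn_neg]; ring) (fun hq f => by
        by_cases z : ∃ e0, At E σ τ q e0
        · obtain ⟨e0, z⟩ := z
          have k : ∀ I : Finset ι, (∀ e ∈ I, At E σ τ q e) → ∑ e ∈ I, H e f q =
              sgn (y e0 q - y f q) * ((∑ e ∈ I, b e q) * a f q - (∑ e ∈ I, a e q) * b f q) := by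
            intro I hI
            rw [sum_mul, sum_mul, ← sum_sub_distrib, mul_sum]
            exact sum_congr rfl fun e he => by rw [hH, pos q hq e e0 (hI e he) z]
          rw [k _ fun e => At.o, k _ fun e => At.i, (bal q hq).1, (bal q hq).2]
        · rw [sum_eq_zero fun e he => absurd ⟨e, At.o he⟩ z,
            sum_eq_zero fun e he => absurd ⟨e, At.i he⟩ z])]
    have i1 : ends E τ q ⊆ cut E σ τ p := fun e he => by
      obtain ⟨w1, w2⟩ := mem_ends.1 he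
      have := h.lt e w1
      exact mem_cut.2 ⟨w1, (h.dich q1 q3 q4 w1).1.resolve_right (by linarith), by linarith⟩
    have c1 : (if p ∈ A then GG a b (ends E σ p) p else 0) +
        (if q ∈ A then GG a b (ends E τ q) q else 0) + ∑ e ∈ cut E σ τ p, ∑ f ∈ cut E σ τ p, H e f p -
        ∑ e ∈ cut E σ τ p, ∑ f ∈ cut E σ τ p, H e f q ≤ M ^ 2 * (lam * (q - p)) := by
      unfold GG
      rw [dsum_sub (h.out_sub p), dsum_sub i1]
      simp only [← sum_add_distrib, ← sum_sub_distrib]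
      refine dsum_le _ _ (mul_nonneg l0 (sub_pos.2 q2).le) (hM p q1 (q2.le.trans q3))
        fun e he f hf => ?_
      obtain ⟨e1, e2, e3⟩ := h.alive q1 q3 q4 he
      obtain ⟨f1, f2, f3⟩ := h.alive q1 q3 q4 hf
      have pr : Pr (fun r => y e r - y f r) (fun r => b e r * a f r - a e r * b f r)
          (fun r => 1 / (a e r * a f r))
          (fun r => b' e r * a f r + b e r * a' f r - (a' e r * b f r + a e r * b' f r)) lam p q :=
        ⟨fun r r1 r2 => by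
          obtain ⟨u1, u2, u3, u4⟩ := der e e1 r (e2.trans r1) (r2.trans e3)
          obtain ⟨v1, v2, v3, v4⟩ := der f f1 r (f2.trans r1) (r2.trans f3)
          exact ⟨(u2.sub v2).congr_deriv (by field_simp), by positivity,
            (u4.mul v3).sub (u3.mul v4)⟩,
        fun r r1 r2 => lip r (q1.trans r1.le) (r2.le.trans q3) e
          (mem_cut.2 ⟨e1, e2.trans r1.le, r2.trans_le e3⟩) f
          (mem_cut.2 ⟨f1, f2.trans r1.le, r2.trans_le f3⟩)⟩
      have := pr.pair l0 q2 (p ∈ A ∧ e ∈ ends E σ p ∧ f ∈ ends E σ p)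
        (q ∈ A ∧ e ∈ ends E τ q ∧ f ∈ ends E τ q)
        (fun z => sub_eq_zero.2 (pos p z.1 e f (At.o z.2.1) (At.o z.2.2)))
        (fun z => sub_eq_zero.2 (pos q z.1 e f (At.i z.2.1) (At.i z.2.2)))
      rw [hH, hH]
      linarith
    split_ifs at c1 ⊢ <;> linarith) s t le_rfl hst le_rfl
  rw [filter_true_of_mem h.win, if_neg fun z => lt_irrefl _ (h.win s z).1, sum_neg_distrib] at key
  have b1 : ∀ r, |∑ e ∈ cut E σ τ r, ∑ f ∈ cut E σ τ r, H e f r| ≤ GG a b (cut E σ τ r) r :=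
    fun r => (abs_sum_le_sum_abs _ _).trans (sum_le_sum fun e _ => (abs_sum_le_sum_abs _ _).trans
      (sum_le_sum fun f _ => by
        rw [hH, abs_mul]; exact mul_le_of_le_one_left (abs_nonneg _) (sgn_abs _)))
  have b2 : GG a b (ends E σ t) t ≤ GG a b (cut E σ τ t) t :=
    (sum_le_sum fun e _ => sum_le_sum_of_subset_of_nonneg (h.out_sub t)
      fun _ _ _ => abs_nonneg _).trans (sum_le_sum_of_subset_of_nonneg (h.out_sub t)
      fun _ _ _ => sum_nonneg fun _ _ => abs_nonneg _)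
  have b3 := GG_nonneg a b (cut E σ τ t) t
  have b4 := abs_le.1 (b1 s)
  have b5 := abs_le.1 (b1 t)
  split_ifs at key <;> linarith

theorem area_imb (E : Finset ι) (σ τ : ι → ℝ) (A : Finset ℝ) (Y : ℝ → ℝ) (a b : ι → ℝ) (n : ℝ → ℝ)
    (hE : ∀ e ∈ E, σ e ∈ A ∧ τ e ∈ A ∧ σ e < τ e ∧ 0 < a e ∧
      b e * (τ e - σ e) = a e * (Y (τ e) - Y (σ e)))
    (hn : ∀ v ∈ A, |∑ e ∈ ends E σ v, a e - ∑ e ∈ ends E τ v, a e| < n v ∧
      |∑ e ∈ ends E σ v, b e - ∑ e ∈ ends E τ v, b e| ≤ n v) :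
    ∑ v ∈ A, (GG (fun e _ => a e) (fun e _ => b e) (ends E σ v) v +
      GG (fun e _ => a e) (fun e _ => b e) (ends E τ v) v) ≤ 8 * (∑ v ∈ A, n v) ^ 2 := by
  obtain ⟨T, T0, hT⟩ : ∃ T : ℝ, 0 < T ∧ ∀ v ∈ A, -T < v ∧ v < T := by
    refine ⟨∑ v ∈ A, |v| + 1, by positivity, fun v hv => ?_⟩
    have := single_le_sum (f := fun v : ℝ => |v|) (fun _ _ => abs_nonneg _) hv
    have := le_abs_self v
    have := neg_abs_le v
    constructor <;> linarith
  obtain ⟨α, hα⟩ : ∃ α : ℝ → ℝ, ∀ v, α v = ∑ e ∈ ends E σ v, a e - ∑ e ∈ ends E τ v, a e :=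
    ⟨_, fun _ => rfl⟩
  obtain ⟨β, hβ⟩ : ∃ β : ℝ → ℝ, ∀ v, β v = ∑ e ∈ ends E σ v, b e - ∑ e ∈ ends E τ v, b e :=
    ⟨_, fun _ => rfl⟩
  simp only [← hα, ← hβ] at hn
  let E' : Finset (ι ⊕ ℝ ⊕ ℝ) := E.disjSum (A.disjSum A)
  let σ' : ι ⊕ ℝ ⊕ ℝ → ℝ := Sum.elim σ (Sum.elim (fun _ => -T) id)
  let τ' : ι ⊕ ℝ ⊕ ℝ → ℝ := Sum.elim τ (Sum.elim id fun _ => T + 1)
  let p' : ι ⊕ ℝ ⊕ ℝ → ℝ := Sum.elim σ (Sum.elim id id)
  let a' : ι ⊕ ℝ ⊕ ℝ → ℝ := Sum.elim a (Sum.elim n fun v => n v - α v)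
  let b' : ι ⊕ ℝ ⊕ ℝ → ℝ := Sum.elim b (Sum.elim (fun _ => 0) fun v => -β v)
  let n' : ι ⊕ ℝ ⊕ ℝ → ℝ := Sum.elim (fun _ => 0) (Sum.elim (fun _ => 0) n)
  have n0 : ∀ v ∈ A, 0 < n v := fun v hv => (abs_nonneg _).trans_lt (hn v hv).1
  have so : ∀ v ∈ A, ∀ g : ι ⊕ ℝ ⊕ ℝ → ℝ, ∑ e ∈ ends E' σ' v, g e =
      ∑ e ∈ ends E σ v, g (.inl e) + g (.inr (.inr v)) := fun v hv g => by
    have := (hT v hv).1.ne
    simp [ends, sum_filter, E', σ', sum_disjSum, this]
    rw [sum_eq_single v (fun x _ q => by simp [q]) fun q => absurd hv q]; simp; congr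
  have si : ∀ v ∈ A, ∀ g : ι ⊕ ℝ ⊕ ℝ → ℝ, ∑ e ∈ ends E' τ' v, g e =
      ∑ e ∈ ends E τ v, g (.inl e) + g (.inr (.inl v)) := fun v hv g => by
    have : T + 1 ≠ v := by linarith [(hT v hv).2]
    simp [ends, sum_filter, E', τ', sum_disjSum, this]
    rw [sum_eq_single v (fun x _ q => by simp [q]) fun q => absurd hv q]; simp; congr
  have ap : ∀ e ∈ E', 0 < a' e := by
    rintro (e | v | v) he <;> simp only [E', inl_mem_disjSum, inr_mem_disjSum] at he
    · exact (hE e he).2.2.2.1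
    · exact n0 v he
    · exact sub_pos.2 ((le_abs_self _).trans_lt (hn v he).1)
  have br : Br E' σ' τ' A (-T) T := by
    refine ⟨fun v hv => ⟨(hT v hv).1, (hT v hv).2.le⟩, ?_, ?_, ?_⟩ <;>
      rintro (e | v | v) he <;> simp only [E', inl_mem_disjSum, inr_mem_disjSum] at he
    · exact (hE e he).2.2.1
    · exact (hT v he).1
    · exact (hT v he).2.trans (lt_add_one T)
    · exact Or.inl (hE e he).1
    · exact Or.inr le_rfl
    · exact Or.inl he
    · exact Or.inl (hE e he).2.1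
    · exact Or.inl he
    · exact Or.inr (lt_add_one T)
  have ps : ∀ v ∈ A, ∀ e, At E' σ' τ' v e → Y (p' e) + b' e / a' e * (v - p' e) = Y v := by
    rintro v hv (e | w | w) ⟨he, z⟩ <;> simp only [E', inl_mem_disjSum, inr_mem_disjSum] at he
    · rcases z with rfl | rfl
      · simp [p', σ']
      · obtain ⟨-, -, -, q1, q2⟩ := hE e he
        simp only [p', τ', a', b', Sum.elim_inl]
        rw [div_mul_eq_mul_div, q2, mul_div_cancel_left₀ _ q1.ne']; ring
    · rcases z with z | rfl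
      · exact absurd z (hT v hv).1.ne
      · simp [p', τ']
    · rcases z with rfl | z
      · simp [p', σ']
      · exact absurd z (by simp only [τ', Sum.elim_inr]; linarith [(hT v hv).2])
  have key := area br (by linarith) (fun e r => Y (p' e) + b' e / a' e * (r - p' e))
    (fun e _ => a' e) (fun e _ => b' e) (fun _ _ => 0) (fun _ _ => 0) E'.card le_rfl
    (fun v hv e f he hf => by beta_reduce; rw [ps v hv e he, ps v hv f hf])
    (fun v hv => by
      rw [so v hv, so v hv, si v hv, si v hv]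
      simp only [a', b', Sum.elim_inl, Sum.elim_inr, hα, hβ]
      constructor <;> ring)
    (fun e he r _ _ => ⟨ap e he, by
      simpa using (((hasDerivAt_id r).sub_const (p' e)).const_mul (b' e / a' e)).const_add (Y (p' e)),
      hasDerivAt_const _ _, hasDerivAt_const _ _⟩)
    (fun _ _ _ _ _ _ _ => by simp) fun r _ _ => card_filter_le _ _
  have c1 : GG (fun e _ => a' e) (fun e _ => b' e) (cut E' σ' τ' (-T)) (-T) = 0 := by
    have z : ∀ e ∈ cut E' σ' τ' (-T), b' e = 0 := by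
      rintro (e | v | v) he <;> obtain ⟨he, z, -⟩ := mem_cut.1 he <;>
        simp only [E', inl_mem_disjSum, inr_mem_disjSum] at he
      · exact absurd (hT _ (hE e he).1).1 (not_lt.2 z)
      · rfl
      · exact absurd (hT _ he).1 (not_lt.2 z)
    exact sum_eq_zero fun e he => sum_eq_zero fun f hf => by simp [z e he, z f hf]
  have c2 : GG (fun e _ => a' e) (fun e _ => b' e) (cut E' σ' τ' T) T ≤ 4 * (∑ v ∈ A, n v) ^ 2 := by
    have z : ∀ e ∈ cut E' σ' τ' T, |a' e| ≤ 2 * n' e ∧ |b' e| ≤ n' e := by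
      rintro (e | v | v) he <;> obtain ⟨he, -, z⟩ := mem_cut.1 he <;>
        simp only [E', inl_mem_disjSum, inr_mem_disjSum] at he
      · exact absurd (hT _ (hE e he).2.1).2 (not_lt.2 z.le)
      · exact absurd (hT _ he).2 (not_lt.2 z.le)
      · simp only [a', b', n', Sum.elim_inr, abs_neg]
        have := abs_lt.1 (hn v he).1
        exact ⟨abs_le.2 ⟨by linarith, by linarith⟩, (hn v he).2⟩
    have z1 : ∑ e ∈ cut E' σ' τ' T, n' e ≤ ∑ v ∈ A, n v := by
      refine (sum_le_sum_of_subset_of_nonneg (filter_subset _ _) ?_).trans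
        (le_of_eq (by simp [E', n', sum_disjSum]))
      rintro (e | v | v) he - <;> simp only [E', inl_mem_disjSum, inr_mem_disjSum] at he
      · exact le_rfl
      · exact le_rfl
      · exact (n0 v he).le
    have z2 : 0 ≤ ∑ e ∈ cut E' σ' τ' T, n' e :=
      sum_nonneg fun e he => (abs_nonneg _).trans (z e he).2
    refine le_trans ?_ (mul_le_mul_of_nonneg_left (pow_le_pow_left₀ z2 z1 2) (by norm_num))
    rw [sq, sum_mul_sum, mul_sum]
    refine sum_le_sum fun e he => ?_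
    rw [mul_sum]
    refine sum_le_sum fun f hf => (abs_sub _ _).trans ?_
    rw [abs_mul, abs_mul]
    obtain ⟨u1, u2⟩ := z e he
    obtain ⟨v1, v2⟩ := z f hf
    have := mul_le_mul u2 v1 (abs_nonneg _) ((abs_nonneg _).trans u2)
    have := mul_le_mul u1 v2 (abs_nonneg _) ((abs_nonneg _).trans u1)
    linarith
  refine le_trans (sum_le_sum fun v hv => add_le_add ?_ ?_) (key.trans (by linarith))
  · unfold GG
    rw [so v hv]
    refine le_add_of_le_of_nonneg (sum_le_sum fun e _ => ?_) (sum_nonneg fun _ _ => abs_nonneg _)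
    rw [so v hv]
    exact le_add_of_nonneg_right (abs_nonneg _)
  · unfold GG
    rw [si v hv]
    refine le_add_of_le_of_nonneg (sum_le_sum fun e _ => ?_) (sum_nonneg fun _ _ => abs_nonneg _)
    rw [si v hv]
    exact le_add_of_nonneg_right (abs_nonneg _)

end Pool.Agent.H.MP_c30897_gt
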