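import Pool.Agent.H.MP_c30897_gt.B

set_option autoImplicit false

/-! Splitting a braid along a gap; elementary vector estimates. -/

namespace Pool.Agent.H.MP_c30897_gt

open Finset Classical

variable {ι : Type}

lemma bad_card {A : Finset ℝ} {f : ℝ → ℝ} (h0 : ∀ v ∈ A, 0 ≤ f v) {K L ρ : ℝ} (hK : 0 ≤ K)
    (hρ : 0 < ρ) (h : ∑ v ∈ A, f v ≤ L * ρ) :
    (A.filter fun v => ρ ≤ K * f v).card ≤ ⌈K * L⌉₊ := by
  have h1 := card_nsmul_le_sum (A.filter fun v => ρ ≤ K * f v) (fun v => K * f v) ρ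
    fun v hv => (mem_filter.1 hv).2
  have h2 : ∑ v ∈ A.filter (fun v => ρ ≤ K * f v), f v ≤ ∑ v ∈ A, f v :=
    sum_le_sum_of_subset_of_nonneg (filter_subset _ _) fun v hv _ => h0 v hv
  rw [← mul_sum, nsmul_eq_mul] at h1
  have h3 := mul_le_mul_of_nonneg_left (h2.trans h) hK
  have : ((A.filter fun v => ρ ≤ K * f v).card : ℝ) ≤ K * L :=
    le_of_mul_le_mul_right (by linarith) hρ
  exact_mod_cast this.trans (Nat.le_ceil _)

lemma win_sum {A : Finset ℝ} {f : ℝ → ℝ} (h0 : ∀ v ∈ A, 0 ≤ f v) {K L ρ h D : ℝ} (B : Finset ℝ)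
    (hB : B ⊆ A) (hD : 0 ≤ D) (hK : 0 < K) (hρ : 0 < ρ) (hL : ∑ v ∈ A, f v ≤ L * ρ)
    (hn : ∀ v ∈ B, K * f v ≤ ρ) (hh : D * L * ρ ^ 2 < K * h) :
    ∑ v ∈ B, D * f v ^ 2 < h := by
  have h2 : ∑ v ∈ B, f v ≤ ∑ v ∈ A, f v :=
    sum_le_sum_of_subset_of_nonneg hB fun v hv _ => h0 v hv
  have h3 : K * ∑ v ∈ B, D * f v ^ 2 ≤ D * ρ * ∑ v ∈ B, f v := by
    rw [mul_sum, mul_sum]
    refine sum_le_sum fun v hv => ?_
    have := mul_le_mul_of_nonneg_left (hn v hv) (mul_nonneg hD (h0 v (hB hv)))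
    linarith
  have h4 := mul_le_mul_of_nonneg_left (h2.trans hL) (by positivity : 0 ≤ D * ρ)
  exact lt_of_mul_lt_mul_left (by linarith) hK.le

lemma Br.card_eq {E : Finset ι} {σ τ : ι → ℝ} {A : Finset ℝ} {s t : ℝ} (h : Br E σ τ A s t)
    (cnt : ∀ v ∈ A, (ends E τ v).card = (ends E σ v).card) {r : ℝ} (h1 : s ≤ r) (h2 : r ≤ t) :
    (cut E σ τ r).card = (cut E σ τ s).card := by
  have := hyb2 A (fun r => ∑ _e ∈ cut E σ τ r, (1 : ℝ)) 0 s t (fun a b q1 q2 q3 q4 => by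
    rw [h.step1 q1 q2 q3 q4 (fun _ => (1 : ℝ)) fun z => by simp [cnt b z]]; simp) s r le_rfl h1 h2
  simpa [sub_eq_zero] using this

lemma split {E : Finset ι} {σ τ : ι → ℝ} {A : Finset ℝ} {s t : ℝ} (h : Br E σ τ A s t)
    (cnt : ∀ v ∈ A, (ends E τ v).card = (ends E σ v).card)
    (ne : ∀ v ∈ A, ∃ e, e ∈ ends E σ v) (p : ι → ℝ → ℝ) {s' t' η Λ : ℝ} (M N : ℕ) (R : ℝ → ℝ)
    (h1 : s ≤ s') (h2 : s' ≤ t') (h3 : t' ≤ t) (η0 : 0 < η) (Λ0 : 0 ≤ Λ)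
    (hM : (cut E σ τ s).card ≤ M)
    (pd : ∀ e ∈ E, ∀ f ∈ E, ∀ a b, s ≤ a → a ≤ b → b ≤ t → σ e ≤ a → σ f ≤ a → b ≤ τ e → b ≤ τ f →
      |p e b - p f b - (p e a - p f a)| ≤ Λ * (b - a))
    (pb : ∀ v ∈ A, ∑ f ∈ ends E σ v, p f v = ∑ f ∈ ends E τ v, p f v ∧
      ∀ e f, At E σ τ v e → At E σ τ v f → |p f v - p e v| ≤ R v)
    (k0 : ∀ v ∈ A, s' < v → v ≤ t' → 4 * R v ≤ η) (k1 : 4 * (Λ * (t' - s')) ≤ η)
    (k2 : ∑ v ∈ A.filter (fun v => s' < v ∧ v ≤ t'), 8 * M * R v ^ 2 +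
      28 * M * η * Λ * (t' - s') < η ^ 2)
    {e0 f0 : ι} (he : e0 ∈ cut E σ τ s') (hf : f0 ∈ cut E σ τ s')
    (hef : p e0 s' + (M + 1) * (3 * η) < p f0 s')
    (ih : ∀ Z : ι → Prop, (∀ v ∈ A, s' < v → v ≤ t' → ∀ e f, At E σ τ v e → At E σ τ v f →
      Z e → Z f) → (∃ e ∈ cut E σ τ s', ¬ Z e) →
      (A.filter fun v => s' < v ∧ v ≤ t' ∧ ∃ e, At E σ τ v e ∧ Z e).card ≤ N) :
    (A.filter fun v => True ∧ s' < v ∧ v ≤ t').card ≤ N + N := by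
  obtain ⟨m, hm⟩ : ∃ m : ℝ, m = (cut E σ τ s).card := ⟨_, rfl⟩
  have cm : ∀ r, s ≤ r → r ≤ t → ((cut E σ τ r).card : ℝ) = m := fun r q1 q2 => by
    rw [hm, h.card_eq cnt q1 q2]
  have m0 : 0 < m := by
    rw [← cm s' h1 (h2.trans h3)]; exact_mod_cast card_pos.2 ⟨e0, he⟩
  obtain ⟨μ, hμ⟩ : ∃ μ : ℝ → ℝ, ∀ r, μ r = (∑ f ∈ cut E σ τ r, p f r) / m := ⟨_, fun _ => rfl⟩
  have hM' : ∀ r, s' ≤ r → r ≤ t' → (cut E σ τ r).card ≤ M := fun r q1 q2 =>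
    (h.card_eq cnt (h1.trans q1) (q2.trans h3)).le.trans hM
  obtain ⟨a, a1, a2, a3⟩ := MP_b48dd4_gt.gapex ((cut E σ τ s').image fun e => p e s' - μ s')
    (card_image_le.trans (hM' s' le_rfl h2)) (p e0 s' - μ s') (δ := 3 * η) (by positivity)
  obtain ⟨Z, z1, z2, -⟩ := gap h (fun e r => p e r - μ r) (a := a) M R h1 h3 η0 Λ0 hM'
    (fun e he x y q1 q2 q3 q4 q5 => hyb2 A (fun r => p e r - μ r) Λ x y (fun a b w1 w2 w3 w4 => by
      have u1 : s ≤ a := h1.trans (q1.trans w1)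
      have u2 : b ≤ t := w3.trans (q5.trans h3)
      have e1 : p e b - μ b - (p e a - μ a) =
          (∑ f ∈ cut E σ τ a, (p e b - p f b - (p e a - p f a))) / m := by
        rw [hμ, hμ, h.step1 u1 w2 u2 w4 (fun f => p f b) fun z => (pb b z).1]
        simp only [sum_sub_distrib, sum_const, nsmul_eq_mul, cm a u1 (w2.le.trans u2)]
        field_simp
      beta_reduce
      rw [e1, abs_div, abs_of_pos m0, div_le_iff₀ m0, ← cm a u1 (w2.le.trans u2), mul_comm,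
        ← nsmul_eq_mul]
      refine (abs_sum_le_sum_abs _ _).trans (sum_le_card_nsmul _ _ _ fun f hf => ?_)
      obtain ⟨f1, f2, f3⟩ := h.alive u1 u2 w4 hf
      exact pd e he f f1 a b u1 w2.le u2 (q2.trans w1) f2 (w3.trans q4) f3) x y le_rfl q3 le_rfl)
    (fun v hv q1 q2 e he _ => ⟨cnt v hv, by
      simp only [sum_sub_distrib, sum_const, (pb v hv).1, cnt v hv], k0 v hv q1 q2, fun f hf => by
      simpa using (pb v hv).2 e f he hf⟩) k1 k2 fun e he => a3 _ (mem_image_of_mem _ he)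
  have c1 := ih Z z1 ⟨e0, he, fun z => by have := (z2 e0 he).1 z; linarith⟩
  have c2 := ih (fun e => ¬ Z e) (fun v hv q1 q2 e f he hf z z' => z (z1 v hv q1 q2 f e hf he z'))
    ⟨f0, hf, not_not.2 ((z2 f0 hf).2 (by linarith))⟩
  refine le_trans (card_le_card fun v hv => ?_) ((card_union_le _ _).trans (add_le_add c1 c2))
  obtain ⟨q1, -, q2, q3⟩ := mem_filter.1 hv
  obtain ⟨e, he⟩ := ne v q1
  by_cases z : Z e
  · exact mem_union_left _ (mem_filter.2 ⟨q1, q2, q3, e, At.o he, z⟩)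
  · exact mem_union_right _ (mem_filter.2 ⟨q1, q2, q3, e, At.o he, z⟩)

variable {V : Type} [NormedAddCommGroup V] [InnerProductSpace ℝ V]

lemma dirs {p q : V} (hp : ‖p‖ = 1) (hq : ‖q‖ = 1) {α a b : ℝ} (h0 : 0 ≤ α) (h1 : α ≤ a)
    (h2 : 0 ≤ b) : α * ‖p - q‖ ≤ 2 * ‖b • p - a • q‖ := by
  have a0 := h0.trans h1
  have e1 : a • (p - q) = (b • p - a • q) + (a - b) • p := by module
  have e2 := abs_norm_sub_norm_le (b • p) (a • q)
  rw [norm_smul, norm_smul, hp, hq, Real.norm_of_nonneg a0, Real.norm_of_nonneg h2, mul_one, mul_one,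
    abs_sub_comm] at e2
  have e3 := norm_add_le (b • p - a • q) ((a - b) • p)
  rw [← e1, norm_smul, norm_smul, hp, Real.norm_of_nonneg a0, Real.norm_eq_abs] at e3
  nlinarith [norm_nonneg (p - q)]

lemma sq_sum (I : Finset ι) (u : ι → V) (hu : ∀ e ∈ I, ‖u e‖ = 1) (w : V) :
    ∑ e ∈ I, ‖u e - w‖ ^ 2 = I.card * (1 + ‖w‖ ^ 2) - 2 * inner ℝ (∑ e ∈ I, u e) w := by
  rw [sum_inner, mul_sum, ← nsmul_eq_mul, ← sum_const, ← sum_sub_distrib]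
  exact sum_congr rfl fun e he => by rw [norm_sub_sq_real, hu e he]; ring

lemma vert (I J : Finset ι) (u : ι → V) (hI : ∀ e ∈ I, ‖u e‖ = 1) (hJ : ∀ e ∈ J, ‖u e‖ = 1)
    (hc : J.card = I.card) (hs : ∑ e ∈ I, u e = ∑ e ∈ J, u e) {e f : ι} (he : e ∈ I ∨ e ∈ J)
    (hf : f ∈ I ∨ f ∈ J) : ‖u e - u f‖ ≤ ∑ e ∈ I, ∑ f ∈ I, ‖u e - u f‖ := by
  have k1 : ∀ w, ∑ e ∈ J, ‖u e - w‖ ^ 2 = ∑ e ∈ I, ‖u e - w‖ ^ 2 := fun w => by
    rw [sq_sum I u hI, sq_sum J u hJ, hc, hs]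
  have k2 : ∀ w, ∑ e ∈ J, ‖w - u e‖ ^ 2 = ∑ e ∈ I, ‖w - u e‖ ^ 2 := fun w => by
    simpa only [norm_sub_rev w] using k1 w
  have k3 : ‖u e - u f‖ ^ 2 ≤ ∑ f ∈ I, ‖u e - u f‖ ^ 2 := by
    rcases hf with hf | hf
    · exact single_le_sum (f := fun f => ‖u e - u f‖ ^ 2) (fun _ _ => sq_nonneg _) hf
    · rw [← k2]; exact single_le_sum (f := fun f => ‖u e - u f‖ ^ 2) (fun _ _ => sq_nonneg _) hf
  have k4 : ∑ f ∈ I, ‖u e - u f‖ ^ 2 ≤ ∑ e ∈ I, ∑ f ∈ I, ‖u e - u f‖ ^ 2 := by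
    rcases he with he | he
    · exact single_le_sum (f := fun e => ∑ f ∈ I, ‖u e - u f‖ ^ 2) (fun _ _ => by positivity) he
    · rw [sum_comm]
      simp only [← k1]
      rw [sum_comm]
      exact single_le_sum (f := fun e => ∑ f ∈ I, ‖u e - u f‖ ^ 2) (fun _ _ => by positivity) he
  have k5 : ∑ e ∈ I, ∑ f ∈ I, ‖u e - u f‖ ^ 2 ≤ (∑ e ∈ I, ∑ f ∈ I, ‖u e - u f‖) ^ 2 :=
    (sum_le_sum fun e _ => sum_sq_le_sq_sum_of_nonneg fun _ _ => norm_nonneg _).trans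
      (sum_sq_le_sq_sum_of_nonneg fun _ _ => by positivity)
  exact (abs_le_of_sq_le_sq' (k3.trans (k4.trans k5)) (by positivity)).2

lemma thin_half {I : Finset ι} (u : ι → V) (θ : V →L[ℝ] ℝ) {α η : ℝ} (hu : ∀ e ∈ I, ‖u e‖ = 1)
    (h1 : ∀ e ∈ I, -η ≤ θ (u e)) (h2 : ∀ e ∈ I, ∀ f ∈ I, ‖θ (u f) • u e - θ (u e) • u f‖ ≤ η)
    (h3 : 2 * η < α) {e : ι} (he : e ∈ I) (h4 : α ≤ θ (u e)) :
    ∀ f ∈ I, α * ‖u f - u e‖ ≤ 2 * η := by
  intro f hf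
  have η0 : 0 ≤ η := (norm_nonneg _).trans (h2 e he e he)
  have e2 := abs_norm_sub_norm_le (θ (u e) • u f) (θ (u f) • u e)
  rw [norm_smul, norm_smul, hu e he, hu f hf, Real.norm_of_nonneg (by linarith), Real.norm_eq_abs,
    mul_one, mul_one] at e2
  have e3 := (abs_le.1 (e2.trans (h2 f hf e he))).2
  have e4 : 0 ≤ θ (u f) := by
    by_contra hn
    rw [abs_of_neg (not_le.1 hn)] at e3
    linarith [h1 f hf]
  have := dirs (hu e he) (hu f hf) (by linarith) h4 e4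
  rw [norm_sub_rev (u f)]
  linarith [h2 e he f hf]

lemma thin {I J : Finset ι} (u w : ι → V) (θ : V →L[ℝ] ℝ) (hθ : ∀ v, |θ v| ≤ 2 * ‖v‖) {α η D : ℝ}
    (hu : ∀ e ∈ I, ‖u e‖ = 1) (hw : ∀ e ∈ J, ‖w e‖ = 1) (h1 : ∀ e ∈ I, -η ≤ θ (u e))
    (h1' : ∀ e ∈ J, -η ≤ θ (w e)) (h2 : ∀ e ∈ I, ∀ f ∈ I, ‖θ (u f) • u e - θ (u e) • u f‖ ≤ η)
    (h2' : ∀ e ∈ J, ∀ f ∈ J, ‖θ (w f) • w e - θ (w e) • w f‖ ≤ η)
    (hs : ∑ e ∈ I, u e = ∑ e ∈ J, w e) (cI : (I.card : ℝ) ≤ D) (cJ : (J.card : ℝ) ≤ D)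
    (α0 : 0 < α) (α1 : α ≤ 1) (h3 : 20 * D ^ 2 * η < α ^ 2) {e : ι} (he : e ∈ I) (h4 : α ≤ θ (u e)) :
    I.card = J.card ∧ (∀ f ∈ I, α * ‖u f - u e‖ ≤ 12 * D ^ 2 * η) ∧
      ∀ f ∈ J, α * ‖w f - u e‖ ≤ 12 * D ^ 2 * η := by
  have η0 : 0 ≤ η := (norm_nonneg _).trans (h2 e he e he)
  have c1 : (1 : ℝ) ≤ I.card := by exact_mod_cast card_pos.2 ⟨e, he⟩
  have D1 : 1 ≤ D := c1.trans cI
  have D2 : η ≤ D * η := le_mul_of_one_le_left η0 D1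
  have D3 : D * η ≤ D ^ 2 * η := by nlinarith
  have a2 : α ^ 2 ≤ α := by nlinarith
  have n1 := thin_half u θ hu h1 h2 (by linarith) he h4
  have t1 : ∀ f ∈ I, α / 2 ≤ θ (u f) := fun f hf => by
    have q1 := (abs_le.1 (hθ (u f - u e))).1
    rw [map_sub] at q1
    have q2 := n1 f hf
    by_contra hn
    nlinarith
  obtain ⟨g, hg, g1⟩ : ∃ g ∈ J, α / (2 * D) ≤ θ (w g) := by
    by_contra hn
    push Not at hn
    have q1 := card_nsmul_le_sum I _ _ t1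
    have q2 := sum_le_card_nsmul J _ _ fun g hg => (hn g hg).le
    rw [← map_sum, ← hs, map_sum] at q2
    rw [nsmul_eq_mul] at q1 q2
    have q3 : (J.card : ℝ) * (α / (2 * D)) ≤ D * (α / (2 * D)) :=
      mul_le_mul_of_nonneg_right cJ (by positivity)
    have q4 : D * (α / (2 * D)) = α / 2 := by field_simp
    rcases J.eq_empty_or_nonempty with rfl | hJ
    · simp at q2; nlinarith
    · have q5 := sum_lt_sum_of_nonempty hJ hn
      rw [← map_sum, ← hs, map_sum, sum_const, nsmul_eq_mul] at q5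
      nlinarith
  have n2 := thin_half w θ hw h1' h2' (by rw [lt_div_iff₀ (by positivity)]; nlinarith) hg g1
  have n3 : ∀ f ∈ J, α * ‖w f - w g‖ ≤ 4 * D * η := fun f hf => by
    have := n2 f hf
    rw [div_mul_eq_mul_div, div_le_iff₀ (by positivity)] at this
    linarith
  have s1 : ∀ (K : Finset ι) (z : ι → V) (y : V) (b : ℝ), 0 ≤ b → (K.card : ℝ) ≤ D →
      (∀ f ∈ K, α * ‖z f - y‖ ≤ b) → α * ‖∑ f ∈ K, z f - (K.card : ℝ) • y‖ ≤ D * b := by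
    intro K z y b b0 cK hK
    rw [Nat.cast_smul_eq_nsmul, ← sum_const, ← sum_sub_distrib]
    refine (mul_le_mul_of_nonneg_left (norm_sum_le _ _) α0.le).trans ?_
    rw [mul_sum]
    refine (sum_le_card_nsmul _ _ _ hK).trans ?_
    rw [nsmul_eq_mul]; exact mul_le_mul_of_nonneg_right cK b0
  have s2 := s1 I u (u e) _ (by positivity) cI n1
  have s3 := s1 J w (w g) _ (by positivity) cJ n3
  rw [hs] at s2
  have s4 : α * ‖(I.card : ℝ) • u e - (J.card : ℝ) • w g‖ ≤ 6 * D ^ 2 * η := by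
    have := norm_sub_le_norm_sub_add_norm_sub ((I.card : ℝ) • u e) (∑ e ∈ J, w e)
      ((J.card : ℝ) • w g)
    rw [norm_sub_rev _ (∑ e ∈ J, w e)] at this
    nlinarith
  have s5 := abs_norm_sub_norm_le ((I.card : ℝ) • u e) ((J.card : ℝ) • w g)
  rw [norm_smul, norm_smul, hu e he, hw g hg, Real.norm_natCast, Real.norm_natCast, mul_one,
    mul_one] at s5
  have s6 : |(I.card : ℝ) - J.card| < 1 := by
    by_contra hn
    nlinarith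
  have s7 : I.card = J.card := by
    obtain ⟨q1, q2⟩ := abs_lt.1 s6
    have q3 : I.card < J.card + 1 := by exact_mod_cast (by linarith : (I.card : ℝ) < J.card + 1)
    have q4 : J.card < I.card + 1 := by exact_mod_cast (by linarith : (J.card : ℝ) < I.card + 1)
    omega
  rw [← s7, ← smul_sub, norm_smul, Real.norm_natCast] at s4
  have s8 : α * ‖u e - w g‖ ≤ 6 * D ^ 2 * η := by
    nlinarith [mul_nonneg α0.le (norm_nonneg (u e - w g))]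
  refine ⟨s7, fun f hf => by linarith [n1 f hf], fun f hf => ?_⟩
  have := norm_sub_le_norm_sub_add_norm_sub (w f) (w g) (u e)
  rw [norm_sub_rev (w g)] at this
  nlinarith [n3 f hf]

end Pool.Agent.H.MP_c30897_gt
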