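import Pool.Agent.H.MP_c30897_gt.C

set_option autoImplicit false

/-! The induction on the number of strands. -/

namespace Pool.Agent.H.MP_c30897_gt

open Finset Classical

variable {ι V : Type} [NormedAddCommGroup V] [InnerProductSpace ℝ V]

structure Ode (θ : V →L[ℝ] ℝ) (α C : ℝ) (x u k : ι → ℝ → V) (E : Finset ι) (σ τ : ι → ℝ) :
    Prop where
  der : ∀ e ∈ E, ∀ r, σ e ≤ r → r ≤ τ e → HasDerivAt (x e) ((θ (u e r))⁻¹ • u e r) r ∧
    HasDerivAt (u e) (k e r) r ∧ ‖u e r‖ = 1 ∧ α ≤ θ (u e r) ∧ ‖k e r‖ ≤ C ∧ ‖x e r‖ ≤ C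
  lip : ∀ e ∈ E, ∀ f ∈ E, ∀ r, σ e ≤ r → r ≤ τ e → σ f ≤ r → r ≤ τ f →
    ‖k e r - k f r‖ ≤ C * (‖x e r - x f r‖ + ‖u e r - u f r‖)

structure FB (θ : V →L[ℝ] ℝ) (α C : ℝ) (x u k : ι → ℝ → V) (E : Finset ι) (σ τ : ι → ℝ)
    (A : Finset ℝ) (s t : ℝ) : Prop where
  br : Br E σ τ A s t
  ode : Ode θ α C x u k E σ τ
  vx : ∀ v ∈ A, (∀ e f, At E σ τ v e → At E σ τ v f → x e v = x f v) ∧
    (ends E τ v).card = (ends E σ v).card ∧ ∑ e ∈ ends E σ v, u e v = ∑ e ∈ ends E τ v, u e v ∧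
    ∃ e ∈ ends E σ v, ∃ f ∈ ends E σ v, u e v ≠ u f v

lemma fb_sub {θ : V →L[ℝ] ℝ} {α C : ℝ} {x u k : ι → ℝ → V} {E : Finset ι} {σ τ : ι → ℝ}
    {A : Finset ℝ} {s t : ℝ} (h : Br E σ τ A s t) (ho : Ode θ α C x u k E σ τ)
    {s' t' : ℝ} (h1 : s ≤ s') (h2 : s' ≤ t') (h3 : t' ≤ t) (Z : ι → Prop)
    (hZ : ∀ v ∈ A, s' < v → v ≤ t' → ∀ e f, At E σ τ v e → At E σ τ v f → Z e → Z f)
    (vx : ∀ v ∈ A, s' < v → v ≤ t' → ∀ e, At E σ τ v e → Z e →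
      (∀ e f, At E σ τ v e → At E σ τ v f → x e v = x f v) ∧
      (ends E τ v).card = (ends E σ v).card ∧ ∑ e ∈ ends E σ v, u e v = ∑ e ∈ ends E τ v, u e v ∧
      ∃ e ∈ ends E σ v, ∃ f ∈ ends E σ v, u e v ≠ u f v) :
    ∃ E' : Finset ι, FB θ α C x u k E' σ τ
      (A.filter fun v => s' < v ∧ v ≤ t' ∧ ∃ e, At E σ τ v e ∧ Z e) s' t' ∧
      ∀ e ∈ cut E' σ τ s', e ∈ cut E σ τ s' ∧ Z e := by
  obtain ⟨E', A', b1, b2, b3, b4, b5⟩ := h.sub h1 h2 h3 Z hZ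
  have : A' = A.filter fun v => s' < v ∧ v ≤ t' ∧ ∃ e, At E σ τ v e ∧ Z e := by
    ext v; rw [b3, mem_filter]
  rw [← this]
  refine ⟨E', ⟨b1, ⟨fun e he => ho.der e (b2 he), fun e he f hf => ho.lip e (b2 he) f (b2 hf)⟩,
    fun v hv => ?_⟩, b5⟩
  obtain ⟨q1, q2, q3, e, q4, q5⟩ := (b3 v).1 hv
  obtain ⟨w1, w2⟩ := vx v q1 q2 q3 e q4 q5
  rw [(b4 v hv).1, (b4 v hv).2]
  exact ⟨fun e f he hf => w1 e f ⟨b2 he.1, he.2⟩ ⟨b2 hf.1, hf.2⟩, w2⟩

lemma vel {p q : V} (hp : ‖p‖ = 1) {α a b : ℝ} (h0 : 0 < α) (h1 : α ≤ a) (h2 : α ≤ b)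
    (h3 : a ≤ 2) (h4 : |b - a| ≤ 2 * ‖p - q‖) : ‖a⁻¹ • p - b⁻¹ • q‖ ≤ 4 / α ^ 2 * ‖p - q‖ := by
  have a0 := h0.trans_le h1
  have b0 := h0.trans_le h2
  have e1 : a⁻¹ • p - b⁻¹ • q = (a * b)⁻¹ • ((b - a) • p + a • (p - q)) := by
    match_scalars <;> field_simp <;> ring
  have e2 := norm_add_le ((b - a) • p) (a • (p - q))
  rw [norm_smul, norm_smul, hp, Real.norm_eq_abs, Real.norm_of_nonneg a0.le] at e2
  rw [e1, norm_smul, Real.norm_of_nonneg (by positivity), inv_mul_eq_div, div_mul_eq_mul_div]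
  exact div_le_div₀ (by positivity) (by nlinarith [norm_nonneg (p - q)]) (by positivity)
    (by nlinarith)

lemma crb {θ π : V →L[ℝ] ℝ} (hθ : ∀ v, |θ v| ≤ 2 * ‖v‖) (hπ : ∀ v, |π v| ≤ ‖v‖) (p q : V) :
    |π p * θ q - θ p * π q| ≤ 4 * (‖p‖ * ‖q‖) := by
  refine (abs_sub _ _).trans ?_
  rw [abs_mul, abs_mul]
  have := mul_le_mul (hπ p) (hθ q) (abs_nonneg _) (norm_nonneg _)
  have := mul_le_mul (hθ p) (hπ q) (abs_nonneg _) (by positivity)
  linarith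

lemma sqd {a b ρ d : ℝ} (ha : 0 ≤ a) (hb : 0 ≤ b) (h1 : a ≤ ρ) (h2 : |b - a| ≤ d) (h3 : d ≤ ρ) :
    |b ^ 2 - a ^ 2| ≤ 3 * ρ * d := by
  obtain ⟨_, _⟩ := abs_le.1 h2
  rw [abs_le]; constructor <;> nlinarith

theorem short {N : ℕ} (π : Fin N → V →L[ℝ] ℝ) (p1 : ∀ j v, |π j v| ≤ ‖v‖)
    (p2 : ∀ v, ‖v‖ ≤ ∑ j, |π j v|) {α C : ℝ} (α0 : 0 < α) (C0 : 0 ≤ C) (m N' : ℕ) :
    ∃ δ : ℝ, 0 < δ ∧ ∃ N'' : ℕ, ∀ (ι : Type) (θ : V →L[ℝ] ℝ) (x u k : ι → ℝ → V) (E : Finset ι)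
      (σ τ : ι → ℝ)      (A : Finset ℝ) (s t : ℝ), (∀ v, |θ v| ≤ 2 * ‖v‖) → FB θ α C x u k E σ τ A s t → s ≤ t →
      t - s ≤ δ → (cut E σ τ s).card ≤ m + 1 →
      (∀ E' A' s' t', FB θ α C x u k E' σ τ A' s' t' → s' ≤ t' → t' - s' ≤ t - s →
        (cut E' σ τ s').card ≤ m → A'.card ≤ N') → A.card ≤ N'' := by
  obtain ⟨M, hM⟩ : ∃ M, M = m + 1 := ⟨_, rfl⟩
  have M1 : (1 : ℝ) ≤ M := by rw [hM]; push_cast; linarith [Nat.cast_nonneg (α := ℝ) m]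
  obtain ⟨K0, hK0⟩ : ∃ K0, K0 = 4 / α ^ 2 + 2 * C := ⟨_, rfl⟩
  have K00 : 0 < K0 := by rw [hK0]; positivity
  obtain ⟨H, hH⟩ : ∃ H : ℝ, H = 9 * M * (N + 1) * (M + 1) := ⟨_, rfl⟩
  have H1 : M ≤ H := by
    rw [hH]
    have : (1 : ℝ) ≤ (N + 1) * (M + 1) := one_le_mul_of_one_le_of_one_le (by simp) (by simp)
    nlinarith
  have H0 : 0 < H := by linarith
  obtain ⟨L, hL⟩ : ∃ L : ℝ, L = 48 * N * M ^ 2 / α := ⟨_, rfl⟩
  have L0 : 0 ≤ L := by rw [hL]; positivity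
  obtain ⟨K, hK⟩ : ∃ K : ℝ, K = 16 * M * L * H ^ 2 + 4 * H + 1 := ⟨_, rfl⟩
  have K1 : 0 ≤ 16 * M * L * H ^ 2 := by positivity
  have Kp : 0 < K := by linarith
  obtain ⟨δ, hδ⟩ : ∃ δ : ℝ, δ = 1 / (56 * M * K0 * H) := ⟨_, rfl⟩
  have δ0 : 0 < δ := by rw [hδ]; positivity
  have δ1 : 56 * M * K0 * H * δ = 1 := by rw [hδ]; field_simp
  have δ2 : 56 * M ^ 2 * (K0 * δ) ≤ 1 := by
    nlinarith [mul_le_mul_of_nonneg_left H1 (by positivity : 0 ≤ 56 * M * K0 * δ)]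
  have δ3 : K0 * δ ≤ 1 := by nlinarith [mul_pos K00 δ0]
  refine ⟨δ, δ0, ⌈K * L⌉₊ + (⌈K * L⌉₊ + 1) * (N' + N'),
    fun ι θ x u k E σ τ A s t hθ hF hst hδt hc ih => ?_⟩
  rw [← hM] at hc
  have h := hF.br
  have cnt := fun v hv => (hF.vx v hv).2.1
  have cM : ∀ r, s ≤ r → r ≤ t → (cut E σ τ r).card ≤ M := fun r q1 q2 =>
    (h.card_eq cnt q1 q2).le.trans hc
  have dc : ∀ r, ∀ e ∈ cut E σ τ r, e ∈ E ∧ σ e ≤ r ∧ r ≤ τ e := fun r e he =>
    ⟨(mem_cut.1 he).1, (mem_cut.1 he).2.1, (mem_cut.1 he).2.2.le⟩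
  have un : ∀ v e, At E σ τ v e → ‖u e v‖ = 1 := fun v e he =>
    (hF.ode.der e he.1 v (h.life he).1 (h.life he).2).2.2.1
  obtain ⟨W, hW⟩ : ∃ W : ℝ → ℝ, ∀ r, W r = ∑ e ∈ cut E σ τ r, ∑ f ∈ cut E σ τ r,
    (‖x e r - x f r‖ ^ 2 + ‖u e r - u f r‖ ^ 2) := ⟨_, fun _ => rfl⟩
  have bd : BddAbove (W '' Set.Icc s t) := by
    refine ⟨M ^ 2 * ((2 * C) ^ 2 + 2 ^ 2), ?_⟩
    rintro _ ⟨r, ⟨q1, q2⟩, rfl⟩
    rw [hW]
    refine dsum_le _ _ (by positivity) (cM r q1 q2) fun e he f hf => ?_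
    obtain ⟨-, -, e1, -, -, e2⟩ := hF.ode.der e (dc r e he).1 r (dc r e he).2.1 (dc r e he).2.2
    obtain ⟨-, -, f1, -, -, f2⟩ := hF.ode.der f (dc r f hf).1 r (dc r f hf).2.1 (dc r f hf).2.2
    exact add_le_add (pow_le_pow_left₀ (norm_nonneg _) ((norm_sub_le _ _).trans (by linarith)) 2)
      (pow_le_pow_left₀ (norm_nonneg _) ((norm_sub_le _ _).trans (by linarith)) 2)
  have Wle : ∀ r, s ≤ r → r ≤ t → W r ≤ sSup (W '' Set.Icc s t) := fun r q1 q2 =>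
    le_csSup bd ⟨r, ⟨q1, q2⟩, rfl⟩
  have W0 : 0 ≤ sSup (W '' Set.Icc s t) := le_trans (by rw [hW]; positivity) (Wle s le_rfl hst)
  have Wup : ∀ y, (∀ r, s ≤ r → r ≤ t → W r ≤ y) → sSup (W '' Set.Icc s t) ≤ y := fun y hy =>
    csSup_le ⟨_, s, ⟨le_rfl, hst⟩, rfl⟩ (by rintro _ ⟨r, ⟨q1, q2⟩, rfl⟩; exact hy r q1 q2)
  rw [← Real.sq_sqrt W0] at Wle Wup
  have ρ0 := Real.sqrt_nonneg (sSup (W '' Set.Icc s t))
  generalize √(sSup (W '' Set.Icc s t)) = ρ at Wle Wup ρ0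
  clear W0 bd
  have sp : ∀ r, s ≤ r → r ≤ t → ∀ e ∈ cut E σ τ r, ∀ f ∈ cut E σ τ r,
      ‖x e r - x f r‖ ≤ ρ ∧ ‖u e r - u f r‖ ≤ ρ := fun r q1 q2 e he f hf => by
    have := (single_le_sum (f := fun f => ‖x e r - x f r‖ ^ 2 + ‖u e r - u f r‖ ^ 2)
      (fun _ _ => by positivity) hf).trans ((single_le_sum (f := fun e => ∑ f ∈ cut E σ τ r,
      (‖x e r - x f r‖ ^ 2 + ‖u e r - u f r‖ ^ 2)) (fun _ _ => by positivity) he).trans
      ((hW r).ge.trans (Wle r q1 q2)))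
    exact ⟨(abs_le_of_sq_le_sq' (by nlinarith [sq_nonneg ‖u e r - u f r‖]) ρ0).2,
      (abs_le_of_sq_le_sq' (by nlinarith [sq_nonneg ‖x e r - x f r‖]) ρ0).2⟩
  have kl : ∀ r, s ≤ r → r ≤ t → ∀ e ∈ cut E σ τ r, ∀ f ∈ cut E σ τ r,
      ‖k e r - k f r‖ ≤ 2 * C * ρ := fun r q1 q2 e he f hf => by
    have := hF.ode.lip e (dc r e he).1 f (dc r f hf).1 r (dc r e he).2.1 (dc r e he).2.2
      (dc r f hf).2.1 (dc r f hf).2.2
    nlinarith [sp r q1 q2 e he f hf]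
  have pd : ∀ e ∈ E, ∀ f ∈ E, ∀ a b, s ≤ a → a ≤ b → b ≤ t → σ e ≤ a → σ f ≤ a → b ≤ τ e →
      b ≤ τ f → ‖x e b - x f b - (x e a - x f a)‖ ≤ K0 * ρ * (b - a) ∧
      ‖u e b - u f b - (u e a - u f a)‖ ≤ K0 * ρ * (b - a) := by
    intro e he f hf a b q1 q2 q3 q4 q5 q6 q7
    have de := fun r (r1 : a ≤ r) (r2 : r ≤ b) => hF.ode.der e he r (q4.trans r1) (r2.trans q6)
    have df := fun r (r1 : a ≤ r) (r2 : r ≤ b) => hF.ode.der f hf r (q5.trans r1) (r2.trans q7)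
    have ce := fun r (r1 : a ≤ r) (r2 : r < b) => mem_cut.2 ⟨he, q4.trans r1, r2.trans_le q6⟩
    have cf := fun r (r1 : a ≤ r) (r2 : r < b) => mem_cut.2 ⟨hf, q5.trans r1, r2.trans_le q7⟩
    have i1 : 0 ≤ 4 / α ^ 2 * ρ := by positivity
    have i2 : 0 ≤ 2 * C * ρ := by positivity
    refine ⟨mvt (f := fun r => x e r - x f r) q2 (fun r r1 r2 => (de r r1 r2).1.sub (df r r1 r2).1)
      fun r r1 r2 => ?_, mvt (f := fun r => u e r - u f r) q2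
      (fun r r1 r2 => (de r r1 r2).2.1.sub (df r r1 r2).2.1) fun r r1 r2 => ?_⟩
    · obtain ⟨-, -, e1, e2, -⟩ := de r r1 r2.le
      have e3 := hθ (u e r - u f r)
      have e4 := (abs_le.1 (hθ (u e r))).2
      rw [map_sub, abs_sub_comm] at e3
      have := mul_le_mul_of_nonneg_left (sp r (q1.trans r1) (r2.le.trans q3) e (ce r r1 r2) f
        (cf r r1 r2)).2 (by positivity : 0 ≤ 4 / α ^ 2)
      refine (vel e1 α0 e2 (df r r1 r2.le).2.2.2.1 (by linarith) e3).trans ?_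
      rw [hK0]; linarith
    · refine (kl r (q1.trans r1) (r2.le.trans q3) e (ce r r1 r2) f (cf r r1 r2)).trans ?_
      rw [hK0]; linarith
  have xb : ∀ v ∈ A, ∀ g : V → ℝ, ∑ e ∈ ends E σ v, g (x e v) = ∑ e ∈ ends E τ v, g (x e v) := by
    intro v hv g
    obtain ⟨q1, q2, -, e0, q3, -⟩ := hF.vx v hv
    rw [sum_congr rfl fun e he => congrArg g (q1 e e0 (At.o he) (At.o q3)),
      sum_congr rfl fun e he => congrArg g (q1 e e0 (At.i he) (At.o q3)), sum_const, sum_const, q2]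
  have Wd := hyb2 A W (M ^ 2 * (6 * K0 * ρ ^ 2)) s t (fun a b q1 q2 q3 q4 => by
    rw [hW, hW, h.step2 q1 q2 q3 q4 (fun e f => ‖x e b - x f b‖ ^ 2 + ‖u e b - u f b‖ ^ 2)
      (fun e f => by rw [norm_sub_rev (x e b), norm_sub_rev (u e b)]) (fun hb f => by
        rw [sum_add_distrib, sum_add_distrib, xb b hb fun y => ‖y - x f b‖ ^ 2,
          sq_sum _ (fun e => u e b) fun e he => un b e (At.o he),
          sq_sum _ (fun e => u e b) fun e he => un b e (At.i he), cnt b hb, (hF.vx b hb).2.2.1]),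
      ← sum_sub_distrib, mul_assoc]
    refine (abs_sum_le_sum_abs _ _).trans ((sum_le_sum fun e _ => by
      rw [← sum_sub_distrib]; exact abs_sum_le_sum_abs _ _).trans (dsum_le _ _
      (by have := sub_pos.2 q2; positivity) (cM a q1 (q2.le.trans q3)) fun e he f hf => ?_))
    obtain ⟨e1, e2, e3⟩ := h.alive q1 q3 q4 he
    obtain ⟨f1, f2, f3⟩ := h.alive q1 q3 q4 hf
    obtain ⟨w1, w2⟩ := pd e e1 f f1 a b q1 q2.le q3 e2 f2 e3 f3
    obtain ⟨w3, w4⟩ := sp a q1 (q2.le.trans q3) e he f hf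
    have w5 : K0 * ρ * (b - a) ≤ ρ := by
      have : K0 * (b - a) ≤ K0 * δ := mul_le_mul_of_nonneg_left (by linarith) K00.le
      nlinarith
    have w6 := abs_le.1 (sqd (norm_nonneg _) (norm_nonneg _) w3
      ((abs_norm_sub_norm_le _ _).trans w1) w5)
    have w7 := abs_le.1 (sqd (norm_nonneg _) (norm_nonneg _) w4
      ((abs_norm_sub_norm_le _ _).trans w2) w5)
    rw [abs_le]; constructor <;> linarith [w6.1, w6.2, w7.1, w7.2])
  have Wlo : ∀ r, s ≤ r → r ≤ t → ρ ^ 2 ≤ W r + ρ ^ 2 / 2 := fun r q1 q2 => Wup _ fun y y1 y2 => by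
    have i1 : ∀ d, d ≤ δ → M ^ 2 * (6 * K0 * ρ ^ 2) * d ≤ ρ ^ 2 / 2 := fun d hd => by
      have := mul_le_mul_of_nonneg_left hd (by positivity : 0 ≤ M ^ 2 * (6 * K0 * ρ ^ 2))
      nlinarith [mul_le_mul_of_nonneg_left δ2 (sq_nonneg ρ), sq_nonneg ρ]
    rcases le_total r y with q | q
    · linarith [(abs_le.1 (Wd r y q1 q y2)).2, i1 (y - r) (by linarith)]
    · linarith [(abs_le.1 (Wd y r y1 q q2)).1, i1 (r - y) (by linarith)]
  rcases eq_or_lt_of_le ρ0 with rfl | ρp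
  · rcases A.eq_empty_or_nonempty with rfl | ⟨v, hv⟩
    · simp
    · obtain ⟨-, -, -, e, he, f, hf, q⟩ := hF.vx v hv
      exact absurd (sub_eq_zero.1 (norm_le_zero_iff.1 (sp v (h.win v hv).1.le (h.win v hv).2 e
        (h.out_sub v he) f (h.out_sub v hf)).2)) q
  obtain ⟨R, hR⟩ : ∃ R : ℝ → ℝ, ∀ v, R v = ∑ e ∈ ends E σ v, ∑ f ∈ ends E σ v, ‖u e v - u f v‖ :=
    ⟨_, fun _ => rfl⟩
  have R0 : ∀ v ∈ A, 0 ≤ R v := fun v _ => by rw [hR]; positivity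
  have ar : ∀ j, ∑ v ∈ A, GG (fun e r => θ (u e r)) (fun e r => π j (u e r)) (ends E σ v) v ≤
      24 * M ^ 2 * ρ := by
    intro j
    have g1 : ∀ r, s ≤ r → r ≤ t → GG (fun e r => θ (u e r)) (fun e r => π j (u e r))
        (cut E σ τ r) r ≤ M ^ 2 * (4 * ρ) := fun r q1 q2 =>
      dsum_le _ _ (by positivity) (cM r q1 q2) fun e he f hf => by
        have := crb hθ (p1 j) (u e r - u f r) (u f r)
        rw [map_sub, map_sub, (hF.ode.der f (dc r f hf).1 r (dc r f hf).2.1 (dc r f hf).2.2).2.2.1]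
          at this
        refine le_trans (le_of_eq (by congr 1; ring)) (this.trans ?_)
        linarith [(sp r q1 q2 e he f hf).2]
    have := area h hst (fun e r => π j (x e r)) (fun e r => θ (u e r)) (fun e r => π j (u e r))
      (fun e r => θ (k e r)) (fun e r => π j (k e r)) (lam := 12 * C * ρ) M (by positivity)
      (fun v hv e f he hf => by beta_reduce; rw [(hF.vx v hv).1 e f he hf])
      (fun v hv => by simp only [← map_sum, (hF.vx v hv).2.2.1, and_self])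
      (fun e he r r1 r2 => by
        obtain ⟨d1, d2, -, d4, -⟩ := hF.ode.der e he r r1 r2
        exact ⟨α0.trans_le d4, ((π j).hasFDerivAt.comp_hasDerivAt r d1).congr_deriv
          (by rw [map_smul, smul_eq_mul, div_eq_inv_mul]), θ.hasFDerivAt.comp_hasDerivAt r d2,
          (π j).hasFDerivAt.comp_hasDerivAt r d2⟩)
      (fun r q1 q2 e he f hf => by
        obtain ⟨-, -, d3, -, d5, -⟩ := hF.ode.der f (dc r f hf).1 r (dc r f hf).2.1 (dc r f hf).2.2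
        have i1 := crb hθ (p1 j) (k e r - k f r) (u f r)
        have i2 := crb hθ (p1 j) (u e r - u f r) (k f r)
        have i3 := kl r q1 q2 e he f hf
        have i4 := mul_le_mul (sp r q1 q2 e he f hf).2 d5 (norm_nonneg _) ρ0
        rw [map_sub, map_sub] at i1 i2
        rw [d3] at i1
        obtain ⟨_, _⟩ := abs_le.1 i1
        obtain ⟨_, _⟩ := abs_le.1 i2
        rw [abs_le]; constructor <;> linarith) cM
    rw [sum_add_distrib] at this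
    have i1 := sum_nonneg (s := A) fun v _ =>
      GG_nonneg (fun e r => θ (u e r)) (fun e r => π j (u e r)) (ends E τ v) v
    have i2 : C * (t - s) ≤ 1 := by
      have : 0 ≤ 4 / α ^ 2 * δ := by positivity
      rw [hK0] at δ3
      nlinarith [mul_le_mul_of_nonneg_left hδt C0]
    have i3 := mul_le_mul_of_nonneg_left i2 (by positivity : 0 ≤ 12 * M ^ 2 * ρ)
    linarith [g1 s le_rfl hst, g1 t hst le_rfl]
  have aR : ∑ v ∈ A, R v ≤ L * ρ := by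
    have i1 : α * ∑ v ∈ A, R v ≤ 2 * ∑ j, ∑ v ∈ A,
        GG (fun e r => θ (u e r)) (fun e r => π j (u e r)) (ends E σ v) v := by
      rw [sum_comm, mul_sum, mul_sum]
      refine sum_le_sum fun v hv => ?_
      unfold GG
      rw [hR, sum_comm (s := univ), mul_sum, mul_sum]
      refine sum_le_sum fun e he => ?_
      rw [sum_comm (s := univ), mul_sum, mul_sum]
      refine sum_le_sum fun f hf => ?_
      have e1 := h.life (At.o (τ := τ) he)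
      have f1 := h.life (At.o (τ := τ) hf)
      refine (dirs (un v e (At.o he)) (un v f (At.o hf)) α0.le
        (hF.ode.der e (mem_ends.1 he).1 v e1.1 e1.2).2.2.2.1
        (α0.le.trans (hF.ode.der f (mem_ends.1 hf).1 v f1.1 f1.2).2.2.2.1)).trans
        (mul_le_mul_of_nonneg_left ((p2 _).trans (le_of_eq (sum_congr rfl fun j _ => ?_))) two_pos.le)
      rw [map_sub, map_smul, map_smul, smul_eq_mul, smul_eq_mul, mul_comm]
    have i2 := sum_le_card_nsmul univ _ _ fun j _ => ar j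
    rw [card_univ, Fintype.card_fin, nsmul_eq_mul] at i2
    rw [hL, div_mul_eq_mul_div, le_div_iff₀ α0]
    linarith
  have b1 := bad_card R0 Kp.le ρp aR
  have b2 := epoch A (fun v => ρ ≤ K * R v) (fun _ => True) s t (N' + N') ?_ hst
  · rw [filter_true_of_mem fun v hv => ⟨trivial, h.win v hv⟩] at b2
    exact b2.trans (add_le_add b1 (Nat.mul_le_mul_right _ (by omega)))
  intro s' t' q1 q2 q3 hw
  have hw' : ∀ v ∈ A, s' < v → v ≤ t' → K * R v ≤ ρ := fun v h1 h2 h3 =>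
    (not_le.1 (hw v h1 h2 h3)).le
  obtain ⟨η, hη⟩ : ∃ η, η = ρ / H := ⟨_, rfl⟩
  have η1 : η * H = ρ := by rw [hη]; field_simp
  have η0 : 0 < η := by rw [hη]; positivity
  have i0 : K0 * ρ * (t' - s') ≤ K0 * ρ * δ := mul_le_mul_of_nonneg_left (by linarith) (by positivity)
  have i1 : 56 * M * (K0 * ρ * δ) = η := by rw [← η1]; linear_combination η * δ1
  have key : ∀ (p : ι → ℝ → V) (j : Fin N), (∀ e ∈ E, ∀ f ∈ E, ∀ a b, s ≤ a → a ≤ b → b ≤ t →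
      σ e ≤ a → σ f ≤ a → b ≤ τ e → b ≤ τ f →
      ‖p e b - p f b - (p e a - p f a)‖ ≤ K0 * ρ * (b - a)) →
      (∀ v ∈ A, ∑ f ∈ ends E σ v, π j (p f v) = ∑ f ∈ ends E τ v, π j (p f v) ∧
        ∀ e f, At E σ τ v e → At E σ τ v f → ‖p f v - p e v‖ ≤ R v) →
      ∀ e ∈ cut E σ τ s', ∀ f ∈ cut E σ τ s', (M + 1) * (3 * η) < |π j (p e s' - p f s')| →
      (A.filter fun v => True ∧ s' < v ∧ v ≤ t').card ≤ N' + N' := by
    intro p j d1 d2 e he f hf hef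
    have main := fun e0 f0 => split h cnt (fun v hv => ⟨_, (hF.vx v hv).2.2.2.choose_spec.1⟩)
      (fun e r => π j (p e r)) M N' R q1 q2 q3 η0 (by positivity : 0 ≤ K0 * ρ) hc
      (fun e he f hf a b w1 w2 w3 w4 w5 w6 w7 => by
        simpa only [map_sub] using (p1 j _).trans (d1 e he f hf a b w1 w2 w3 w4 w5 w6 w7))
      (fun v hv => ⟨(d2 v hv).1, fun e f he hf => by
        simpa only [map_sub] using (p1 j _).trans ((d2 v hv).2 e f he hf)⟩)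
      (fun v hv w1 w2 => by
        have w3 := hw' v hv w1 w2
        have w4 := mul_le_mul_of_nonneg_right (by linarith : 4 * H ≤ K) (R0 v hv)
        exact le_of_mul_le_mul_right (by linarith : 4 * R v * H ≤ η * H) H0)
      (by nlinarith [mul_pos (mul_pos K00 ρp) δ0])
      (by
        have w1 := win_sum R0 (h := η ^ 2 / 2) (D := 8 * M) _ (filter_subset (fun v => s' < v ∧ v ≤ t') A)
          (by positivity) Kp ρp aR
          (fun v hv => hw' v (mem_filter.1 hv).1 (mem_filter.1 hv).2.1 (mem_filter.1 hv).2.2) (by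
            have := mul_lt_mul_of_pos_right (by linarith : 16 * M * L * H ^ 2 < K)
              (by positivity : 0 < η ^ 2)
            rw [← η1]; linarith)
        have w2 := mul_le_mul_of_nonneg_left i0 (by positivity : 0 ≤ 28 * M * η)
        nlinarith) (e0 := e0) (f0 := f0)
    have ih' : ∀ Z : ι → Prop, (∀ v ∈ A, s' < v → v ≤ t' → ∀ e f, At E σ τ v e → At E σ τ v f →
        Z e → Z f) → (∃ e ∈ cut E σ τ s', ¬ Z e) →
        (A.filter fun v => s' < v ∧ v ≤ t' ∧ ∃ e, At E σ τ v e ∧ Z e).card ≤ N' := by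
      rintro Z hZ ⟨e, he, z⟩
      obtain ⟨E', f1, f2⟩ := fb_sub h hF.ode q1 q2 q3 Z hZ fun v hv _ _ _ _ _ => hF.vx v hv
      refine ih E' _ s' t' f1 q2 (by linarith) ?_
      have := (card_lt_card ⟨fun f hf => (f2 f hf).1, fun hh => z (f2 e (hh he)).2⟩).trans_le
        (cM s' q1 (q2.trans q3))
      omega
    rw [map_sub] at hef
    rcases lt_abs.1 hef with z | z
    · exact main f e hf he (by linarith) ih'
    · exact main e f he hf (by linarith) ih'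
  by_contra hn
  have k1 : ∀ e ∈ cut E σ τ s', ∀ f ∈ cut E σ τ s', ‖x e s' - x f s'‖ ≤ N * ((M + 1) * (3 * η)) ∧
      ‖u e s' - u f s'‖ ≤ N * ((M + 1) * (3 * η)) := fun e he f hf => by
    have k2 : ∀ y : V, (∀ j, |π j y| ≤ (M + 1) * (3 * η)) → ‖y‖ ≤ N * ((M + 1) * (3 * η)) :=
      fun y hy => (p2 y).trans ((sum_le_card_nsmul univ _ _ fun j _ => hy j).trans
        (by rw [card_univ, Fintype.card_fin, nsmul_eq_mul]))
    refine ⟨k2 _ fun j => not_lt.1 fun z => hn (key x j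
      (fun e he f hf a b w1 w2 w3 w4 w5 w6 w7 => (pd e he f hf a b w1 w2 w3 w4 w5 w6 w7).1)
      (fun v hv => ⟨xb v hv (π j), fun e f he hf => by
        rw [(hF.vx v hv).1 e f he hf, sub_self, norm_zero]; exact R0 v hv⟩) e he f hf z),
      k2 _ fun j => not_lt.1 fun z => hn (key u j
      (fun e he f hf a b w1 w2 w3 w4 w5 w6 w7 => (pd e he f hf a b w1 w2 w3 w4 w5 w6 w7).2)
      (fun v hv => ⟨by simp only [← map_sum, (hF.vx v hv).2.2.1], fun e f he hf => ?_⟩) e he f hf z)⟩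
    rw [hR]
    exact vert _ _ (fun e => u e v) (fun e he => un v e (At.o he)) (fun e he => un v e (At.i he))
      (cnt v hv) (hF.vx v hv).2.2.1 (hf.2.imp (fun z => mem_ends.2 ⟨hf.1, z⟩)
        fun z => mem_ends.2 ⟨hf.1, z⟩) (he.2.imp (fun z => mem_ends.2 ⟨he.1, z⟩)
        fun z => mem_ends.2 ⟨he.1, z⟩)
  have k3 := dsum_le (cut E σ τ s') (fun e f => ‖x e s' - x f s'‖ ^ 2 + ‖u e s' - u f s'‖ ^ 2)
    (x := (N * ((M + 1) * (3 * η))) ^ 2 + (N * ((M + 1) * (3 * η))) ^ 2) (by positivity)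
    (cM s' q1 (q2.trans q3)) fun e he f hf =>
      add_le_add (pow_le_pow_left₀ (norm_nonneg _) (k1 e he f hf).1 2)
        (pow_le_pow_left₀ (norm_nonneg _) (k1 e he f hf).2 2)
  have k4 := Wlo s' q1 (q2.trans q3)
  have k5 : 3 * (M * (N * ((M + 1) * (3 * η)))) ≤ ρ := by
    rw [← η1, hH]
    nlinarith [mul_pos (mul_pos η0 (by linarith : (0 : ℝ) < M)) (by linarith : (0 : ℝ) < M + 1)]
  have k6 := pow_le_pow_left₀ (by positivity) k5 2
  rw [← hW] at k3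
  nlinarith [pow_pos ρp 2]

theorem flow {N : ℕ} (π : Fin N → V →L[ℝ] ℝ) (p1 : ∀ j v, |π j v| ≤ ‖v‖)
    (p2 : ∀ v, ‖v‖ ≤ ∑ j, |π j v|) {α C : ℝ} (α0 : 0 < α) (C0 : 0 ≤ C) (m : ℕ) :
    ∃ N' : ℕ, ∀ (ι : Type) (θ : V →L[ℝ] ℝ) (x u k : ι → ℝ → V) (E : Finset ι) (σ τ : ι → ℝ)
      (A : Finset ℝ) (s t : ℝ), (∀ v, |θ v| ≤ 2 * ‖v‖) → FB θ α C x u k E σ τ A s t → s ≤ t →
      t - s ≤ 1 → (cut E σ τ s).card ≤ m → A.card ≤ N' := by
  induction m with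
  | zero =>
    refine ⟨0, fun ι θ x u k E σ τ A s t _ hF _ _ hc => ?_⟩
    rw [Nat.le_zero, card_eq_zero, eq_empty_iff_forall_notMem]
    intro v hv
    obtain ⟨-, -, -, e, he, -⟩ := hF.vx v hv
    have := card_pos.2 ⟨e, hF.br.out_sub v he⟩
    rw [hF.br.card_eq (fun v hv => (hF.vx v hv).2.1) (hF.br.win v hv).1.le (hF.br.win v hv).2] at this
    omega
  | succ m ih =>
    obtain ⟨N', hN⟩ := ih
    obtain ⟨δ, δ0, N'', hs⟩ := short π p1 p2 α0 C0 m N'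
    refine ⟨⌈1 / δ⌉₊ * N'', fun ι θ x u k E σ τ A s t hθ hF hst h1 hc => ?_⟩
    have := pieces A (fun _ => True) s δ N'' δ0.le ⌈1 / δ⌉₊ t hst
      (h1.trans ((div_le_iff₀ δ0).1 (Nat.le_ceil _))) fun a b q1 q2 q3 q4 => by
      obtain ⟨E', f1, f2⟩ := fb_sub hF.br hF.ode q1 q2 q3 (fun _ => True)
        (fun _ _ _ _ _ _ _ _ _ => trivial) fun v hv _ _ _ _ _ => hF.vx v hv
      refine le_trans (card_le_card fun v hv => ?_) (hs ι θ x u k E' σ τ _ a b hθ f1 q2 q4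
        ((card_le_card fun e he => (f2 e he).1).trans ((hF.br.card_eq
          (fun v hv => (hF.vx v hv).2.1) q1 (q2.trans q3)).le.trans hc))
        fun E' A' s' t' w1 w2 w3 w4 => hN ι θ x u k E' σ τ A' s' t' hθ w1 w2 (by linarith) w4)
      obtain ⟨w1, -, w2, w3⟩ := mem_filter.1 hv
      obtain ⟨-, -, -, e, he, -⟩ := hF.vx v w1
      exact mem_filter.2 ⟨w1, w2, w3, e, At.o he, trivial⟩
    rwa [filter_true_of_mem fun v hv => ⟨trivial, hF.br.win v hv⟩] at this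

end Pool.Agent.H.MP_c30897_gt
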