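import Pool.Agent.H.MP_c30897_gt.D

set_option autoImplicit false

/-! Nets of curves with bounded and Lipschitz acceleration: basic estimates. -/

namespace Pool.Agent.H.MP_c30897_gt

open Finset Classical Filter Topology

variable {V : Type} [NormedAddCommGroup V] [InnerProductSpace ℝ V]

lemma exists_inv {T T' : ℝ → ℝ} (hT : ∀ s, HasDerivAt T (T' s) s) {lo hi α : ℝ} (α0 : 0 < α)
    (h : ∀ s, lo ≤ s → s ≤ hi → α ≤ T' s) : ∃ S : ℝ → ℝ, (∀ s, lo ≤ s → s ≤ hi → S (T s) = s) ∧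
      (∀ s s', lo ≤ s → s < s' → s' ≤ hi → T s < T s') ∧
      ∀ r, lo ≤ hi → T lo < r → r < T hi → lo ≤ S r ∧ S r ≤ hi ∧ HasDerivAt S (T' (S r))⁻¹ r := by
  have ex : ∀ s s', lo ≤ s → s ≤ s' → s' ≤ hi → α * (s' - s) ≤ T s' - T s := fun s s' q1 q2 q3 => by
    rcases q2.eq_or_lt with rfl | q2
    · simp
    obtain ⟨r, r1, r2, e⟩ := mvt0 q2 fun r _ _ => hT r
    rw [e]
    exact mul_le_mul_of_nonneg_right (h r (by linarith) (by linarith)) (by linarith)
  have mo : ∀ s s', lo ≤ s → s < s' → s' ≤ hi → T s < T s' := fun s s' q1 q2 q3 => by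
    nlinarith [ex s s' q1 q2.le q3]
  have inj : Set.InjOn T (Set.Icc lo hi) :=
    StrictMonoOn.injOn fun s hs s' hs' q => mo s s' hs.1 q hs'.2
  refine ⟨Function.invFunOn T (Set.Icc lo hi), fun s q1 q2 => inj.leftInvOn_invFunOn ⟨q1, q2⟩, mo,
    fun r q0 q1 q2 => ?_⟩
  have sj : ∀ y ∈ Set.Icc (T lo) (T hi), Function.invFunOn T (Set.Icc lo hi) y ∈ Set.Icc lo hi ∧
      T (Function.invFunOn T (Set.Icc lo hi) y) = y := fun y hy => Function.invFunOn_pos
    (intermediate_value_Icc q0 (fun s _ => (hT s).continuousAt.continuousWithinAt) hy)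
  generalize Function.invFunOn T (Set.Icc lo hi) = S at sj
  have nb : Set.Icc (T lo) (T hi) ∈ 𝓝 r := Icc_mem_nhds q1 q2
  have hr := sj r ⟨q1.le, q2.le⟩
  refine ⟨hr.1.1, hr.1.2, HasDerivAt.of_local_left_inverse ?_ (hT _)
    (α0.trans_le (h _ hr.1.1 hr.1.2)).ne' (mem_of_superset nb fun y hy => (sj y hy).2)⟩
  refine (LipschitzOnWith.continuousOn (K := α⁻¹.toNNReal)
    (LipschitzOnWith.of_dist_le_mul fun y hy z hz => ?_)).continuousAt nb
  obtain ⟨y1, y2⟩ := sj y hy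
  obtain ⟨z1, z2⟩ := sj z hz
  rw [Real.dist_eq, Real.dist_eq, Real.coe_toNNReal _ (by positivity), inv_mul_eq_div, le_div_iff₀ α0]
  rcases le_total (S y) (S z) with q | q
  · have := ex _ _ y1.1 q z1.2
    rw [y2, z2] at this
    rw [abs_sub_comm, abs_of_nonneg (sub_nonneg.2 q), abs_sub_comm]
    linarith [le_abs_self (z - y)]
  · have := ex _ _ z1.1 q y1.2
    rw [y2, z2] at this
    rw [abs_of_nonneg (sub_nonneg.2 q)]
    linarith [le_abs_self (y - z)]

lemma generic (D : Finset V) (hD : ∀ z ∈ D, z ≠ 0) (φ0 : V →L[ℝ] ℝ) : ∀ ε : ℝ, 0 < ε →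
    ∃ φ : V →L[ℝ] ℝ, (∀ v, |φ v - φ0 v| ≤ ε * ‖v‖) ∧ ∀ z ∈ D, φ z ≠ 0 := by
  induction D using Finset.induction_on with
  | empty => exact fun ε h => ⟨φ0, fun v => by simp; positivity, by simp⟩
  | insert z D _ ih =>
    intro ε h
    obtain ⟨φ, h1, h2⟩ := ih (fun y hy => hD y (mem_insert_of_mem hy)) (ε / 2) (by positivity)
    have z0 := norm_pos_iff.2 (hD z (mem_insert_self _ _))
    obtain ⟨s, ⟨s1, s2⟩, s3⟩ := (Set.Ioo_infinite (by positivity : 0 < ε / (2 * ‖z‖))).exists_notMem_finset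
      ((insert z D).image fun y => -φ y / inner ℝ z y)
    refine ⟨φ + s • innerSL ℝ z, fun v => ?_, fun y hy e => ?_⟩
    · have e1 := abs_real_inner_le_norm z v
      have e2 := abs_add_le (φ v - φ0 v) (s * inner ℝ z v)
      rw [lt_div_iff₀ (by positivity)] at s2
      rw [abs_mul, abs_of_pos s1] at e2
      simp only [ContinuousLinearMap.add_apply, ContinuousLinearMap.smul_apply, innerSL_apply_apply,
        smul_eq_mul]
      rw [add_sub_right_comm]
      nlinarith [h1 v, norm_nonneg v]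
    · simp only [ContinuousLinearMap.add_apply, ContinuousLinearMap.smul_apply, innerSL_apply_apply,
        smul_eq_mul] at e
      by_cases q : inner ℝ z y = 0
      · rcases mem_insert.1 hy with rfl | hy
        · exact z0.ne' (by simpa using q)
        · exact h2 y hy (by simpa [q] using e)
      · exact s3 (mem_image.2 ⟨y, hy, by rw [div_eq_iff q]; linarith⟩)

lemma pert {θ : V →L[ℝ] ℝ} (hθ : ∀ v, |θ v| ≤ 2 * ‖v‖) {p q p' q' : V} {ε : ℝ} (h1 : ‖p‖ = 1)
    (h2 : ‖q‖ = 1) (h3 : ‖p'‖ ≤ 1) (h4 : ‖q'‖ ≤ 1) (h5 : ‖p' - p‖ ≤ ε) (h6 : ‖q' - q‖ ≤ ε) :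
    ‖θ q • p - θ p • q‖ ≤ ‖θ q' • p' - θ p' • q'‖ + 8 * ε := by
  have e : θ q • p - θ p • q = (θ q' • p' - θ p' • q') + ((θ (p' - p) • q - θ (q' - q) • p) +
      (θ p' • (q' - q) - θ q' • (p' - p))) := by
    rw [map_sub, map_sub]; module
  rw [e]
  refine (norm_add_le _ _).trans (add_le_add le_rfl ((norm_add_le _ _).trans
    ((add_le_add (norm_sub_le _ _) (norm_sub_le _ _)).trans ?_)))
  simp only [norm_smul, Real.norm_eq_abs, h1, h2]
  have := mul_le_mul ((hθ p').trans (by linarith : _ ≤ (2 : ℝ))) h6 (norm_nonneg _) two_pos.le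
  have := mul_le_mul ((hθ q').trans (by linarith : _ ≤ (2 : ℝ))) h5 (norm_nonneg _) two_pos.le
  linarith [hθ (p' - p), hθ (q' - q)]

structure Net (C : ℝ) {H : Type} [Fintype H] (c d w : H → ℝ → V) (l : H → ℝ) (st : H → H)
    (Vs : Finset V) : Prop where
  der : ∀ h s, HasDerivAt (c h) (d h s) s ∧ HasDerivAt (d h) (w h s) s ∧ ‖d h s‖ = 1 ∧
    ‖w h s‖ ≤ C ∧ ‖c h s‖ ≤ C
  lip : ∀ h g s r, ‖w h s - w g r‖ ≤ C * (‖c h s - c g r‖ + ‖d h s - d g r‖)
  pos : ∀ h, 0 < l h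
  inv : ∀ h, st (st h) = h
  stl : ∀ h, l (st h) = l h
  stc : ∀ h, c (st h) 0 = c h (l h)
  std : ∀ h, d (st h) 0 = -d h (l h)
  mem : ∀ h, c h 0 ∈ Vs
  bal : ∀ v ∈ Vs, ∑ h with c h 0 = v, d h 0 = 0
  deg : ∀ v ∈ Vs, 3 ≤ (univ.filter fun h => c h 0 = v).card
  inj : ∀ h g, c h 0 = c g 0 → d h 0 = d g 0 → h = g

noncomputable def avg {H : Type} (c : H → ℝ → V) (l : H → ℝ) (h : H) : V :=
  (l h)⁻¹ • (c h (l h) - c h 0)

variable {C : ℝ} {H : Type} [Fintype H] {c d w : H → ℝ → V} {l : H → ℝ} {st : H → H}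
  {Vs : Finset V}

lemma Net.drift (n : Net C c d w l st Vs) (h : H) (s r : ℝ) : ‖d h s - d h r‖ ≤ C * |s - r| := by
  rcases le_total r s with q | q
  · rw [abs_of_nonneg (sub_nonneg.2 q)]
    exact mvt q (fun y _ _ => (n.der h y).2.1) fun y _ _ => (n.der h y).2.2.2.1
  · rw [norm_sub_rev, abs_sub_comm, abs_of_nonneg (sub_nonneg.2 q)]
    exact mvt q (fun y _ _ => (n.der h y).2.1) fun y _ _ => (n.der h y).2.2.2.1

lemma Net.avg_st (n : Net C c d w l st Vs) (h : H) : avg c l (st h) = -avg c l h := by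
  unfold avg
  rw [← n.stc (st h), n.inv, n.stc, n.stl, ← smul_neg, neg_sub]

lemma Net.avg_le (n : Net C c d w l st Vs) (h : H) : ‖avg c l h‖ ≤ 1 := by
  have := mvt (n.pos h).le (fun y _ _ => (n.der h y).1) fun y _ _ => (n.der h y).2.2.1.le
  rw [avg, norm_smul, norm_inv, Real.norm_of_nonneg (n.pos h).le, inv_mul_le_iff₀ (n.pos h)]
  linarith

lemma Net.avg_sub (n : Net C c d w l st Vs) (h : H) : ‖avg c l h - d h 0‖ ≤ C * l h := by
  have C0 : 0 ≤ C := (norm_nonneg _).trans (n.der h 0).2.2.2.1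
  have := mvt (f := fun s => c h s - s • d h 0) (C := C * l h) (n.pos h).le
    (fun y _ _ => (n.der h y).1.sub ((hasDerivAt_id y).smul_const (d h 0))) fun y y1 y2 => by
      rw [one_smul]
      refine (n.drift h y 0).trans (mul_le_mul_of_nonneg_left ?_ C0)
      rw [sub_zero, abs_of_nonneg y1]; exact y2.le
  have e : avg c l h - d h 0 = (l h)⁻¹ • (c h (l h) - l h • d h 0 - (c h 0 - (0 : ℝ) • d h 0)) := by
    have := (n.pos h).ne'
    unfold avg
    match_scalars <;> field_simp <;> ring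
  rw [e, norm_smul, norm_inv, Real.norm_of_nonneg (n.pos h).le, inv_mul_le_iff₀ (n.pos h)]
  linarith

lemma Net.avg_sub' (n : Net C c d w l st Vs) (h : H) : ‖avg c l h - d h (l h)‖ ≤ C * l h := by
  have := n.avg_sub (st h)
  rwa [n.avg_st, n.std, n.stl, neg_sub_neg, norm_sub_rev] at this

lemma Net.avg_th (n : Net C c d w l st Vs) (θ : V →L[ℝ] ℝ) (h : H) :
    θ (avg c l h) * l h = θ (c h (l h)) - θ (c h 0) := by
  have := (n.pos h).ne'
  rw [avg, map_smul, map_sub, smul_eq_mul]; field_simp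

lemma Net.cross (n : Net C c d w l st Vs) {θ : V →L[ℝ] ℝ} (hθ : ∀ v, |θ v| ≤ 2 * ‖v‖) (r : ℝ) :
    ∑ h with θ (c h 0) ≤ r ∧ r < θ (c h (l h)), θ (avg c l h) ≤ 2 * C * ∑ h, l h := by
  have e1 : ∑ h with θ (c h 0) ≤ r, d h 0 = 0 := by
    rw [← sum_fiberwise_of_maps_to (t := Vs.filter fun v => θ v ≤ r) (g := fun h => c h 0)
      fun h hh => mem_filter.2 ⟨n.mem h, (mem_filter.1 hh).2⟩]
    refine sum_eq_zero fun v hv => ?_
    rw [← n.bal v (mem_filter.1 hv).1, filter_filter]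
    exact sum_congr (filter_congr fun h _ =>
      ⟨fun z => z.2, fun z => ⟨z.symm ▸ (mem_filter.1 hv).2, z⟩⟩) fun _ _ => rfl
  have e2 : ∑ h with θ (c h 0) ≤ r ∧ ¬ r < θ (c h (l h)), θ (avg c l h) = 0 := by
    have k : ∀ h ∈ univ.filter fun h => θ (c h 0) ≤ r ∧ ¬ r < θ (c h (l h)),
        st h ∈ univ.filter fun h => θ (c h 0) ≤ r ∧ ¬ r < θ (c h (l h)) := fun h hh => by
      simp only [mem_filter, mem_univ, true_and, not_lt] at hh ⊢
      rw [← n.stc (st h), n.inv, n.stc]; exact hh.symm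
    have := sum_nbij' (f := fun h => θ (avg c l h)) (g := fun h => -θ (avg c l h)) st st k k
      (fun h _ => n.inv h) (fun h _ => n.inv h) fun h _ => by rw [n.avg_st, map_neg, neg_neg]
    rw [sum_neg_distrib] at this
    linarith
  have e3 := sum_filter_add_sum_filter_not (univ.filter fun h => θ (c h 0) ≤ r)
    (fun h => r < θ (c h (l h))) fun h => θ (avg c l h)
  rw [filter_filter, filter_filter, e2, add_zero] at e3
  have e4 := congrArg θ e1
  rw [map_sum, map_zero] at e4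
  rw [e3, ← (sub_eq_self (a := ∑ h with θ (c h 0) ≤ r, θ (avg c l h))).2 e4, ← sum_sub_distrib,
    mul_sum]
  have b : ∀ h, |θ (avg c l h) - θ (d h 0)| ≤ 2 * C * l h := fun h => by
    rw [← map_sub]; linarith [hθ (avg c l h - d h 0), n.avg_sub h]
  exact (sum_le_sum fun h _ => (abs_le.1 (b h)).2).trans (sum_le_sum_of_subset_of_nonneg
    (filter_subset _ _) fun h _ _ => (abs_nonneg _).trans (b h))

lemma Net.degree (n : Net C c d w l st Vs) {N : ℕ} (π : Fin N → V →L[ℝ] ℝ)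
    (p1 : ∀ j v, |π j v| ≤ ‖v‖) (p2 : ∀ v, ‖v‖ ≤ ∑ j, |π j v|) (C0 : 0 ≤ C) (v : V) :
    ((univ.filter fun h => c h 0 = v).card : ℝ) ≤ (4 * N + 1) * C * ∑ h, l h := by
  have k : ∀ θ : V →L[ℝ] ℝ, (∀ v, |θ v| ≤ ‖v‖) →
      ∑ h with c h 0 = v, max (θ (avg c l h)) 0 ≤ 2 * C * ∑ h, l h := fun θ hθ => by
    refine le_trans ?_ (n.cross (fun v => (hθ v).trans (by linarith [norm_nonneg v])) (θ v))
    simp only [sum_filter]
    refine sum_le_sum fun h _ => ?_
    have q1 := n.avg_th θ h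
    have q2 := n.pos h
    split_ifs with z1 z2 z2
    · exact max_le le_rfl (by rw [← z1] at z2; nlinarith [z2.2])
    · rw [← z1, not_and, not_lt] at z2
      exact max_le (by nlinarith [z2 le_rfl]) le_rfl
    · nlinarith [z2.1, z2.2]
    · exact le_rfl
  have k2 : ∀ j, ∑ h with c h 0 = v, |π j (avg c l h)| ≤ 4 * C * ∑ h, l h := fun j => by
    have q1 := k (π j) (p1 j)
    have q2 := k (-π j) fun v => by simpa using p1 j v
    refine le_trans (le_of_eq ?_) ((add_le_add q1 q2).trans (by linarith))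
    rw [← sum_add_distrib]
    refine sum_congr rfl fun h _ => ?_
    rw [ContinuousLinearMap.neg_apply, max_zero_add_max_neg_zero_eq_abs_self]
  have k3 := sum_le_card_nsmul univ _ _ fun j _ => k2 j
  rw [card_univ, Fintype.card_fin, nsmul_eq_mul, sum_comm] at k3
  have k4 := card_nsmul_le_sum (univ.filter fun h => c h 0 = v)
    (fun h => ∑ j, |π j (avg c l h)| + C * l h) 1 fun h _ => by
      have := norm_sub_norm_le (d h 0) (avg c l h)
      rw [norm_sub_rev, (n.der h 0).2.2.1] at this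
      linarith [n.avg_sub h, p2 (avg c l h)]
  have k5 : ∑ h with c h 0 = v, l h ≤ ∑ h, l h :=
    sum_le_sum_of_subset_of_nonneg (filter_subset _ _) fun h _ _ => (n.pos h).le
  rw [sum_add_distrib, ← mul_sum, nsmul_eq_mul] at k4
  nlinarith

lemma Net.three (n : Net C c d w l st Vs) {θ : V →L[ℝ] ℝ}
    (hg : ∀ v ∈ Vs, ∀ y ∈ Vs, θ v = θ y → v = y) {G : Type} [AddCommMonoid G] (F : H → G) {v : V}
    (hv : v ∈ Vs) : ∑ h with c h 0 = v, F h =
      ∑ h ∈ ends (univ.filter fun h => θ (c h 0) < θ (c h (l h))) (fun h => θ (c h 0)) (θ v), F h +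
      ∑ h ∈ ends (univ.filter fun h => θ (c h 0) < θ (c h (l h))) (fun h => θ (c h (l h))) (θ v),
        F (st h) + ∑ h with c h 0 = v ∧ avg c l h = 0, F h := by
  have e0 : ∀ h, θ (c h 0) = θ v ↔ c h 0 = v := fun h => ⟨hg _ (n.mem h) v hv, fun z => by rw [z]⟩
  have e1 : ∑ h ∈ ends (univ.filter fun h => θ (c h 0) < θ (c h (l h))) (fun h => θ (c h (l h)))
      (θ v), F (st h) = ∑ h with θ (c h (l h)) < θ (c h 0) ∧ c h 0 = v, F h := by
    refine sum_nbij' st st (fun h hh => ?_) (fun h hh => ?_) (fun h _ => n.inv h)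
      (fun h _ => n.inv h) fun h _ => rfl <;>
      simp only [mem_ends, mem_filter, mem_univ, true_and, ← e0] at hh ⊢ <;>
      rw [← n.stc (st h), n.inv, n.stc] <;> exact hh
  rw [e1, ends, filter_filter]
  simp only [sum_filter, ← sum_add_distrib, e0]
  refine sum_congr rfl fun h _ => ?_
  have e2 : avg c l h = 0 ↔ θ (c h (l h)) = θ (c h 0) := by
    refine ⟨fun z => ?_, fun z => ?_⟩
    · have := n.avg_th θ h
      rw [z, map_zero] at this; linarith
    · rw [avg, hg _ (n.stc h ▸ n.mem (st h)) _ (n.mem h) z, sub_self, smul_zero]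
  rw [e2]
  by_cases z : c h 0 = v
  · rcases lt_trichotomy (θ (c h 0)) (θ (c h (l h))) with q | q | q
    · rw [if_pos z, if_pos ⟨q, z⟩, if_neg fun y => lt_asymm q y.1, if_neg fun y => q.ne' y.2]; simp
    · rw [if_pos z, if_neg fun y => q.not_lt y.1, if_neg fun y => q.not_gt y.1, if_pos ⟨z, q.symm⟩]
      simp
    · rw [if_pos z, if_neg fun y => lt_asymm q y.1, if_pos ⟨q, z⟩, if_neg fun y => q.ne y.2]; simp
  · simp [z]

end Pool.Agent.H.MP_c30897_gt
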