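import Pool.Agent.H.MP_c30897_gt.E

set_option autoImplicit false

/-! From nets to braids. -/

namespace Pool.Agent.H.MP_c30897_gt

open Finset Classical

variable {V : Type} [NormedAddCommGroup V] [InnerProductSpace ℝ V]
variable {C : ℝ} {H : Type} [Fintype H] {c d w : H → ℝ → V} {l : H → ℝ} {st : H → H}
  {Vs : Finset V} {θ : V →L[ℝ] ℝ}

def sg (θ : V →L[ℝ] ℝ) (c : H → ℝ → V) (h : H) : ℝ := θ (c h 0)

def ta (θ : V →L[ℝ] ℝ) (c : H → ℝ → V) (l : H → ℝ) (h : H) : ℝ := θ (c h (l h))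

noncomputable def Ep (θ : V →L[ℝ] ℝ) (c : H → ℝ → V) (l : H → ℝ) : Finset H :=
  univ.filter fun h => sg θ c h < ta θ c l h

lemma Net.ode (n : Net C c d w l st Vs) (hθ : ∀ v, |θ v| ≤ 2 * ‖v‖) {β : ℝ} (β0 : 0 < β)
    (C1 : 1 ≤ C) (E : Finset H) (hE : ∀ h ∈ E, 4 * C * l h ≤ β ∧ 2 * β ≤ θ (d h 0)) :
    ∃ x u k : H → ℝ → V, Ode θ β (C / β + 2 * C / β ^ 2 + C) x u k E (sg θ c) (ta θ c l) ∧
      ∀ h ∈ E, x h (sg θ c h) = c h 0 ∧ u h (sg θ c h) = d h 0 ∧ x h (ta θ c l h) = c h (l h) ∧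
        u h (ta θ c l h) = d h (l h) := by
  obtain ⟨δ, hδ⟩ : ∃ δ, δ = β / (4 * C) := ⟨_, rfl⟩
  have δ0 : 0 < δ := by rw [hδ]; positivity
  have δ1 : 4 * C * δ = β := by rw [hδ]; field_simp
  have lo : ∀ h ∈ E, ∀ s, -δ ≤ s → s ≤ 2 * δ → β ≤ θ (d h s) := fun h hh s s1 s2 => by
    have e1 := (abs_le.1 (hθ (d h s - d h 0))).1
    have e2 := n.drift h s 0
    have e3 : |s - 0| ≤ 2 * δ := abs_le.2 ⟨by linarith, by linarith⟩
    rw [map_sub] at e1
    nlinarith [(hE h hh).2]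
  have : ∀ h, ∃ S : ℝ → ℝ, h ∈ E → S (sg θ c h) = 0 ∧ S (ta θ c l h) = l h ∧ ∀ r, sg θ c h ≤ r →
      r ≤ ta θ c l h → β ≤ θ (d h (S r)) ∧ HasDerivAt S (θ (d h (S r)))⁻¹ r := fun h => by
    by_cases hh : h ∈ E
    swap
    · exact ⟨id, fun z => absurd z hh⟩
    have l1 : l h ≤ δ := le_of_mul_le_mul_left (by linarith [(hE h hh).1]) (by positivity : 0 < 4 * C)
    have l0 := n.pos h
    obtain ⟨S, s1, s2, s3⟩ := exists_inv (T := fun s => θ (c h s)) (T' := fun s => θ (d h s))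
      (fun s => θ.hasFDerivAt.comp_hasDerivAt s (n.der h s).1) β0 (lo h hh)
    refine ⟨S, fun _ => ⟨s1 0 (by linarith) (by linarith), s1 _ (by linarith) (by linarith),
      fun r r1 r2 => ?_⟩⟩
    obtain ⟨q1, q2, q3⟩ := s3 r (by linarith)
      ((s2 (-δ) 0 le_rfl (by linarith) (by linarith)).trans_le r1)
      (r2.trans_lt (s2 (l h) (2 * δ) (by linarith) (by linarith) le_rfl))
    exact ⟨lo h hh _ q1 q2, q3⟩
  choose S hS using this
  have i1 : 0 ≤ C / β := by positivity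
  have i2 : 0 ≤ 2 * C / β ^ 2 := by positivity
  refine ⟨fun h r => c h (S h r), fun h r => d h (S h r),
    fun h r => (θ (d h (S h r)))⁻¹ • w h (S h r), ⟨fun h hh r r1 r2 => ?_,
    fun h hh g hg r r1 r2 r3 r4 => ?_⟩, fun h hh => by simp only [(hS h hh).1, (hS h hh).2.1, and_self]⟩
  · obtain ⟨q1, q2⟩ := (hS h hh).2.2 r r1 r2
    obtain ⟨d1, d2, d3, d4, d5⟩ := n.der h (S h r)
    refine ⟨d1.scomp r q2, d2.scomp r q2, d3, q1, ?_, by linarith⟩
    rw [norm_smul, norm_inv, Real.norm_of_nonneg (by linarith), inv_mul_eq_div]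
    linarith [div_le_div₀ (by linarith) d4 β0 q1]
  · obtain ⟨q1, -⟩ := (hS h hh).2.2 r r1 r2
    obtain ⟨q2, -⟩ := (hS g hg).2.2 r r3 r4
    have e1 := n.lip h g (S h r) (S g r)
    have e2 := hθ (d h (S h r) - d g (S g r))
    have e3 := (n.der g (S g r)).2.2.2.1
    rw [map_sub, abs_sub_comm] at e2
    have a0 := β0.trans_le q1
    have b0 := β0.trans_le q2
    generalize θ (d h (S h r)) = a at *
    generalize θ (d g (S g r)) = b at *
    have n1 := norm_nonneg (c h (S h r) - c g (S g r))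
    have n2 := norm_nonneg (d h (S h r) - d g (S g r))
    generalize ‖c h (S h r) - c g (S g r)‖ = X at *
    generalize ‖d h (S h r) - d g (S g r)‖ = Y at *
    have e4 : a⁻¹ • w h (S h r) - b⁻¹ • w g (S g r) =
        a⁻¹ • (w h (S h r) - w g (S g r)) + ((b - a) / (a * b)) • w g (S g r) := by
      match_scalars <;> field_simp <;> ring
    rw [e4]
    refine (norm_add_le _ _).trans ?_
    rw [norm_smul, norm_smul, norm_inv, Real.norm_of_nonneg a0.le, inv_mul_eq_div, Real.norm_eq_abs,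
      abs_div, abs_of_pos (mul_pos a0 b0)]
    have e5 := div_le_div₀ (by positivity) e1 β0 q1
    have e6 := mul_le_mul (div_le_div₀ (by positivity) e2 (by positivity : 0 < β ^ 2)
      (by nlinarith : β ^ 2 ≤ a * b)) e3 (norm_nonneg _) (by positivity)
    have e7 : C * (X + Y) / β = C / β * (X + Y) := by ring
    have e8 : 2 * Y / β ^ 2 * C = 2 * C / β ^ 2 * Y := by ring
    nlinarith [mul_nonneg i2 n1]

lemma Net.thick (n : Net C c d w l st Vs) {N : ℕ} (π : Fin N → V →L[ℝ] ℝ)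
    (p1 : ∀ j v, |π j v| ≤ ‖v‖) (p2 : ∀ v, ‖v‖ ≤ ∑ j, |π j v|) (hθ : ∀ v, |θ v| ≤ 2 * ‖v‖)
    (hg : ∀ v ∈ Vs, ∀ y ∈ Vs, θ v = θ y → v = y) (C1 : 1 ≤ C) :
    ∃ η : ℝ → ℝ, ∑ r ∈ Vs.image θ, η r ≤ N * (8 * (3 * C * ∑ h, l h) ^ 2) + 8 * C * ∑ h, l h ∧
      ∀ v ∈ Vs, (∀ h, c h 0 = v → 8 * C * l h ≤ η (θ v)) ∧
      (∀ e ∈ ends (Ep θ c l) (sg θ c) (θ v), ∀ f ∈ ends (Ep θ c l) (sg θ c) (θ v),
        ‖θ (d f 0) • d e 0 - θ (d e 0) • d f 0‖ ≤ η (θ v)) ∧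
      ∀ e ∈ ends (Ep θ c l) (ta θ c l) (θ v), ∀ f ∈ ends (Ep θ c l) (ta θ c l) (θ v),
        ‖θ (d f (l f)) • d e (l e) - θ (d e (l e)) • d f (l f)‖ ≤ η (θ v) := by
  obtain ⟨lam, hl⟩ : ∃ lam : ℝ → ℝ, ∀ r, lam r = ∑ h with θ (c h 0) = r, l h := ⟨_, fun _ => rfl⟩
  have e0 : ∀ v ∈ Vs, (univ.filter fun h => θ (c h 0) = θ v) = univ.filter fun h => c h 0 = v :=
    fun v hv => filter_congr fun h _ => ⟨hg _ (n.mem h) v hv, fun z => by rw [z]⟩
  have l1 : ∑ r ∈ Vs.image θ, lam r = ∑ h, l h := by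
    simp only [hl]
    exact sum_fiberwise_of_maps_to (fun h _ => mem_image_of_mem _ (n.mem h)) _
  have l2 : ∀ h, l h ≤ lam (θ (c h 0)) := fun h => by
    rw [hl]
    exact single_le_sum (fun h _ => (n.pos h).le) (mem_filter.2 ⟨mem_univ _, rfl⟩)
  have m2 : ∀ h, c h (l h) ∈ Vs := fun h => n.stc h ▸ n.mem (st h)
  obtain ⟨G, hG⟩ : ∃ G : Fin N → ℝ → ℝ, ∀ j r, G j r =
    GG (fun e _ => θ (avg c l e)) (fun e _ => π j (avg c l e)) (ends (Ep θ c l) (sg θ c) r) r +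
    GG (fun e _ => θ (avg c l e)) (fun e _ => π j (avg c l e)) (ends (Ep θ c l) (ta θ c l) r) r :=
    ⟨_, fun _ _ => rfl⟩
  have X : ∀ v ∈ Vs, Function.invFunOn θ (Vs : Set V) (θ v) = v := fun v hv =>
    Set.InjOn.leftInvOn_invFunOn (fun v hv y hy => hg v hv y hy) hv
  have ar : ∀ j, ∑ r ∈ Vs.image θ, G j r ≤ 8 * (3 * C * ∑ h, l h) ^ 2 := fun j => by
    simp only [hG]
    rw [← l1, mul_sum]
    refine area_imb _ _ _ _ (fun r => π j (Function.invFunOn θ (Vs : Set V) r)) _ _ _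
      (fun e he => ?_) fun r hr => ?_
    · have q1 := (mem_filter.1 he).2
      have q2 := n.avg_th θ e
      have q3 := n.avg_th (π j) e
      have q4 := n.pos e
      unfold sg ta at *
      refine ⟨mem_image_of_mem _ (n.mem e), mem_image_of_mem _ (m2 e), q1, by nlinarith, ?_⟩
      rw [X _ (n.mem e), X _ (m2 e), ← q2, ← q3]; ring
    · obtain ⟨v, hv, rfl⟩ := mem_image.1 hr
      have q1 := n.three hg (avg c l) hv
      rw [sum_eq_zero (s := univ.filter fun h => c h 0 = v ∧ avg c l h = 0)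
        fun h hh => (mem_filter.1 hh).2.2, add_zero] at q1
      simp only [n.avg_st, sum_neg_distrib, ← sub_eq_add_neg] at q1
      have q2 : ‖∑ h with c h 0 = v, avg c l h‖ ≤ C * lam (θ v) := by
        rw [← sub_zero (∑ h with c h 0 = v, avg c l h), ← n.bal v hv, ← sum_sub_distrib, hl, e0 v hv,
          mul_sum]
        exact (norm_sum_le _ _).trans (sum_le_sum fun h _ => n.avg_sub h)
      obtain ⟨h, hh⟩ := card_pos.1 (lt_of_lt_of_le (by norm_num) (n.deg v hv))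
      have q3 := (n.pos h).trans_le (l2 h)
      rw [(mem_filter.1 hh).2] at q3
      have q4 := hθ (∑ h with c h 0 = v, avg c l h)
      have q5 := p1 j (∑ h with c h 0 = v, avg c l h)
      have q6 : 0 < C * lam (θ v) := by positivity
      rw [q1] at q2 q4 q5
      rw [map_sub, map_sum, map_sum] at q4 q5
      exact ⟨q4.trans_lt (by linarith), q5.trans (by linarith)⟩
  have G0 : ∀ j r, 0 ≤ G j r := fun j r => by
    rw [hG]; exact add_nonneg (GG_nonneg _ _ _ _) (GG_nonneg _ _ _ _)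
  have key : ∀ (I : Finset H) (r : ℝ), (∀ j, GG (fun e _ => θ (avg c l e))
      (fun e _ => π j (avg c l e)) I r ≤ G j r) → ∀ e ∈ I, ∀ f ∈ I,
      ‖θ (avg c l f) • avg c l e - θ (avg c l e) • avg c l f‖ ≤ ∑ j, G j r := by
    intro I r hI e he f hf
    refine (p2 _).trans (sum_le_sum fun j _ => le_trans ?_ (hI j))
    rw [map_sub, map_smul, map_smul, smul_eq_mul, smul_eq_mul, mul_comm]
    exact (single_le_sum (f := fun f => |π j (avg c l e) * θ (avg c l f) -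
      θ (avg c l e) * π j (avg c l f)|) (fun _ _ => abs_nonneg _) hf).trans
      (single_le_sum (f := fun e => ∑ f ∈ I, |π j (avg c l e) * θ (avg c l f) -
      θ (avg c l e) * π j (avg c l f)|) (fun _ _ => by positivity) he)
  have C0 : 0 ≤ C := by linarith
  refine ⟨fun r => ∑ j, G j r + 8 * (C * lam r), ?_, fun v hv => ⟨fun h hh => ?_,
    fun e he f hf => ?_, fun e he f hf => ?_⟩⟩
  · rw [sum_add_distrib, ← mul_sum, ← mul_sum, l1, sum_comm, mul_assoc 8 C]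
    refine add_le_add ((sum_le_card_nsmul _ _ _ fun j _ => ar j).trans ?_) le_rfl
    rw [card_univ, Fintype.card_fin, nsmul_eq_mul]
  · have := mul_le_mul_of_nonneg_left (l2 h) C0
    rw [hh] at this
    linarith [sum_nonneg (s := univ) fun j _ => G0 j (θ v)]
  · have k : ∀ e ∈ ends (Ep θ c l) (sg θ c) (θ v), ‖avg c l e - d e 0‖ ≤ C * lam (θ v) := fun e he =>
      (n.avg_sub e).trans (mul_le_mul_of_nonneg_left ((mem_ends.1 he).2 ▸ l2 e) C0)
    exact (pert hθ (n.der e 0).2.2.1 (n.der f 0).2.2.1 (n.avg_le e) (n.avg_le f) (k e he)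
      (k f hf)).trans (add_le_add (key _ _ (fun j => by
        rw [hG]; exact le_add_of_nonneg_right (GG_nonneg _ _ _ _)) e he f hf) le_rfl)
  · have k : ∀ e ∈ ends (Ep θ c l) (ta θ c l) (θ v), ‖avg c l e - d e (l e)‖ ≤ C * lam (θ v) :=
      fun e he => (n.avg_sub' e).trans (mul_le_mul_of_nonneg_left (by
        have := l2 (st e)
        rw [n.stl, n.stc] at this
        exact (mem_ends.1 he).2 ▸ this) C0)
    exact (pert hθ (n.der e _).2.2.1 (n.der f _).2.2.1 (n.avg_le e) (n.avg_le f) (k e he)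
      (k f hf)).trans (add_le_add (key _ _ (fun j => by
        rw [hG]; exact le_add_of_nonneg_left (GG_nonneg _ _ _ _)) e he f hf) le_rfl)

lemma Net.good (n : Net C c d w l st Vs) (hθ : ∀ v, |θ v| ≤ 2 * ‖v‖)
    (hg : ∀ v ∈ Vs, ∀ y ∈ Vs, θ v = θ y → v = y) {v : V} (hv : v ∈ Vs) {α η D : ℝ} (α0 : 0 < α)
    (α1 : α ≤ 1) (hD : ((univ.filter fun h => c h 0 = v).card : ℝ) ≤ D) (η1 : η < 1)
    (η2 : 20 * D ^ 2 * η < α ^ 2) (h1 : ∀ h, c h 0 = v → 8 * C * l h ≤ η)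
    (h2 : ∀ e ∈ ends (Ep θ c l) (sg θ c) (θ v), ∀ f ∈ ends (Ep θ c l) (sg θ c) (θ v),
      ‖θ (d f 0) • d e 0 - θ (d e 0) • d f 0‖ ≤ η)
    (h3 : ∀ e ∈ ends (Ep θ c l) (ta θ c l) (θ v), ∀ f ∈ ends (Ep θ c l) (ta θ c l) (θ v),
      ‖θ (d f (l f)) • d e (l e) - θ (d e (l e)) • d f (l f)‖ ≤ η)
    (ex : (∃ e ∈ ends (Ep θ c l) (sg θ c) (θ v), α ≤ θ (d e 0)) ∨
      ∃ e ∈ ends (Ep θ c l) (ta θ c l) (θ v), α ≤ θ (d e (l e))) :
    (ends (Ep θ c l) (ta θ c l) (θ v)).card = (ends (Ep θ c l) (sg θ c) (θ v)).card ∧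
    ∑ e ∈ ends (Ep θ c l) (sg θ c) (θ v), d e 0 = ∑ e ∈ ends (Ep θ c l) (ta θ c l) (θ v), d e (l e) ∧
    (∃ e ∈ ends (Ep θ c l) (sg θ c) (θ v), ∃ f ∈ ends (Ep θ c l) (sg θ c) (θ v), d e 0 ≠ d f 0) ∧
    ∃ y, α ≤ θ y ∧ (∀ f ∈ ends (Ep θ c l) (sg θ c) (θ v), α * ‖d f 0 - y‖ ≤ 12 * D ^ 2 * η) ∧
      ∀ f ∈ ends (Ep θ c l) (ta θ c l) (θ v), α * ‖d f (l f) - y‖ ≤ 12 * D ^ 2 * η := by
  have z : (univ.filter fun h => c h 0 = v ∧ avg c l h = 0) = ∅ :=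
    filter_eq_empty_iff.2 fun h _ hh => by
      have := n.avg_sub h
      rw [hh.2, zero_sub, norm_neg, (n.der h 0).2.2.1] at this
      linarith [h1 h hh.1]
  have b1 : ∑ h with c h 0 = v, d h 0 = ∑ e ∈ ends (Ep θ c l) (sg θ c) (θ v), d e 0 +
      ∑ e ∈ ends (Ep θ c l) (ta θ c l) (θ v), d (st e) 0 + _ := n.three hg (fun h => d h 0) hv
  have b2 : ∑ h with c h 0 = v, 1 = ∑ e ∈ ends (Ep θ c l) (sg θ c) (θ v), 1 +
      ∑ e ∈ ends (Ep θ c l) (ta θ c l) (θ v), 1 + _ := n.three hg (fun _ => (1 : ℕ)) hv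
  rw [z, sum_empty, add_zero] at b1 b2
  simp only [n.bal v hv, n.std, sum_neg_distrib, ← sub_eq_add_neg] at b1
  simp only [sum_const, smul_eq_mul, mul_one] at b2
  have b3 := sub_eq_zero.1 b1.symm
  have b4 := n.deg v hv
  rw [b2] at hD b4
  push_cast at hD
  have m1 : ∀ e ∈ ends (Ep θ c l) (sg θ c) (θ v), c e 0 = v := fun e he =>
    hg _ (n.mem e) v hv (mem_ends.1 he).2
  have ps : ∀ e ∈ Ep θ c l, 0 < θ (avg c l e) := fun e he => by
    have q1 := (mem_filter.1 he).2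
    have q2 := n.avg_th θ e
    unfold sg ta at q1
    nlinarith [n.pos e]
  have C0 : 0 ≤ C := (norm_nonneg _).trans (n.der (card_pos.1 (lt_of_lt_of_le (by norm_num)
    (n.deg v hv))).choose 0).2.2.2.1
  have t1 : ∀ e ∈ ends (Ep θ c l) (sg θ c) (θ v), -η ≤ θ (d e 0) := fun e he => by
    have q1 := (abs_le.1 (hθ (avg c l e - d e 0))).2
    rw [map_sub] at q1
    nlinarith [ps e (mem_ends.1 he).1, n.avg_sub e, h1 e (m1 e he), n.pos e]
  have t2 : ∀ e ∈ ends (Ep θ c l) (ta θ c l) (θ v), -η ≤ θ (d e (l e)) := fun e he => by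
    have q1 := (abs_le.1 (hθ (avg c l e - d e (l e)))).2
    have q2 := h1 (st e) (hg _ (n.mem _) v hv (n.stc e ▸ (mem_ends.1 he).2))
    rw [map_sub] at q1
    rw [n.stl] at q2
    nlinarith [ps e (mem_ends.1 he).1, n.avg_sub' e, n.pos e]
  have c1 := Nat.cast_nonneg (α := ℝ) (ends (Ep θ c l) (sg θ c) (θ v)).card
  have c2 := Nat.cast_nonneg (α := ℝ) (ends (Ep θ c l) (ta θ c l) (θ v)).card
  have key : (ends (Ep θ c l) (ta θ c l) (θ v)).card = (ends (Ep θ c l) (sg θ c) (θ v)).card ∧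
      ∃ y, α ≤ θ y ∧ (∀ f ∈ ends (Ep θ c l) (sg θ c) (θ v), α * ‖d f 0 - y‖ ≤ 12 * D ^ 2 * η) ∧
      ∀ f ∈ ends (Ep θ c l) (ta θ c l) (θ v), α * ‖d f (l f) - y‖ ≤ 12 * D ^ 2 * η := by
    rcases ex with ⟨e, he, q⟩ | ⟨e, he, q⟩
    · have := thin (fun e => d e 0) (fun e => d e (l e)) θ hθ (fun e _ => (n.der e _).2.2.1)
        (fun e _ => (n.der e _).2.2.1) t1 t2 h2 h3 b3 (by linarith) (by linarith) α0 α1 η2 he q
      exact ⟨this.1.symm, _, q, this.2⟩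
    · have := thin (fun e => d e (l e)) (fun e => d e 0) θ hθ (fun e _ => (n.der e _).2.2.1)
        (fun e _ => (n.der e _).2.2.1) t2 t1 h3 h2 b3.symm (by linarith) (by linarith) α0 α1 η2 he q
      exact ⟨this.1, _, q, this.2.symm⟩
  refine ⟨key.1, b3, ?_, key.2⟩
  obtain ⟨e, he, f, hf, q⟩ := one_lt_card.1 (by omega : 1 < (ends (Ep θ c l) (sg θ c) (θ v)).card)
  exact ⟨e, he, f, hf, fun y => q (n.inj e f ((m1 e he).trans (m1 f hf).symm) y)⟩

end Pool.Agent.H.MP_c30897_gt
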