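import Pool.Agent.H.MP_c30897_gt.F

set_option autoImplicit false

/-! The bound on the number of vertices. -/

namespace Pool.Agent.H.MP_c30897_gt

open Finset Classical

variable {V : Type} [NormedAddCommGroup V] [InnerProductSpace ℝ V]

lemma small {x y K η : ℝ} (hy : 0 < y) (η0 : 0 ≤ η) (h1 : K * η ≤ 1) (h2 : x / y + 1 ≤ K) :
    x * η < y := by
  have e : x / y * y = x := div_mul_cancel₀ _ hy.ne'
  rcases η0.eq_or_lt with rfl | η0
  · simpa using hy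
  · nlinarith [mul_le_mul_of_nonneg_right h2 η0.le, mul_pos η0 hy]

theorem frame {N : ℕ} (π : Fin N → V →L[ℝ] ℝ) (p1 : ∀ j v, |π j v| ≤ ‖v‖)
    (p2 : ∀ v, ‖v‖ ≤ ∑ j, |π j v|) {β C L : ℝ} (β0 : 0 < β) (β1 : 3 * β ≤ 1) (C1 : 1 ≤ C)
    (L0 : 0 ≤ L) : ∃ N' : ℕ, ∀ (H : Type) [Fintype H] (c d w : H → ℝ → V) (l : H → ℝ) (st : H → H)
      (Vs : Finset V) (θ : V →L[ℝ] ℝ), Net C c d w l st Vs → ∑ h, l h ≤ L →
      (∀ v, |θ v| ≤ 2 * ‖v‖) → (∀ v ∈ Vs, ∀ y ∈ Vs, θ v = θ y → v = y) →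
      (Vs.filter fun v => ∃ h, c h 0 = v ∧ 4 * β ≤ θ (d h 0)).card ≤ N' := by
  have C0 : 0 ≤ C := by linarith
  obtain ⟨C', hC'⟩ : ∃ C', C' = C / β + 2 * C / β ^ 2 + C := ⟨_, rfl⟩
  have C'0 : 0 ≤ C' := by rw [hC']; positivity
  obtain ⟨M, hM⟩ : ∃ M : ℕ, 2 * C * L / β ≤ M := ⟨_, Nat.le_ceil _⟩
  obtain ⟨N1, hN⟩ := flow π p1 p2 β0 C'0 M
  obtain ⟨D, hD⟩ : ∃ D : ℝ, D = (4 * N + 1) * C * L := ⟨_, rfl⟩
  obtain ⟨L2, hL2⟩ : ∃ L2 : ℝ, L2 = N * (8 * (3 * C * L) ^ 2) + 8 * C * L := ⟨_, rfl⟩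
  have L20 : 0 ≤ L2 := by rw [hL2]; positivity
  obtain ⟨γ, hγ⟩ : ∃ γ : ℝ, γ = β / (3 * (M + 1)) := ⟨_, rfl⟩
  have γ0 : 0 < γ := by rw [hγ]; positivity
  have γ1 : (M + 1) * (3 * γ) = β := by rw [hγ]; field_simp
  obtain ⟨K1, hK1⟩ : ∃ K1 : ℝ, K1 = 16 * D ^ 2 / β := ⟨_, rfl⟩
  have K10 : 0 ≤ K1 := by rw [hK1]; positivity
  have K11 : K1 * β = 16 * D ^ 2 := by rw [hK1]; field_simp
  obtain ⟨K, k1, k2, k3, k4, k5⟩ : ∃ K : ℝ, 20 * D ^ 2 / (3 * β) ^ 2 + 1 ≤ K ∧ 4 * K1 / γ + 1 ≤ K ∧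
      (K1 + 1) / β + 1 ≤ K ∧ 1 / 1 + 1 ≤ K ∧ 16 * M * K1 ^ 2 * L2 / γ ^ 2 + 1 ≤ K := by
    have a1 : 0 ≤ 20 * D ^ 2 / (3 * β) ^ 2 := by positivity
    have a2 : 0 ≤ 4 * K1 / γ := by positivity
    have a3 : 0 ≤ (K1 + 1) / β := by positivity
    have a4 : 0 ≤ 16 * M * K1 ^ 2 * L2 / γ ^ 2 := by positivity
    refine ⟨20 * D ^ 2 / (3 * β) ^ 2 + 4 * K1 / γ + (K1 + 1) / β + 16 * M * K1 ^ 2 * L2 / γ ^ 2 + 2,
      ?_, ?_, ?_, ?_, ?_⟩ <;> linarith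
  have K0 : 0 < K := by linarith
  obtain ⟨δ, hδ⟩ : ∃ δ : ℝ, δ = γ / (56 * (M + 1) * (2 * C') + γ) := ⟨_, rfl⟩
  have δ0 : 0 < δ := by rw [hδ]; positivity
  have δ1 : δ * (56 * (M + 1) * (2 * C') + γ) = γ := by rw [hδ]; field_simp
  have δ2 : 56 * (M + 1) * (2 * C' * δ) ≤ γ := by nlinarith [mul_pos δ0 γ0]
  have δ3 : δ ≤ 1 := by
    have : 0 ≤ 56 * (M + 1) * (2 * C' * δ) := by positivity
    exact le_of_mul_le_mul_right (by linarith) γ0
  refine ⟨⌈K * L2⌉₊ + (⌈K * L2⌉₊ + 1) * (⌈(4 * C + 1) / δ⌉₊ * N1),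
    fun H _ c d w l st Vs θ n hL hθ hg => ?_⟩
  have Lt0 : 0 ≤ ∑ h, l h := sum_nonneg fun h _ => (n.pos h).le
  obtain ⟨η, ηs, hη⟩ := n.thick π p1 p2 hθ hg C1
  replace ηs : ∑ r ∈ Vs.image θ, η r ≤ L2 * 1 := ηs.trans (by rw [hL2, mul_one]; gcongr)
  have η0 : ∀ r ∈ Vs.image θ, 0 ≤ η r := fun r hr => by
    obtain ⟨v, hv, rfl⟩ := mem_image.1 hr
    obtain ⟨h, hh⟩ := card_pos.1 (lt_of_lt_of_le (by norm_num) (n.deg v hv))
    exact le_trans (by have := n.pos h; positivity) ((hη v hv).1 h (mem_filter.1 hh).2)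
  have dg : ∀ v, ((univ.filter fun h => c h 0 = v).card : ℝ) ≤ D := fun v =>
    (n.degree π p1 p2 C0 v).trans (by rw [hD]; gcongr)
  have m2 : ∀ h, c h (l h) ∈ Vs := fun h => n.stc h ▸ n.mem (st h)
  obtain ⟨E, hE⟩ : ∃ E : Finset H, ∀ h, h ∈ E ↔ 4 * C * l h ≤ β ∧ 2 * β ≤ θ (d h 0) :=
    ⟨univ.filter fun h => 4 * C * l h ≤ β ∧ 2 * β ≤ θ (d h 0), fun h => by simp⟩
  obtain ⟨x, u, k, ho, hx⟩ := n.ode hθ β0 C1 E fun h hh => (hE h).1 hh
  rw [← hC'] at ho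
  have av : ∀ h ∈ E, β ≤ θ (avg c l h) := fun h hh => by
    have q1 := (abs_le.1 (hθ (avg c l h - d h 0))).1
    rw [map_sub] at q1
    linarith [n.avg_sub h, (hE h).1 hh]
  have lt : ∀ h ∈ E, sg θ c h < ta θ c l h := fun h hh => by
    have q2 := n.avg_th θ h
    unfold sg ta
    nlinarith [n.pos h, av h hh]
  have win : ∀ r ∈ Vs.image θ, -(2 * C) - 1 < r ∧ r ≤ 2 * C := fun r hr => by
    obtain ⟨v, hv, rfl⟩ := mem_image.1 hr
    obtain ⟨h, hh⟩ := card_pos.1 (lt_of_lt_of_le (by norm_num) (n.deg v hv))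
    have q1 := abs_le.1 (hθ v)
    have q2 := (n.der h 0).2.2.2.2
    rw [(mem_filter.1 hh).2] at q2
    constructor <;> linarith [q1.1, q1.2]
  have br : Br E (sg θ c) (ta θ c l) (Vs.image θ) (-(2 * C) - 1) (2 * C) :=
    ⟨win, lt, fun h _ => Or.inl (mem_image_of_mem _ (n.mem h)),
      fun h _ => Or.inl (mem_image_of_mem _ (m2 h))⟩
  have cM : ∀ r, (cut E (sg θ c) (ta θ c l) r).card ≤ M := fun r => by
    have q1 := card_nsmul_le_sum (cut E (sg θ c) (ta θ c l) r) (fun h => θ (avg c l h)) β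
      fun h hh => av h (mem_cut.1 hh).1
    have q2 : ∑ h ∈ cut E (sg θ c) (ta θ c l) r, θ (avg c l h) ≤ _ :=
      (sum_le_sum_of_subset_of_nonneg (fun h hh => mem_filter.2 ⟨mem_univ _, (mem_cut.1 hh).2⟩)
        fun h hh _ => by
          have q2 := n.avg_th θ h
          have q3 := (mem_filter.1 hh).2
          unfold sg ta at q3
          nlinarith [n.pos h, q3.1, q3.2]).trans (n.cross hθ r)
    rw [nsmul_eq_mul] at q1
    rw [div_le_iff₀ β0] at hM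
    have q3 := mul_le_mul_of_nonneg_left hL (by positivity : 0 ≤ 2 * C)
    exact_mod_cast (le_of_mul_le_mul_right (by linarith) β0 :
      ((cut E (sg θ c) (ta θ c l) r).card : ℝ) ≤ M)
  have th : ∀ r ∈ Vs.image θ, K * η r ≤ 1 → ∀ e, At E (sg θ c) (ta θ c l) r e → 3 * β ≤ θ (u e r) →
      ((∀ e f, At E (sg θ c) (ta θ c l) r e → At E (sg θ c) (ta θ c l) r f → x e r = x f r) ∧
      (ends E (ta θ c l) r).card = (ends E (sg θ c) r).card ∧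
      ∑ e ∈ ends E (sg θ c) r, u e r = ∑ e ∈ ends E (ta θ c l) r, u e r ∧
      ∃ e ∈ ends E (sg θ c) r, ∃ f ∈ ends E (sg θ c) r, u e r ≠ u f r) ∧
      ∀ f, At E (sg θ c) (ta θ c l) r f → |θ (u f r) - θ (u e r)| ≤ K1 * η r := by
    intro r hr hK e he h3
    have e0 := η0 r hr
    obtain ⟨v, hv, rfl⟩ := mem_image.1 hr
    obtain ⟨y1, y2, y3⟩ := hη v hv
    have u1 : ∀ f ∈ E, sg θ c f = θ v → x f (θ v) = v ∧ u f (θ v) = d f 0 := fun f hf q => by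
      rw [← q, (hx f hf).1, (hx f hf).2.1]
      exact ⟨hg _ (n.mem f) v hv q, rfl⟩
    have u2 : ∀ f ∈ E, ta θ c l f = θ v → x f (θ v) = v ∧ u f (θ v) = d f (l f) := fun f hf q => by
      rw [← q, (hx f hf).2.2.1, (hx f hf).2.2.2]
      exact ⟨hg _ (m2 f) v hv q, rfl⟩
    have ep : ∀ f ∈ E, f ∈ Ep θ c l := fun f hf => mem_filter.2 ⟨mem_univ _, lt f hf⟩
    obtain ⟨g1, g2, ⟨e1, g3, f1, g4, g5⟩, y, g6, g7, g8⟩ := n.good hθ hg hv (by positivity) β1 (dg v)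
      (by simpa using small one_pos e0 hK k4) (small (by positivity) e0 hK k1) y1 y2 y3 (by
        rcases he.2 with q | q
        · exact Or.inl ⟨e, mem_ends.2 ⟨ep e he.1, q⟩, (u1 e he.1 q).2 ▸ h3⟩
        · exact Or.inr ⟨e, mem_ends.2 ⟨ep e he.1, q⟩, (u2 e he.1 q).2 ▸ h3⟩)
    have s1 := small β0 e0 hK k3
    have cl : ∀ z : V, 3 * β * ‖z - y‖ ≤ 12 * D ^ 2 * η (θ v) → 2 * |θ z - θ y| ≤ K1 * η (θ v) :=
      fun z hz => by
        rw [← map_sub]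
        exact le_of_mul_le_mul_right (by nlinarith [hθ (z - y)]) β0
    have o1 : ends E (sg θ c) (θ v) = ends (Ep θ c l) (sg θ c) (θ v) := by
      ext f
      refine ⟨fun z => mem_ends.2 ⟨ep f (mem_ends.1 z).1, (mem_ends.1 z).2⟩,
        fun z => mem_ends.2 ⟨(hE f).2 ?_, (mem_ends.1 z).2⟩⟩
      have q1 := y1 f (hg _ (n.mem f) v hv (mem_ends.1 z).2)
      have q2 := cl _ (g7 f z)
      have q3 := neg_abs_le (θ (d f 0) - θ y)
      have := mul_nonneg K10 e0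
      constructor <;> linarith
    have o2 : ends E (ta θ c l) (θ v) = ends (Ep θ c l) (ta θ c l) (θ v) := by
      ext f
      refine ⟨fun z => mem_ends.2 ⟨ep f (mem_ends.1 z).1, (mem_ends.1 z).2⟩,
        fun z => mem_ends.2 ⟨(hE f).2 ?_, (mem_ends.1 z).2⟩⟩
      have q1 := y1 (st f) (hg _ (n.mem _) v hv (n.stc f ▸ (mem_ends.1 z).2))
      have q2 := cl _ (g8 f z)
      have q3 := neg_abs_le (θ (d f (l f)) - θ y)
      have q4 := n.drift f (l f) 0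
      have q5 := (abs_le.1 (hθ (d f (l f) - d f 0))).2
      rw [sub_zero, abs_of_pos (n.pos f)] at q4
      rw [map_sub] at q5
      rw [n.stl] at q1
      have := mul_nonneg K10 e0
      constructor <;> linarith
    have o3 : ∀ f, At E (sg θ c) (ta θ c l) (θ v) f → x f (θ v) = v ∧
        2 * |θ (u f (θ v)) - θ y| ≤ K1 * η (θ v) := fun f hf => by
      rcases hf.2 with q | q
      · rw [(u1 f hf.1 q).2]
        exact ⟨(u1 f hf.1 q).1, cl _ (g7 f (mem_ends.2 ⟨ep f hf.1, q⟩))⟩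
      · rw [(u2 f hf.1 q).2]
        exact ⟨(u2 f hf.1 q).1, cl _ (g8 f (mem_ends.2 ⟨ep f hf.1, q⟩))⟩
    rw [← o1] at g3 g4
    refine ⟨⟨fun e f he hf => (o3 e he).1.trans (o3 f hf).1.symm, by rw [o1, o2, g1], ?_, e1, g3,
      f1, g4, ?_⟩, fun f hf => ?_⟩
    · rw [sum_congr rfl fun f hf => (u1 f (mem_ends.1 hf).1 (mem_ends.1 hf).2).2,
        sum_congr rfl fun f hf => (u2 f (mem_ends.1 hf).1 (mem_ends.1 hf).2).2, o1, o2, g2]
    · rwa [(u1 e1 (mem_ends.1 g3).1 (mem_ends.1 g3).2).2, (u1 f1 (mem_ends.1 g4).1 (mem_ends.1 g4).2).2]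
    · have := abs_sub_le (θ (u f (θ v))) (θ y) (θ (u e (θ v)))
      rw [abs_sub_comm (θ y)] at this
      linarith [(o3 e he).2, (o3 f hf).2]
  have b1 := bad_card η0 K0.le one_pos ηs
  have b2 := epoch (Vs.image θ) (fun r => 1 ≤ K * η r) (fun r => ∃ h, sg θ c h = r ∧ 4 * β ≤ θ (d h 0))
    (-(2 * C) - 1) (2 * C) (⌈(4 * C + 1) / δ⌉₊ * N1) ?_ (by linarith)
  · refine le_trans (card_le_card_of_injOn θ (fun v hv => ?_) fun v hv y hy =>
      hg v (mem_filter.1 hv).1 y (mem_filter.1 hy).1)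
      (b2.trans (add_le_add b1 (Nat.mul_le_mul_right _ (by omega))))
    obtain ⟨q1, h, q2, q3⟩ := mem_filter.1 hv
    exact mem_filter.2 ⟨mem_image_of_mem _ q1, ⟨h, congrArg θ q2, q3⟩, win _ (mem_image_of_mem _ q1)⟩
  intro s t q1 q2 q3 hw
  refine pieces _ _ s δ N1 δ0.le _ t q2 (le_trans (by linarith) ((div_le_iff₀ δ0).1 (Nat.le_ceil _)))
    fun a b w1 w2 w3 w4 => ?_
  have hw' : ∀ v ∈ Vs.image θ, a < v → v ≤ b → K * η v ≤ 1 := fun v h1 h2 h3 =>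
    (not_le.1 (hw v h1 (w1.trans_lt h2) (h3.trans w3))).le
  obtain ⟨z, z1, z2, z3⟩ := MP_b48dd4_gt.gapex ((cut E (sg θ c) (ta θ c l) a).image fun e => θ (u e a))
    (card_image_le.trans (cM a)) (3 * β) (δ := 3 * γ) (by positivity)
  have i0 : 2 * C' * (b - a) ≤ 2 * C' * δ := mul_le_mul_of_nonneg_left w4 (by positivity)
  have i1 : 0 ≤ M * (2 * C' * δ) := by positivity
  have i2 : 0 ≤ 2 * C' * δ := by positivity
  obtain ⟨Z, f1, -, f3⟩ := gap br (fun e r => θ (u e r)) (a := z) (Λ := 2 * C') M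
    (fun r => K1 * η r) (q1.trans w1) (w3.trans q3) γ0 (by positivity) (fun r _ _ => cM r)
    (fun e he p q _ r2 r3 r4 _ => by
      have := mvt r3 (fun r y1 y2 => (ho.der e he r (r2.trans y1) (y2.trans r4)).2.1)
        fun r y1 y2 => (ho.der e he r (r2.trans y1) (y2.le.trans r4)).2.2.2.2.1
      have := hθ (u e q - u e p)
      rw [map_sub] at this
      linarith)
    (fun v hv r1 r2 e he r3 => by
      obtain ⟨⟨-, y1, y2, -⟩, y3⟩ := th v hv (hw' v hv r1 r2) e he (z1.trans r3.le)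
      refine ⟨y1, by simp only [← map_sum, y2], ?_, y3⟩
      linarith [small γ0 (η0 v hv) (hw' v hv r1 r2) k2])
    (by linarith) (by
      have y1 := win_sum η0 (h := γ ^ 2 / 2) (D := 8 * M * K1 ^ 2) _
        (filter_subset (fun v => a < v ∧ v ≤ b) _) (by positivity) K0 one_pos ηs
        (fun v hv => hw' v (mem_filter.1 hv).1 (mem_filter.1 hv).2.1 (mem_filter.1 hv).2.2) (by
          have := (div_lt_iff₀ (by positivity)).1 ((lt_add_one _).trans_le k5)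
          linarith)
      have y2 := mul_le_mul_of_nonneg_left i0 (by positivity : 0 ≤ 28 * M * γ)
      simp only [mul_pow, ← mul_assoc]
      nlinarith)
    fun e he => z3 _ (mem_image_of_mem _ he)
  obtain ⟨E', g1, g2⟩ := fb_sub br ho (q1.trans w1) w2 (w3.trans q3) Z f1 fun v hv r1 r2 e he y =>
    (th v hv (hw' v hv r1 r2) e he (z1.trans ((f3 v hv r1 r2 e he).2 y).le)).1
  refine le_trans (card_le_card fun r hr => ?_) (hN H θ x u k E' _ _ _ a b hθ g1 w2 (w4.trans δ3)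
    ((card_le_card fun e he => (g2 e he).1).trans (cM a)))
  obtain ⟨r1, ⟨h, r2, r3⟩, r4, r5⟩ := mem_filter.1 hr
  have hh : h ∈ E := by
    obtain ⟨v, hv, rfl⟩ := mem_image.1 r1
    have y1 := (hη v hv).1 h (hg _ (n.mem h) v hv r2)
    have y2 := small β0 (η0 _ r1) (hw' _ r1 r4 r5) k3
    have y3 := mul_nonneg K10 (η0 _ r1)
    have y4 := η0 _ r1
    exact (hE h).2 ⟨by linarith, by linarith⟩
  simp only [mem_filter]
  refine ⟨r1, r4, r5, h, ⟨hh, Or.inl r2⟩, (f3 r r1 r4 r5 h ⟨hh, Or.inl r2⟩).1 ?_⟩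
  rw [← r2, (hx h hh).2.1]
  linarith

theorem top {N : ℕ} (π : Fin N → V →L[ℝ] ℝ) (p1 : ∀ j v, |π j v| ≤ ‖v‖)
    (p2 : ∀ v, ‖v‖ ≤ ∑ j, |π j v|) {C : ℝ} (C1 : 1 ≤ C) (L : ℝ) :
    ∃ N' : ℕ, ∀ (H : Type) [Fintype H] (c d w : H → ℝ → V) (l : H → ℝ) (st : H → H)
      (Vs : Finset V), Net C c d w l st Vs → ∑ h, l h ≤ L → Vs.card ≤ N' := by
  obtain ⟨β, hβ⟩ : ∃ β : ℝ, β = 1 / (8 * (N + 1)) := ⟨_, rfl⟩
  have β0 : 0 < β := by rw [hβ]; positivity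
  have β1 : 8 * (N + 1) * β = 1 := by rw [hβ]; field_simp
  have β2 : 0 ≤ N * β := by positivity
  obtain ⟨N', hN⟩ := frame π p1 p2 β0 (by linarith) C1 (le_max_right L 0)
  refine ⟨N * N' + N * N', fun H _ c d w l st Vs n hL => ?_⟩
  have key : ∀ φ : V →L[ℝ] ℝ, (∀ v, |φ v| ≤ ‖v‖) →
      (Vs.filter fun v => ∃ h, c h 0 = v ∧ 8 * β ≤ φ (d h 0)).card ≤ N' := fun φ hφ => by
    obtain ⟨θ, t1, t2⟩ := generic (((Vs ×ˢ Vs).image fun p => p.1 - p.2).erase 0)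
      (fun z hz => ne_of_mem_erase hz) φ (4 * β) (by positivity)
    refine le_trans (card_le_card fun v hv => ?_) (hN H c d w l st Vs θ n (hL.trans (le_max_left _ _))
      (fun v => ?_) fun v hv y hy e => ?_)
    · obtain ⟨q1, h, q2, q3⟩ := mem_filter.1 hv
      have := (abs_le.1 (t1 (d h 0))).1
      rw [(n.der h 0).2.2.1] at this
      exact mem_filter.2 ⟨q1, h, q2, by linarith⟩
    · have := abs_sub_abs_le_abs_sub (θ v) (φ v)
      nlinarith [t1 v, hφ v, norm_nonneg v]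
    · by_contra q
      exact t2 (v - y) (mem_erase.2 ⟨sub_ne_zero.2 q, mem_image.2 ⟨(v, y), mem_product.2 ⟨hv, hy⟩, rfl⟩⟩)
        (by rw [map_sub, e, sub_self])
  have k1 := card_biUnion_le_card_mul univ _ N' fun j _ => key (π j) (p1 j)
  have k2 := card_biUnion_le_card_mul univ _ N' fun j _ => key (-π j) fun v => by simpa using p1 j v
  rw [card_univ, Fintype.card_fin] at k1 k2
  refine le_trans (card_le_card fun v hv => ?_) ((card_union_le _ _).trans (add_le_add k1 k2))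
  obtain ⟨h, hh⟩ := card_pos.1 (lt_of_lt_of_le (by norm_num) (n.deg v hv))
  obtain ⟨j, hj⟩ : ∃ j, 8 * β ≤ |π j (d h 0)| := by
    by_contra hn
    push Not at hn
    have q1 := sum_le_card_nsmul univ _ _ fun j _ => (hn j).le
    have q2 := p2 (d h 0)
    rw [card_univ, Fintype.card_fin, nsmul_eq_mul] at q1
    rw [(n.der h 0).2.2.1] at q2
    linarith
  rcases le_abs.1 hj with q | q
  · exact mem_union_left _ (mem_biUnion.2 ⟨j, mem_univ _,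
      mem_filter.2 ⟨hv, h, (mem_filter.1 hh).2, q⟩⟩)
  · exact mem_union_right _ (mem_biUnion.2 ⟨j, mem_univ _,
      mem_filter.2 ⟨hv, h, (mem_filter.1 hh).2, q⟩⟩)

end Pool.Agent.H.MP_c30897_gt
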