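import Pool.Agent.H.MP_c30897_gt.G

set_option autoImplicit false

/-! Accelerations of geodesics of a compact submanifold are bounded and Lipschitz. -/

namespace Pool.Agent.H.MP_c30897_gt

open Filter Topology ContinuousLinearMap

variable {V F : Type} [NormedAddCommGroup V] [InnerProductSpace ℝ V] [FiniteDimensional ℝ V]
  [NormedAddCommGroup F] [InnerProductSpace ℝ F] [FiniteDimensional ℝ F]
  [CompleteSpace V] [CompleteSpace F]

def St (M : Set V) (y u z : V) : Prop :=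
  (∃ (γ γ' : ℝ → V) (s : ℝ), (∀ r, γ r ∈ M ∧ HasDerivAt γ (γ' r) r) ∧ HasDerivAt γ' z s ∧
    γ s = y ∧ γ' s = u) ∧ ‖u‖ = 1 ∧
  ∀ (c : ℝ → V) (v : V), c 0 = y → (∀ᶠ t in 𝓝 (0 : ℝ), c t ∈ M) → HasDerivAt c v 0 →
    inner ℝ z v = 0

lemma coer {A : V →L[ℝ] F} {K : ℝ} (K0 : 0 ≤ K) (h : ∀ m, ‖m‖ ≤ K * ‖adjoint A m‖) (m : F) :
    ‖adjoint A m‖ ≤ K * ‖A (adjoint A m)‖ := by
  have e1 := real_inner_le_norm m (A (adjoint A m))
  rw [← adjoint_inner_left, real_inner_self_eq_norm_mul_norm] at e1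
  rcases (norm_nonneg (adjoint A m)).eq_or_lt with q | q
  · rw [← q]; positivity
  · nlinarith [mul_le_mul_of_nonneg_right (h m) (norm_nonneg (A (adjoint A m)))]

lemma alg {A B : V →L[ℝ] F} {K a b e : ℝ} (K0 : 0 ≤ K) (h : ∀ m, ‖m‖ ≤ K * ‖adjoint A m‖)
    (h' : ∀ m, ‖m‖ ≤ K * ‖adjoint B m‖) (m n : F) (ha : ‖A‖ ≤ a) (hb : ‖adjoint B n‖ ≤ b)
    (he : ‖A - B‖ ≤ e) : ‖adjoint A m - adjoint B n‖ ≤
      K * ‖A (adjoint A m) - B (adjoint B n)‖ + (2 * K * b + K ^ 2 * a * b) * e := by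
  have e0 := (norm_nonneg _).trans he
  have b0 := (norm_nonneg _).trans hb
  have e1 : adjoint A m - adjoint B n = adjoint A (m - n) + adjoint (A - B) n := by
    simp only [map_sub, sub_apply]; abel
  have e2 : A (adjoint A (m - n)) = A (adjoint A m) - B (adjoint B n) -
      ((A - B) (adjoint B n) + A (adjoint (A - B) n)) := by
    simp only [map_sub, sub_apply]; abel
  have e3 : ‖adjoint (A - B) n‖ ≤ e * (K * b) := by
    refine (le_opNorm _ _).trans ?_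
    rw [LinearIsometryEquiv.norm_map]
    exact mul_le_mul he ((h' n).trans (mul_le_mul_of_nonneg_left hb K0)) (norm_nonneg _) e0
  have e4 := (le_opNorm (A - B) (adjoint B n)).trans (mul_le_mul he hb (norm_nonneg _) e0)
  have e5 := (le_opNorm A (adjoint (A - B) n)).trans
    (mul_le_mul ha e3 (norm_nonneg _) ((norm_nonneg _).trans ha))
  have e6 := coer K0 h (m - n)
  rw [e2] at e6
  have e7 := (norm_sub_le (A (adjoint A m) - B (adjoint B n)) _).trans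
    (add_le_add le_rfl ((norm_add_le _ _).trans (add_le_add e4 e5)))
  rw [e1]
  linarith [norm_add_le (adjoint A (m - n)) (adjoint (A - B) n), mul_le_mul_of_nonneg_left e7 K0]

lemma St.eqn {M U : Set V} {φ : V → F} (hU : IsOpen U) (hφ : ContDiffOn ℝ 3 φ U)
    (hs : ∀ y ∈ U, Function.Surjective (fderiv ℝ φ y)) (hM : ∀ y ∈ U, y ∈ M ↔ φ y = 0)
    {y u z : V} (hy : y ∈ U) (h : St M y u z) :
    fderiv ℝ φ y z = -fderiv ℝ (fderiv ℝ φ) y u u ∧ ∃ m, z = adjoint (fderiv ℝ φ y) m := by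
  obtain ⟨⟨γ, γ', s, h1, h2, rfl, rfl⟩, -, h3⟩ := h
  have cd : ∀ x ∈ U, ContDiffAt ℝ 3 φ x := fun x hx => hφ.contDiffAt (hU.mem_nhds hx)
  have e1 : ∀ᶠ r in 𝓝 s, γ r ∈ U := (h1 s).2.continuousAt.eventually (hU.mem_nhds hy)
  have e2 : (fun r => fderiv ℝ φ (γ r) (γ' r)) =ᶠ[𝓝 s] fun _ => 0 := by
    filter_upwards [e1, e1.eventually_nhds] with r r1 r2
    refine (((cd _ r1).differentiableAt (by norm_num)).hasFDerivAt.comp_hasDerivAt r (h1 r).2).unique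
      ((hasDerivAt_const r (0 : F)).congr_of_eventuallyEq ?_)
    filter_upwards [r2] with t ht using (hM _ ht).1 (h1 t).1
  have e3 := (((((cd _ hy).fderiv_right (m := 2) (by norm_num)).differentiableAt
    (by norm_num)).hasFDerivAt.comp_hasDerivAt s (h1 s).2).clm_apply h2).unique
    ((hasDerivAt_const s (0 : F)).congr_of_eventuallyEq e2)
  refine ⟨eq_neg_of_add_eq_zero_right e3, ?_⟩
  have e4 : z ∈ (fderiv ℝ φ (γ s)).kerᗮ := by
    rw [Submodule.mem_orthogonal']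
    intro v hv
    have hf := (cd _ hy).hasStrictFDerivAt (by norm_num)
    have hr : (fderiv ℝ φ (γ s)).range = ⊤ := LinearMap.range_eq_top.2 (hs _ hy)
    have d1 : HasDerivAt (fun t : ℝ => t • (⟨v, hv⟩ : (fderiv ℝ φ (γ s)).ker)) ⟨v, hv⟩ 0 := by
      simpa using (hasDerivAt_id (0 : ℝ)).smul_const (⟨v, hv⟩ : (fderiv ℝ φ (γ s)).ker)
    have d2 := (hf.to_implicitFunction hr).hasFDerivAt.comp_hasDerivAt_of_eq 0 d1 (by simp)
    have d3 : (hf.implicitFunction φ _ hr (φ (γ s)) ∘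
      fun t : ℝ => t • (⟨v, hv⟩ : (fderiv ℝ φ (γ s)).ker)) 0 = γ s := by
      rw [Function.comp_apply, zero_smul]; exact hf.implicitFunction_apply_image hr
    refine h3 _ v d3 ?_ d2
    have d4 : Tendsto (fun t : ℝ => (φ (γ s), t • (⟨v, hv⟩ : (fderiv ℝ φ (γ s)).ker))) (𝓝 0)
        (𝓝 (φ (γ s), 0)) := tendsto_const_nhds.prodMk_nhds (by simpa using d1.continuousAt.tendsto)
    filter_upwards [d4.eventually (hf.map_implicitFunction_eq hr),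
      d2.continuousAt.eventually (hU.mem_nhds (d3.symm ▸ hy))] with t t1 t2
    exact (hM _ t2).2 (t1.trans ((hM _ hy).1 (h1 s).1))
  rw [ContinuousLinearMap.orthogonal_ker,
    (Submodule.closed_of_finiteDimensional _).submodule_topologicalClosure_eq] at e4
  obtain ⟨m, hm⟩ := e4
  exact ⟨m, hm.symm⟩

lemma loc {M U : Set V} {φ : V → F} (hU : IsOpen U) (hφ : ContDiffOn ℝ 3 φ U)
    (hs : ∀ y ∈ U, Function.Surjective (fderiv ℝ φ y)) (hM : ∀ y ∈ U, y ∈ M ↔ φ y = 0)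
    {x : V} (hx : x ∈ U) : ∃ W ∈ 𝓝 x, ∃ C, 0 ≤ C ∧ ∀ y ∈ W, ∀ u z, St M y u z → ‖z‖ ≤ C ∧
      ∀ y' ∈ W, ∀ u' z', St M y' u' z' → ‖z - z'‖ ≤ C * (‖y - y'‖ + ‖u - u'‖) := by
  have c1 := (hφ.contDiffAt (hU.mem_nhds hx)).fderiv_right (m := 2) (by norm_num)
  have c2 := c1.fderiv_right (m := 1) (by norm_num)
  obtain ⟨L1, W1, w1, l1⟩ := (c1.of_le (by norm_num : (1 : WithTop ℕ∞) ≤ 2)).exists_lipschitzOnWith
  obtain ⟨L2, W2, w2, l2⟩ := c2.exists_lipschitzOnWith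
  obtain ⟨K, K0, hK⟩ := (adjoint (fderiv ℝ φ x)).toLinearMap.exists_antilipschitzWith (by
    rw [LinearMap.ker_eq_bot']
    intro m hm
    obtain ⟨v, rfl⟩ := hs x hx m
    rw [← inner_self_eq_zero (𝕜 := ℝ), ← adjoint_inner_left]
    exact (congrArg (inner ℝ · v) hm).trans (inner_zero_left _))
  have K1 : (0 : ℝ) < K := K0
  have w3 : ∀ᶠ y in 𝓝 x, ‖fderiv ℝ φ y - fderiv ℝ φ x‖ < 1 / (2 * K) :=
    (tendsto_iff_norm_sub_tendsto_zero.1 c1.continuousAt).eventually (gt_mem_nhds (by positivity))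
  have w4 : ∀ᶠ y in 𝓝 x, ‖fderiv ℝ φ y‖ < ‖fderiv ℝ φ x‖ + 1 :=
    c1.continuousAt.norm.eventually (gt_mem_nhds (lt_add_one _))
  have w5 : ∀ᶠ y in 𝓝 x, ‖fderiv ℝ (fderiv ℝ φ) y‖ < ‖fderiv ℝ (fderiv ℝ φ) x‖ + 1 :=
    c2.continuousAt.norm.eventually (gt_mem_nhds (lt_add_one _))
  have a0 : 0 ≤ ‖fderiv ℝ φ x‖ + 1 := by positivity
  have b0 : 0 ≤ ‖fderiv ℝ (fderiv ℝ φ) x‖ + 1 := by positivity
  generalize ‖fderiv ℝ φ x‖ + 1 = a at *
  generalize ‖fderiv ℝ (fderiv ℝ φ) x‖ + 1 = b at *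
  obtain ⟨P, hP⟩ : ∃ P : ℝ, P = (2 * (2 * K) * (2 * K * b) + (2 * K) ^ 2 * a * (2 * K * b)) * L1 :=
    ⟨_, rfl⟩
  have P0 : 0 ≤ P := by rw [hP]; positivity
  have key : ∀ y ∈ U ∩ (W1 ∩ W2) ∩ {y | ‖fderiv ℝ φ y - fderiv ℝ φ x‖ < 1 / (2 * K) ∧
      ‖fderiv ℝ φ y‖ < a ∧ ‖fderiv ℝ (fderiv ℝ φ) y‖ < b},
      (∀ m, ‖m‖ ≤ 2 * K * ‖adjoint (fderiv ℝ φ y) m‖) ∧ ∀ u z, St M y u z → ‖z‖ ≤ 2 * K * b := by
    rintro y ⟨⟨y1, -⟩, y2, -, y3⟩
    have co : ∀ m, ‖m‖ ≤ 2 * K * ‖adjoint (fderiv ℝ φ y) m‖ := fun m => by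
      have q1 : ‖m‖ ≤ K * ‖adjoint (fderiv ℝ φ x) m‖ := ZeroHomClass.bound_of_antilipschitz _ hK m
      have q2 := le_opNorm (adjoint (fderiv ℝ φ y - fderiv ℝ φ x)) m
      have q3 := norm_sub_norm_le (adjoint (fderiv ℝ φ x) m) (adjoint (fderiv ℝ φ y) m)
      rw [LinearIsometryEquiv.norm_map, map_sub, sub_apply, norm_sub_rev] at q2
      rw [lt_div_iff₀ (by positivity)] at y2
      nlinarith [norm_nonneg m]
    refine ⟨co, fun u z h => ?_⟩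
    obtain ⟨q1, m, rfl⟩ := h.eqn hU hφ hs hM y1
    refine (coer (by positivity) co m).trans (mul_le_mul_of_nonneg_left ?_ (by positivity))
    rw [q1, norm_neg]
    refine (le_opNorm₂ _ _ _).trans ?_
    rw [h.2.1]; linarith
  refine ⟨_, inter_mem (inter_mem (hU.mem_nhds hx) (inter_mem w1 w2)) (w3.and (w4.and w5)),
    2 * K * b + 2 * K * (L2 + 2 * b) + P, by positivity, fun y hy u z h => ⟨?_,
    fun y' hy' u' z' h' => ?_⟩⟩
  · refine ((key y hy).2 u z h).trans ?_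
    rw [add_assoc]; exact le_add_of_nonneg_right (by positivity)
  have z1 := (key y' hy').2 u' z' h'
  obtain ⟨q1, m, rfl⟩ := h.eqn hU hφ hs hM hy.1.1
  obtain ⟨q2, n, rfl⟩ := h'.eqn hU hφ hs hM hy'.1.1
  have e1 := alg (by positivity) (key y hy).1 (key y' hy').1 m n hy.2.2.1.le z1
    (l1.norm_sub_le hy.1.2.1 hy'.1.2.1)
  have e2 := l2.norm_sub_le hy.1.2.2 hy'.1.2.2
  have e3 : -fderiv ℝ (fderiv ℝ φ) y u u - -fderiv ℝ (fderiv ℝ φ) y' u' u' =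
      -((fderiv ℝ (fderiv ℝ φ) y - fderiv ℝ (fderiv ℝ φ) y') u u +
      (fderiv ℝ (fderiv ℝ φ) y' (u - u') u + fderiv ℝ (fderiv ℝ φ) y' u' (u - u'))) := by
    simp only [map_sub, sub_apply]; abel
  have e4 := le_opNorm₂ (fderiv ℝ (fderiv ℝ φ) y - fderiv ℝ (fderiv ℝ φ) y') u u
  have e5 := le_opNorm₂ (fderiv ℝ (fderiv ℝ φ) y') (u - u') u
  have e6 := le_opNorm₂ (fderiv ℝ (fderiv ℝ φ) y') u' (u - u')
  have e7 := mul_le_mul_of_nonneg_right hy'.2.2.2.le (norm_nonneg (u - u'))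
  rw [h.2.1] at e4 e5
  rw [h'.2.1] at e6
  rw [q1, q2, e3, norm_neg, ← mul_assoc, ← hP] at e1
  have e8 := mul_le_mul_of_nonneg_left ((norm_add_le _ _).trans (add_le_add e4
    ((norm_add_le _ _).trans (add_le_add e5 e6)))) (by positivity : 0 ≤ 2 * (K : ℝ))
  have n1 := norm_nonneg (y - y')
  have n2 := norm_nonneg (u - u')
  have L0 := L2.coe_nonneg
  linarith [mul_le_mul_of_nonneg_left e2 K1.le, mul_le_mul_of_nonneg_left e7 K1.le,
    mul_nonneg P0 n2, mul_nonneg (mul_nonneg K1.le b0) n1, mul_nonneg (mul_nonneg K1.le b0) n2,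
    mul_nonneg (mul_nonneg K1.le L0) n2]

omit [FiniteDimensional ℝ V] [CompleteSpace V] in
lemma glob {M : Set V} (hc : IsCompact M)
    (h : ∀ x ∈ M, ∃ W ∈ 𝓝 x, ∃ C, 0 ≤ C ∧ ∀ y ∈ W, ∀ u z, St M y u z → ‖z‖ ≤ C ∧
      ∀ y' ∈ W, ∀ u' z', St M y' u' z' → ‖z - z'‖ ≤ C * (‖y - y'‖ + ‖u - u'‖)) :
    ∃ C, 1 ≤ C ∧ (∀ y ∈ M, ‖y‖ ≤ C) ∧ ∀ y ∈ M, ∀ u z, St M y u z → ‖z‖ ≤ C ∧
      ∀ y' ∈ M, ∀ u' z', St M y' u' z' → ‖z - z'‖ ≤ C * (‖y - y'‖ + ‖u - u'‖) := by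
  obtain ⟨C, C0, hC⟩ := (hc.prod hc).induction_on (p := fun S => ∃ C, 0 ≤ C ∧ ∀ p ∈ S, ∀ u z,
      St M p.1 u z → ‖z‖ ≤ C ∧ ∀ u' z', St M p.2 u' z' → ‖z - z'‖ ≤ C * (‖p.1 - p.2‖ + ‖u - u'‖))
    ⟨0, le_rfl, by simp⟩ (fun S T hST ⟨C, C0, hC⟩ => ⟨C, C0, fun p hp => hC p (hST hp)⟩)
    (fun S T ⟨C, C0, hC⟩ ⟨D, D0, hD⟩ => ⟨C + D, by positivity, fun p hp u z hz => by
      rcases hp with hp | hp
      · exact ⟨by linarith [(hC p hp u z hz).1], fun u' z' hz' => ((hC p hp u z hz).2 u' z' hz').trans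
          (mul_le_mul_of_nonneg_right (by linarith) (by positivity))⟩
      · exact ⟨by linarith [(hD p hp u z hz).1], fun u' z' hz' => ((hD p hp u z hz).2 u' z' hz').trans
          (mul_le_mul_of_nonneg_right (by linarith) (by positivity))⟩⟩)
    (by
      rintro ⟨x, x'⟩ ⟨hx, hx'⟩
      obtain ⟨W, w, C, C0, hC⟩ := h x hx
      by_cases q : x = x'
      · subst q
        exact ⟨W ×ˢ W, mem_nhdsWithin_of_mem_nhds (prod_mem_nhds w w), C, C0, fun p hp u z hz =>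
          ⟨(hC _ hp.1 u z hz).1, (hC _ hp.1 u z hz).2 _ hp.2⟩⟩
      obtain ⟨W', w', C', C0', hC'⟩ := h x' hx'
      have d0 : 0 < ‖x - x'‖ / 2 := half_pos (norm_pos_iff.2 (sub_ne_zero.2 q))
      have w2 : ∀ᶠ p : V × V in 𝓝 (x, x'), ‖x - x'‖ / 2 < ‖p.1 - p.2‖ :=
        (continuous_fst.sub continuous_snd).norm.continuousAt.eventually
          (lt_mem_nhds (show _ < ‖x - x'‖ by linarith))
      generalize ‖x - x'‖ / 2 = δ at *
      refine ⟨_, mem_nhdsWithin_of_mem_nhds (inter_mem (prod_mem_nhds w w') w2), C + (C + C') / δ,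
        by positivity, fun p hp u z hz => ⟨(hC _ hp.1.1 u z hz).1.trans
          (le_add_of_nonneg_right (by positivity)), fun u' z' hz' => ?_⟩⟩
      have e1 := (norm_sub_le z z').trans (add_le_add (hC _ hp.1.1 u z hz).1 (hC' _ hp.1.2 u' z' hz').1)
      have e2 : (C + C') / δ * δ = C + C' := div_mul_cancel₀ _ d0.ne'
      have e3 : 0 ≤ (C + C') / δ := by positivity
      have e4 : δ < ‖p.1 - p.2‖ := hp.2
      nlinarith [norm_nonneg (u - u')])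
  obtain ⟨B, hB⟩ := hc.isBounded.exists_norm_le
  have := le_abs_self B
  have := abs_nonneg B
  refine ⟨C + |B| + 1, by linarith, fun y hy => by linarith [hB y hy], fun y hy u z hz =>
    ⟨by linarith [(hC (y, y) ⟨hy, hy⟩ u z hz).1], fun y' hy' u' z' hz' =>
      ((hC (y, y') ⟨hy, hy'⟩ u z hz).2 u' z' hz').trans
        (mul_le_mul_of_nonneg_right (by linarith) (by positivity))⟩⟩

lemma uniq {c d w c' d' w' : ℝ → V} {C : ℝ} (C0 : 0 ≤ C)
    (h : ∀ s, HasDerivAt c (d s) s ∧ HasDerivAt d (w s) s)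
    (h' : ∀ s, HasDerivAt c' (d' s) s ∧ HasDerivAt d' (w' s) s)
    (hl : ∀ s, ‖w s - w' s‖ ≤ C * (‖c s - c' s‖ + ‖d s - d' s‖)) (e1 : c 0 = c' 0) (e2 : d 0 = d' 0)
    {s : ℝ} (hs : 0 ≤ s) : c s = c' s := by
  have := eq_zero_of_abs_deriv_le_mul_abs_self_of_eq_zero_right (K := 2 * C + 1) (a := 0) (b := s)
    (f := fun s => (c s - c' s, d s - d' s)) (f' := fun s => (d s - d' s, w s - w' s))
    (fun r _ => (((h r).1.sub (h' r).1).prodMk ((h r).2.sub (h' r).2)).continuousAt.continuousWithinAt)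
    (fun r _ => (((h r).1.sub (h' r).1).prodMk ((h r).2.sub (h' r).2)).hasDerivWithinAt)
    (by simp [e1, e2]) (fun r _ => by
      have q1 := le_max_left ‖c r - c' r‖ ‖d r - d' r‖
      have q2 := le_max_right ‖c r - c' r‖ ‖d r - d' r‖
      have q3 := norm_nonneg (d r - d' r)
      rw [Prod.norm_mk, Prod.norm_mk, max_le_iff]
      constructor <;> nlinarith [hl r]) s ⟨hs, le_rfl⟩
  exact sub_eq_zero.1 (congrArg Prod.fst this)

end Pool.Agent.H.MP_c30897_gt
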